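import Pool.Agent.H23V.Junta

/-!
A weak switching lemma: under a random restriction with few stars, a conjunction of juntas of
bounded size becomes a junta of bounded size with high probability.
-/

namespace Pool.Agent.H23V

open Set Filter

noncomputable section

theorem pow_le_exp_half {s : ℕ} {c : ℝ} {M : ℕ} (hc1 : c ≤ 1)
    (hM : (s : ℝ) ≤ c * M) : (1 - c) ^ M ≤ (1 / 2 : ℝ) ^ s := by
  have h1 : 1 - c ≤ Real.exp (-c) := by
    have := Real.add_one_le_exp (-c)
    linarith
  have h2 : (1 - c) ^ M ≤ Real.exp (-c) ^ M := pow_le_pow_left₀ (by linarith) h1 M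
  refine h2.trans ?_
  rw [← Real.exp_nat_mul]
  have h3 : (1 / 2 : ℝ) ^ s = Real.exp (-(s * Real.log 2)) := by
    rw [Real.exp_neg, mul_comm, Real.exp_mul, Real.exp_log (by norm_num), Real.rpow_natCast]
    simp
  rw [h3]
  apply Real.exp_le_exp.2
  have h4 : Real.log 2 ≤ 1 := by
    have := Real.log_two_lt_d9
    linarith
  have h5 : (s : ℝ) * Real.log 2 ≤ s := by
    have : (0 : ℝ) ≤ s := Nat.cast_nonneg s
    nlinarith
  linarith

/-- Polynomials are eventually smaller than exponentials. -/
theorem eventually_poly_le (C t e : ℕ) (he : 1 ≤ e) :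
    ∀ᶠ s : ℕ in atTop, (C * s) ^ t ≤ 2 ^ (e * s) := by
  have h1 : Tendsto (fun n : ℕ => (n : ℝ) ^ t / (2 : ℝ) ^ n) atTop (nhds 0) :=
    tendsto_pow_const_div_const_pow_of_one_lt t (by norm_num)
  have h2 : ∀ᶠ n : ℕ in atTop, (n : ℝ) ^ t / (2 : ℝ) ^ n < 1 / (C ^ t + 1 : ℝ) :=
    h1.eventually (gt_mem_nhds (by positivity))
  filter_upwards [h2] with s hs
  rw [div_lt_div_iff₀ (by positivity) (by positivity)] at hs
  have h3 : ((C * s : ℕ) : ℝ) ^ t ≤ (2 : ℝ) ^ s := by
    push_cast
    rw [mul_pow]
    have : (0 : ℝ) ≤ (s : ℝ) ^ t := by positivity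
    nlinarith
  have h4 : (C * s) ^ t ≤ 2 ^ s := by exact_mod_cast h3
  refine h4.trans (Nat.pow_le_pow_right (by norm_num) ?_)
  nlinarith

/-- Overwrite the coordinates in `H`. -/
def ovr {P : Type} [DecidableEq P] (H : Finset P) (h : H → Bool) (x : P → Bool) : P → Bool :=
  fun p => if hp : p ∈ H then h ⟨p, hp⟩ else x p

theorem jun_over {P : Type} [DecidableEq P] {K : ℕ} {g : (P → Bool) → Prop} {S : Finset P}
    (hS : ∀ x y : P → Bool, (∀ p ∈ S, x p = y p) → (g x ↔ g y)) (H : Finset P) (h : H → Bool)
    (hc : (S \ H).card ≤ K) : Jun K fun x => g (ovr H h x) := by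
  refine ⟨S \ H, hc, fun x y hxy => hS _ _ fun p hp => ?_⟩
  unfold ovr
  by_cases hpH : p ∈ H
  · simp [hpH]
  · simp only [hpH, dite_false]
    exact hxy p (Finset.mem_sdiff.2 ⟨hp, hpH⟩)

/-- Combining: a function determined by few stars in `H` and juntas. -/
theorem jun_combine {P : Type} [DecidableEq P] {K t : ℕ} {G : (P → Bool) → Prop}
    (ρ : P → Option Bool) (H : Finset P) (T : Finset P)
    (hT : ∀ p ∈ H, ρ p = none → p ∈ T) (hTc : T.card ≤ t)
    (hG : ∀ h : H → Bool, Jun K fun x => G (ovr H h (res ρ x))) :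
    Jun (t + 2 ^ t * K) fun x => G (res ρ x) := by
  classical
  choose S hS1 hS2 using hG
  let hh : (T → Bool) → H → Bool := fun τ p =>
    (ρ p).getD (if hp : (p : P) ∈ T then τ ⟨p, hp⟩ else false)
  refine ⟨T ∪ (Finset.univ : Finset (T → Bool)).biUnion fun τ => S (hh τ), ?_, ?_⟩
  · refine (Finset.card_union_le _ _).trans ?_
    refine Nat.add_le_add hTc ?_
    refine (Finset.card_biUnion_le).trans ?_
    refine (Finset.sum_le_card_nsmul _ _ K fun τ _ => hS1 _).trans ?_
    rw [Finset.card_univ, Fintype.card_fun, Fintype.card_bool, smul_eq_mul, Fintype.card_coe]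
    exact Nat.mul_le_mul_right _ (Nat.pow_le_pow_right (by norm_num) hTc)
  · intro x y hxy
    let τ : T → Bool := fun p => x p
    have hov : ∀ z : P → Bool, (∀ p ∈ T, z p = x p) → ovr H (hh τ) (res ρ z) = res ρ z := by
      intro z hz
      funext p
      unfold ovr
      by_cases hpH : p ∈ H
      · simp only [hpH, dite_true, hh]
        unfold res
        cases hρ : ρ p with
        | some b => simp
        | none =>
          have hpT := hT p hpH hρ
          simp only [Option.getD_none, hpT, dite_true, τ]
          exact (hz p hpT).symm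
      · simp [hpH]
    have h1 := hS2 (hh τ) x y fun p hp => hxy p (Finset.mem_union_right _
      (Finset.mem_biUnion.2 ⟨τ, Finset.mem_univ _, hp⟩))
    beta_reduce at h1 ⊢
    rw [hov x fun _ _ => rfl, hov y fun p hp => (hxy p (Finset.mem_union_left _ hp)).symm] at h1
    exact h1

theorem and_lemma (K : ℕ) : ∀ e k : ℕ, ∃ K' s0 : ℕ, ∀ s ≥ s0, ∀ R : ℕ, 1 ≤ R →
    2 ^ s ≤ (2 * R + 1) ^ k → ∀ (P : Type) [Finite P] (J : Type) (g : J → (P → Bool) → Prop),
    (∀ j, Jun K (g j)) →
    pr {w : P → Lab R | ¬ Jun K' fun x => ∀ j, g j (res (lab w) x)} ≤ (1 / 2 : ℝ) ^ (e * s) := by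
  induction K with
  | zero =>
    intro e k
    refine ⟨0, 0, fun s _ R _ _ P _ J g hg => ?_⟩
    have : {w : P → Lab R | ¬ Jun 0 fun x => ∀ j, g j (res (lab w) x)} = ∅ := by
      rw [eq_empty_iff_forall_notMem]
      intro w hw
      apply hw
      refine ⟨∅, le_rfl, fun x y _ => forall_congr' fun j => ?_⟩
      obtain ⟨S, h1, h2⟩ := hg j
      have h3 : S = ∅ := Finset.card_eq_zero.1 (Nat.le_zero.1 h1)
      exact h2 _ _ (by simp [h3])
    rw [this, pr_empty]
    positivity
  | succ K ih =>
    intro e k
    let C : ℕ := 3 ^ (K + 1) * (e + 1) * (K + 1)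
    let t : ℕ := 2 * k * (e + 1)
    obtain ⟨K'', s1, hK''⟩ := ih (C + e + 1) k
    obtain ⟨s2, hs2⟩ := eventually_atTop.1 (eventually_poly_le C t (e + 1) (by omega))
    refine ⟨t + 2 ^ t * K'', max (max s1 s2) 1, fun s hs R hR hRk P _ J g hg => ?_⟩
    have hs1' : s1 ≤ s := (le_max_left _ _).trans ((le_max_left _ _).trans hs)
    have hs2' : s2 ≤ s := (le_max_right _ _).trans ((le_max_left _ _).trans hs)
    have hs3' : 1 ≤ s := (le_max_right _ _).trans hs
    classical
    choose S hS1 hS2 using hg
    let M : ℕ := 3 ^ (K + 1) * (e + 1) * s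
    let Q : ℕ → Prop := fun m => ∃ D : Finset J, D.card = m ∧
      (∀ i ∈ D, ∀ j ∈ D, i ≠ j → Disjoint (S i) (S j)) ∧ ∀ j ∈ D, ∃ x, ¬ g j x
    have hQ0 : Q 0 := ⟨∅, by simp, by simp, by simp⟩
    by_cases hQM : Q M
    · -- many disjoint nontrivial juntas
      obtain ⟨D, hDc, hDd, hDn⟩ := hQM
      have hDn' : ∀ j, ∃ x : P → Bool, j ∈ D → ¬ g j x := fun j => by
        by_cases hj : j ∈ D
        · obtain ⟨x, hx⟩ := hDn j hj
          exact ⟨x, fun _ => hx⟩
        · exact ⟨fun _ => false, fun h => absurd h hj⟩
      choose b hb using hDn'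
      have hsub : {w : P → Lab R | ¬ Jun (t + 2 ^ t * K'') fun x => ∀ j, g j (res (lab w) x)} ⊆
          {w : P → Lab R | ∀ j ∈ D, ¬ ∀ p ∈ S j, lab w p = some (b j p)} := by
        intro w hw j hj hfix
        apply hw
        have hF : (fun x => ∀ j, g j (res (lab w) x)) = fun _ : P → Bool => False := by
          funext x
          rw [eq_iff_iff, iff_false]
          intro hall
          apply hb j hj
          refine (hS2 j _ _ fun p hp => ?_).1 (hall j)
          unfold res
          rw [hfix p hp]
          rfl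
        rw [hF]
        exact Jun.const _ _
      refine (pr_mono hsub).trans ((pr_none_fixed hR S b (K + 1) D (fun j _ => hS1 j) hDd).trans ?_)
      rw [hDc]
      have h1 : (((e * s : ℕ)) : ℝ) ≤ (1 / 3 : ℝ) ^ (K + 1) * M := by
        simp only [M]
        push_cast
        rw [one_div, inv_pow]
        have h3 : ((3 : ℝ) ^ (K + 1)) ≠ 0 := by positivity
        have : ((3 : ℝ) ^ (K + 1))⁻¹ * (3 ^ (K + 1) * (e + 1) * s) = (e + 1) * s := by
          field_simp
        rw [this]
        have : (0 : ℝ) ≤ s := Nat.cast_nonneg s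
        nlinarith
      exact pow_le_exp_half (pow_le_one₀ (by norm_num) (by norm_num)) h1
    · -- a small hitting set
      let m := Nat.findGreatest Q M
      have hm : Q m := Nat.findGreatest_spec (Nat.zero_le _) hQ0
      have hmM : m ≤ M := Nat.findGreatest_le _
      have hmlt : m < M := lt_of_le_of_ne hmM fun h => hQM (h ▸ hm)
      have hmax : ¬ Q (m + 1) := Nat.findGreatest_is_greatest (Nat.lt_succ_self _) hmlt
      obtain ⟨D, hDc, hDd, hDn⟩ := hm
      let H : Finset P := D.biUnion S
      have hHc : H.card ≤ C * s := by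
        refine Finset.card_biUnion_le.trans ((Finset.sum_le_card_nsmul _ _ (K + 1)
          fun j _ => hS1 j).trans ?_)
        rw [hDc, smul_eq_mul]
        calc m * (K + 1) ≤ M * (K + 1) := Nat.mul_le_mul_right _ hmM
          _ = C * s := by simp only [M, C]; ring
      have hhit : ∀ j, (∃ x, ¬ g j x) → (S j \ H).card ≤ K := by
        intro j hj
        by_cases hjD : j ∈ D
        · have : S j \ H = ∅ := Finset.sdiff_eq_empty_iff_subset.2
            (Finset.subset_biUnion_of_mem S hjD)
          rw [this]; simp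
        · have hne : ¬ Disjoint (S j) H := by
            intro hdis
            apply hmax
            refine ⟨insert j D, ?_, ?_, ?_⟩
            · rw [Finset.card_insert_of_notMem hjD, hDc]
            · intro i hi i' hi' hii
              rcases Finset.mem_insert.1 hi with h1 | h1
              · rcases Finset.mem_insert.1 hi' with h2 | h2
                · exact absurd (h1.trans h2.symm) hii
                · rw [h1]
                  exact hdis.mono_right (Finset.subset_biUnion_of_mem S h2)
              · rcases Finset.mem_insert.1 hi' with h2 | h2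
                · rw [h2]
                  exact (hdis.mono_right (Finset.subset_biUnion_of_mem S h1)).symm
                · exact hDd i h1 i' h2 hii
            · intro i hi
              rcases Finset.mem_insert.1 hi with rfl | hi
              · exact hj
              · exact hDn i hi
          have h1 : (S j ∩ H).Nonempty := Finset.not_disjoint_iff_nonempty_inter.1 hne
          have h2 := Finset.card_sdiff_add_card_inter (S j) H
          have h3 := h1.card_pos
          have h4 := hS1 j
          omega
      have hover : ∀ (h : H → Bool) j, Jun K fun x => g j (ovr H h x) := by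
        intro h j
        by_cases hj : ∃ x, ¬ g j x
        · exact jun_over (hS2 j) H h (hhit j hj)
        · push Not at hj
          have : (fun x => g j (ovr H h x)) = fun _ : P → Bool => True := by
            funext x; simp [hj]
          rw [this]
          exact Jun.const _ _
      -- the two bad events
      let B1 : Set (P → Lab R) := ⋃ T ∈ H.powersetCard t, {w | ∀ p ∈ T, w p = none}
      let B2 : Set (P → Lab R) := ⋃ h : H → Bool,
        {w | ¬ Jun K'' fun x => ∀ j, g j (ovr H h (res (lab w) x))}
      have hsub : {w : P → Lab R | ¬ Jun (t + 2 ^ t * K'') fun x => ∀ j, g j (res (lab w) x)} ⊆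
          B1 ∪ B2 := by
        intro w hw
        by_contra hcon
        rw [mem_union, not_or] at hcon
        obtain ⟨hc1, hc2⟩ := hcon
        apply hw
        have hc2' : ∀ h : H → Bool, Jun K'' fun x => ∀ j, g j (ovr H h (res (lab w) x)) := by
          intro h
          by_contra hh
          exact hc2 (mem_iUnion.2 ⟨h, hh⟩)
        let T : Finset P := H.filter fun p => w p = none
        have hTc : T.card ≤ t := by
          by_contra hT
          push Not at hT
          obtain ⟨T', hT'1, hT'2⟩ := Finset.exists_subset_card_eq hT.le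
          apply hc1
          simp only [B1, mem_iUnion]
          refine ⟨T', Finset.mem_powersetCard.2 ⟨hT'1.trans (Finset.filter_subset _ _), hT'2⟩,
            fun p hp => ?_⟩
          exact (Finset.mem_filter.1 (hT'1 hp)).2
        refine jun_combine (lab w) H T (fun p hp hρ => ?_) hTc hc2' (G := fun x => ∀ j, g j x)
        refine Finset.mem_filter.2 ⟨hp, ?_⟩
        unfold lab at hρ
        exact Option.map_eq_none_iff.1 hρ
      refine (pr_mono hsub).trans ((pr_union_le _ _).trans ?_)
      have hB1 : pr B1 ≤ (1 / 2 : ℝ) ^ ((e + 1) * s) := by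
        have h1 := pr_biUnion_le (Om := P → Lab R) (H.powersetCard t)
          (fun T => {w | ∀ p ∈ T, w p = none}) (e := (1 / (2 * R + 1 : ℝ)) ^ t) (by
            intro T hT
            rw [pr_stars, (Finset.mem_powersetCard.1 hT).2])
        refine h1.trans ?_
        rw [Finset.card_powersetCard]
        have h2 : (H.card.choose t : ℝ) ≤ ((2 : ℝ) ^ ((e + 1) * s)) := by
          have h3 : H.card.choose t ≤ 2 ^ ((e + 1) * s) :=
            ((Nat.choose_le_pow _ _).trans (Nat.pow_le_pow_left hHc t)).trans (hs2 s hs2')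
          exact_mod_cast h3
        have h4 : (1 / (2 * R + 1 : ℝ)) ^ t ≤ (1 / 2 : ℝ) ^ (2 * (e + 1) * s) := by
          rw [one_div_pow, one_div_pow]
          apply one_div_le_one_div_of_le (by positivity)
          have h5 : (2 ^ s) ^ (2 * (e + 1)) ≤ ((2 * R + 1) ^ k) ^ (2 * (e + 1)) :=
            Nat.pow_le_pow_left hRk _
          rw [← pow_mul, ← pow_mul] at h5
          have h6 : 2 ^ (2 * (e + 1) * s) ≤ (2 * R + 1) ^ t := by
            refine le_trans (le_of_eq ?_) (h5.trans (le_of_eq ?_))
            · congr 1; ring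
            · congr 1; simp only [t]; ring
          exact_mod_cast h6
        calc (H.card.choose t : ℝ) * (1 / (2 * R + 1 : ℝ)) ^ t
            ≤ (2 : ℝ) ^ ((e + 1) * s) * (1 / 2 : ℝ) ^ (2 * (e + 1) * s) := by
              apply mul_le_mul h2 h4 (by positivity) (by positivity)
          _ = (1 / 2 : ℝ) ^ ((e + 1) * s) := by
              have : 2 * (e + 1) * s = (e + 1) * s + (e + 1) * s := by ring
              rw [this, pow_add, ← mul_assoc, ← mul_pow]
              norm_num
      have hB2 : pr B2 ≤ (1 / 2 : ℝ) ^ ((e + 1) * s) := by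
        have h1 := pr_iUnion_le (Om := P → Lab R) (ι := H → Bool)
          (fun h => {w | ¬ Jun K'' fun x => ∀ j, g j (ovr H h (res (lab w) x))})
          (e := (1 / 2 : ℝ) ^ ((C + e + 1) * s)) (by
            intro h
            exact hK'' s hs1' R hR hRk P J (fun j x => g j (ovr H h x)) (hover h))
        refine h1.trans ?_
        have h2 : (Nat.card (H → Bool) : ℝ) ≤ (2 : ℝ) ^ (C * s) := by
          rw [Nat.card_eq_fintype_card, Fintype.card_fun, Fintype.card_bool, Fintype.card_coe]
          push_cast
          exact pow_le_pow_right₀ (by norm_num) hHc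
        calc (Nat.card (H → Bool) : ℝ) * (1 / 2 : ℝ) ^ ((C + e + 1) * s)
            ≤ (2 : ℝ) ^ (C * s) * (1 / 2 : ℝ) ^ ((C + e + 1) * s) := by
              apply mul_le_mul_of_nonneg_right h2 (by positivity)
          _ = (1 / 2 : ℝ) ^ ((e + 1) * s) := by
              have : (C + e + 1) * s = C * s + (e + 1) * s := by ring
              rw [this, pow_add, ← mul_assoc, ← mul_pow]
              norm_num
      have h7 : (1 / 2 : ℝ) ^ ((e + 1) * s) + (1 / 2 : ℝ) ^ ((e + 1) * s) ≤
          (1 / 2 : ℝ) ^ (e * s) := by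
        have : (e + 1) * s = e * s + s := by ring
        rw [this, pow_add]
        have h8 : (1 / 2 : ℝ) ^ s ≤ 1 / 2 := by
          calc (1 / 2 : ℝ) ^ s ≤ (1 / 2 : ℝ) ^ 1 :=
                pow_le_pow_of_le_one (by norm_num) (by norm_num) hs3'
            _ = 1 / 2 := pow_one _
        have h9 : (0 : ℝ) ≤ (1 / 2 : ℝ) ^ (e * s) := by positivity
        nlinarith
      linarith

end

end Pool.Agent.H23V
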