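import Pool.Agent.H23V.Om

/-!
Definability, and the lower bound: every set of the hierarchy is definable in the model.
-/

namespace Pool.Agent.H23V

open Set Filter FirstOrder FirstOrder.Language Pool.Agent.H23

noncomputable section

/-- Contexts: parameters of both sorts, and stacks of bound variables of both sorts. -/
@[ext] structure Cx (M : Two) (k l : ℕ) where
  c : ℕ → M.N1
  d : ℕ → M.N2
  x : Fin k → M.N1
  y : Fin l → M.N2

variable {M : Two} {k l : ℕ}

/-- The context of two assignments. -/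
def cx (k l : ℕ) (v : ℕ → M.N1) (w : ℕ → M.N2) : Cx M k l :=
  ⟨fun i => v (2 * i), fun i => w (2 * i), fun j => v (2 * j + 1), fun j => w (2 * j + 1)⟩

/-- Parameters only. -/
structure Pm (M : Two) where
  c : ℕ → M.N1
  d : ℕ → M.N2

def Cx.p (z : Cx M k l) : Pm M := ⟨z.c, z.d⟩

def Cx.dN (z : Cx M (k + 1) l) : Cx M k l := ⟨z.c, z.d, fun j => z.x j.castSucc, z.y⟩
def Cx.dS (z : Cx M k (l + 1)) : Cx M k l := ⟨z.c, z.d, z.x, fun j => z.y j.castSucc⟩
def Cx.lN (z : Cx M (k + 1) l) : M.N1 := z.x (Fin.last k)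
def Cx.lS (z : Cx M k (l + 1)) : M.N2 := z.y (Fin.last l)
def Cx.pN (z : Cx M k l) (a : M.N1) : Cx M (k + 1) l :=
  ⟨z.c, z.d, Fin.snoc (α := fun _ => M.N1) z.x a, z.y⟩
def Cx.pS (z : Cx M k l) (a : M.N2) : Cx M k (l + 1) :=
  ⟨z.c, z.d, z.x, Fin.snoc (α := fun _ => M.N2) z.y a⟩

@[simp] theorem dN_pN (z : Cx M k l) (a : M.N1) : (z.pN a).dN = z := by
  ext <;> simp [Cx.pN, Cx.dN]
@[simp] theorem lN_pN (z : Cx M k l) (a : M.N1) : (z.pN a).lN = a := by
  simp [Cx.pN, Cx.lN]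
@[simp] theorem dS_pS (z : Cx M k l) (a : M.N2) : (z.pS a).dS = z := by
  ext <;> simp [Cx.pS, Cx.dS]
@[simp] theorem lS_pS (z : Cx M k l) (a : M.N2) : (z.pS a).lS = a := by
  simp [Cx.pS, Cx.lS]

theorem cx_updN (v : ℕ → M.N1) (w : ℕ → M.N2) (a : M.N1) :
    cx (k + 1) l (Function.update v (2 * k + 1) a) w = (cx k l v w).pN a := by
  ext i
  · exact congrArg _ (by rfl) |>.trans (Function.update_of_ne (by omega) _ _)
  · rfl
  · refine Fin.lastCases ?_ (fun j => ?_) i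
    · simp [cx, Cx.pN]
    · have : 2 * (j : ℕ) + 1 ≠ 2 * k + 1 := by have := j.2; omega
      simp only [cx, Cx.pN, Fin.snoc_castSucc, Fin.val_castSucc]
      exact Function.update_of_ne this _ _
  · rfl

theorem cx_updS (v : ℕ → M.N1) (w : ℕ → M.N2) (a : M.N2) :
    cx k (l + 1) v (Function.update w (2 * l + 1) a) = (cx k l v w).pS a := by
  ext i
  · rfl
  · exact congrArg _ (by rfl) |>.trans (Function.update_of_ne (by omega) _ _)
  · rfl
  · refine Fin.lastCases ?_ (fun j => ?_) i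
    · simp [cx, Cx.pS]
    · have : 2 * (j : ℕ) + 1 ≠ 2 * l + 1 := by have := j.2; omega
      simp only [cx, Cx.pS, Fin.snoc_castSucc, Fin.val_castSucc]
      exact Function.update_of_ne this _ _

/-- Numbers given by terms. -/
def TF (F : Cx M k l → M.N1) : Prop := ∃ t : NTm, ∀ v w, t.val M v w = F (cx k l v w)
/-- Strings given by variables. -/
def SV (F : Cx M k l → M.N2) : Prop := ∃ j : ℕ, ∀ v w, (w j : M.N2) = F (cx k l v w)
/-- Relations given by formulas. -/
def BD (R : Cx M k l → Prop) : Prop := ∃ φ : Fm, ∀ v w, Sat M v w φ ↔ R (cx k l v w)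

theorem TF.par (i : ℕ) : TF (M := M) (k := k) (l := l) fun z => z.c i :=
  ⟨.var (2 * i), fun _ _ => rfl⟩
theorem SV.par (i : ℕ) : SV (M := M) (k := k) (l := l) fun z => z.d i :=
  ⟨2 * i, fun _ _ => rfl⟩
theorem TF.last : TF (M := M) (k := k + 1) (l := l) fun z => z.lN :=
  ⟨.var (2 * k + 1), fun _ _ => rfl⟩
theorem SV.last : SV (M := M) (k := k) (l := l + 1) fun z => z.lS :=
  ⟨2 * l + 1, fun _ _ => rfl⟩
theorem TF.liftN {F : Cx M k l → M.N1} (h : TF F) : TF fun z : Cx M (k + 1) l => F z.dN := h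
theorem TF.liftS {F : Cx M k l → M.N1} (h : TF F) : TF fun z : Cx M k (l + 1) => F z.dS := h
theorem SV.liftN {F : Cx M k l → M.N2} (h : SV F) : SV fun z : Cx M (k + 1) l => F z.dN := h
theorem SV.liftS {F : Cx M k l → M.N2} (h : SV F) : SV fun z : Cx M k (l + 1) => F z.dS := h
theorem TF.zero : TF (M := M) (k := k) (l := l) fun _ => M.zero := ⟨.zero, fun _ _ => rfl⟩
theorem TF.one : TF (M := M) (k := k) (l := l) fun _ => M.one := ⟨.one, fun _ _ => rfl⟩
theorem TF.add {F G : Cx M k l → M.N1} (h : TF F) (h' : TF G) :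
    TF fun z => M.add (F z) (G z) := by
  obtain ⟨t, ht⟩ := h
  obtain ⟨u, hu⟩ := h'
  exact ⟨.add t u, fun v w => by simp only [NTm.val]; rw [ht, hu]⟩
theorem TF.mul {F G : Cx M k l → M.N1} (h : TF F) (h' : TF G) :
    TF fun z => M.mul (F z) (G z) := by
  obtain ⟨t, ht⟩ := h
  obtain ⟨u, hu⟩ := h'
  exact ⟨.mul t u, fun v w => by simp only [NTm.val]; rw [ht, hu]⟩
theorem TF.len {F : Cx M k l → M.N2} (h : SV F) : TF fun z => M.len (F z) := by
  obtain ⟨j, hj⟩ := h
  exact ⟨.len j, fun v w => by simp only [NTm.val]; rw [hj v w]⟩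

theorem BD.le {F G : Cx M k l → M.N1} (h : TF F) (h' : TF G) :
    BD fun z => M.le (F z) (G z) := by
  obtain ⟨t, ht⟩ := h
  obtain ⟨u, hu⟩ := h'
  exact ⟨.le t u, fun v w => by simp only [Sat]; rw [ht, hu]⟩
theorem BD.eq {F G : Cx M k l → M.N1} (h : TF F) (h' : TF G) :
    BD fun z => F z = G z := by
  obtain ⟨t, ht⟩ := h
  obtain ⟨u, hu⟩ := h'
  exact ⟨.eq t u, fun v w => by simp only [Sat]; rw [ht, hu]⟩
theorem BD.mem {F : Cx M k l → M.N1} {G : Cx M k l → M.N2} (h : TF F) (h' : SV G) :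
    BD fun z => M.mem (F z) (G z) := by
  obtain ⟨t, ht⟩ := h
  obtain ⟨j, hj⟩ := h'
  exact ⟨.mem t j, fun v w => by simp only [Sat]; rw [ht, hj v w]⟩
theorem BD.imp {R S : Cx M k l → Prop} (h : BD R) (h' : BD S) : BD fun z => R z → S z := by
  obtain ⟨φ, h2⟩ := h
  obtain ⟨ψ, h4⟩ := h'
  exact ⟨φ.imp ψ, fun v w => by simp only [Sat]; rw [h2, h4]⟩
theorem BD.false : BD (M := M) (k := k) (l := l) fun _ => False := ⟨.bot, fun _ _ => Iff.rfl⟩
theorem BD.not {R : Cx M k l → Prop} (h : BD R) : BD fun z => ¬ R z := h.imp BD.false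
theorem BD.congr {R S : Cx M k l → Prop} (h : BD R) (e : ∀ z, R z ↔ S z) : BD S := by
  obtain ⟨φ, h2⟩ := h
  exact ⟨φ, fun v w => (h2 v w).trans (e _)⟩
theorem BD.and {R S : Cx M k l → Prop} (h : BD R) (h' : BD S) : BD fun z => R z ∧ S z :=
  (h.imp h'.not).not.congr fun z => by tauto
theorem BD.or {R S : Cx M k l → Prop} (h : BD R) (h' : BD S) : BD fun z => R z ∨ S z :=
  (h.not.imp h').congr fun z => by tauto
theorem BD.iff {R S : Cx M k l → Prop} (h : BD R) (h' : BD S) : BD fun z => (R z ↔ S z) :=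
  ((h.imp h').and (h'.imp h)).congr fun z => by tauto
theorem BD.allN {F : Cx M k l → M.N1} (h : TF F) (R : Cx M k l → M.N1 → Prop)
    (hR : BD fun z : Cx M (k + 1) l => R z.dN z.lN) :
    BD fun z => ∀ a, M.le a (F z) → R z a := by
  obtain ⟨t, ht⟩ := h
  obtain ⟨φ, h2⟩ := hR
  refine ⟨.allN (2 * k + 1) t φ, fun v w => ?_⟩
  simp only [Sat]
  rw [ht]
  refine forall_congr' fun a => forall_congr' fun _ => ?_
  rw [h2, cx_updN]
  beta_reduce
  rw [dN_pN, lN_pN]
theorem BD.allS {F : Cx M k l → M.N1} (h : TF F) (R : Cx M k l → M.N2 → Prop)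
    (hR : BD fun z : Cx M k (l + 1) => R z.dS z.lS) :
    BD fun z => ∀ a, M.le (M.len a) (F z) → R z a := by
  obtain ⟨t, ht⟩ := h
  obtain ⟨φ, h2⟩ := hR
  refine ⟨.allS (2 * l + 1) t φ, fun v w => ?_⟩
  simp only [Sat]
  rw [ht]
  refine forall_congr' fun a => forall_congr' fun _ => ?_
  rw [h2, cx_updS]
  beta_reduce
  rw [dS_pS, lS_pS]
theorem BD.exN {F : Cx M k l → M.N1} (h : TF F) (R : Cx M k l → M.N1 → Prop)
    (hR : BD fun z : Cx M (k + 1) l => R z.dN z.lN) :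
    BD fun z => ∃ a, M.le a (F z) ∧ R z a :=
  (BD.allN h (fun z a => ¬ R z a) hR.not).not.congr fun z => by push Not; exact Iff.rfl
theorem BD.exS {F : Cx M k l → M.N1} (h : TF F) (R : Cx M k l → M.N2 → Prop)
    (hR : BD fun z : Cx M k (l + 1) => R z.dS z.lS) :
    BD fun z => ∃ a, M.le (M.len a) (F z) ∧ R z a :=
  (BD.allS h (fun z a => ¬ R z a) hR.not).not.congr fun z => by push Not; exact Iff.rfl

theorem BD.par {X Y : Cx M k l → M.N2} {n N : Cx M k l → M.N1} (hX : SV X) (hY : SV Y)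
    (hn : TF n) (hN : TF N) : BD fun z => ParR M (X z) (Y z) (n z) (N z) :=
  ((BD.mem TF.zero hY).iff (BD.mem (hn.mul hN) hX)).and
    (BD.allN hN (fun z i => (M.le (M.add (M.add i M.one) M.one) (N z) →
      (M.mem (M.add i M.one) (Y z) ↔
        ¬ (M.mem i (Y z) ↔ M.mem (M.add (M.mul (n z) (N z)) (M.add i M.one)) (X z)))))
    ((BD.le ((TF.last.add TF.one).add TF.one) hN.liftN).imp
      ((BD.mem (TF.last.add TF.one) hY.liftN).iff
        ((BD.mem TF.last hY.liftN).iff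
          (BD.mem ((hn.liftN.mul hN.liftN).add (TF.last.add TF.one)) hX.liftN)).not)))

theorem BD.lastR {Y : Cx M k l → M.N2} {N : Cx M k l → M.N1} (hY : SV Y) (hN : TF N) :
    BD fun z => LastR M (Y z) (N z) :=
  BD.exN hN (fun z i => M.add i M.one = N z ∧ M.mem i (Y z))
    ((BD.eq (TF.last.add TF.one) hN.liftN).and (BD.mem TF.last hY.liftN))

/-- The relations with the parameters taken from the context: number parameter `1` is `N`,
string parameter `1` is the string of the zero real. -/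
def OmC (z : Pm M) (n : M.N1) : Prop := OmR M (z.c 1) (z.d 1) n
def BitC (z : Pm M) (x : M.N2) (n : M.N1) : Prop := BitR M (z.c 1) x n

theorem BD.om {n : Cx M k l → M.N1} (hn : TF n) : BD fun z => OmC z.p (n z) :=
  (BD.le (hn.add TF.one) (TF.par 1)).and
    (BD.exS (TF.par 1) (fun z y => ParR M (z.d 1) y (n z) (z.c 1))
      (BD.par (SV.par 1) SV.last hn.liftS (TF.par 1)))

theorem BD.bit {X : Cx M k l → M.N2} {n : Cx M k l → M.N1} (hX : SV X) (hn : TF n) :
    BD fun z => BitC z.p (X z) (n z) :=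
  BD.exS (TF.par 1) (fun z y => ParR M (X z) y (n z) (z.c 1) ∧ LastR M y (z.c 1))
    ((BD.par hX.liftS SV.last hn.liftS (TF.par 1)).and (BD.lastR SV.last (TF.par 1)))

/-- `z` codes the pair of the reals coded by `x` and `y`. -/
def PairC (e : Pm M) (z x y : M.N2) : Prop :=
  ∀ i, M.le i (e.c 1) → (OmC e i → ((BitC e z (M.add i i) ↔ BitC e x i) ∧
    (BitC e z (M.add (M.add i i) M.one) ↔ BitC e y i)))

theorem BD.pair {Z X Y : Cx M k l → M.N2} (hZ : SV Z) (hX : SV X) (hY : SV Y) :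
    BD fun e => PairC e.p (Z e) (X e) (Y e) :=
  BD.allN (TF.par 1) (fun e i => (OmC e.p i → ((BitC e.p (Z e) (M.add i i) ↔ BitC e.p (X e) i) ∧
    (BitC e.p (Z e) (M.add (M.add i i) M.one) ↔ BitC e.p (Y e) i))))
    ((BD.om TF.last).imp (((BD.bit hZ.liftN (TF.last.add TF.last)).iff
      (BD.bit hX.liftN TF.last)).and
      ((BD.bit hZ.liftN ((TF.last.add TF.last).add TF.one)).iff (BD.bit hY.liftN TF.last))))

def prM (M : Two) (a b : M.N1) : M.N1 := M.add (M.mul (M.add a b) (M.add a b)) a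

theorem TF.pr {F G : Cx M k l → M.N1} (h : TF F) (h' : TF G) : TF fun z => prM M (F z) (G z) :=
  ((h.add h').mul (h.add h')).add h

/-- The relation of the base case; string parameters `2` and `3` code the set. -/
def BaseC (e : Pm M) (a : M.N2) : Prop :=
  ∃ i, M.le i (e.c 1) ∧ (OmC e i ∧ ∀ q, M.le q (e.c 1) → (OmC e q → ∃ j, M.le j (e.c 1) ∧
    (OmC e j ∧ ((BitC e (e.d 3) (prM M (prM M i q) j) ∧ ¬ BitC e a j) ∨
      (BitC e (e.d 2) (prM M (prM M i q) j) ∧ BitC e a j)))))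

theorem BD.base {X : Cx M k l → M.N2} (hX : SV X) : BD fun e => BaseC e.p (X e) :=
  BD.exN (TF.par 1) (fun e i => OmC e.p i ∧ ∀ q, M.le q (e.c 1) → (OmC e.p q → ∃ j,
      M.le j (e.c 1) ∧ (OmC e.p j ∧ ((BitC e.p (e.d 3) (prM M (prM M i q) j) ∧ ¬ BitC e.p (X e) j) ∨
      (BitC e.p (e.d 2) (prM M (prM M i q) j) ∧ BitC e.p (X e) j)))))
    ((BD.om TF.last).and (BD.allN (TF.par 1)
      (fun e q => (OmC e.p q → ∃ j, M.le j (e.c 1) ∧
        (OmC e.p j ∧ ((BitC e.p (e.d 3) (prM M (prM M e.lN q) j) ∧ ¬ BitC e.p (X e.dN) j) ∨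
        (BitC e.p (e.d 2) (prM M (prM M e.lN q) j) ∧ BitC e.p (X e.dN) j)))))
      ((BD.om TF.last).imp (BD.exN (TF.par 1)
        (fun e j => (OmC e.p j ∧
          ((BitC e.p (e.d 3) (prM M (prM M e.dN.lN e.lN) j) ∧ ¬ BitC e.p (X e.dN.dN) j) ∨
          (BitC e.p (e.d 2) (prM M (prM M e.dN.lN e.lN) j) ∧ BitC e.p (X e.dN.dN) j))))
        ((BD.om TF.last).and
          (((BD.bit (SV.par 3) (TF.pr (TF.pr TF.last.liftN.liftN TF.last.liftN) TF.last)).and
            (BD.bit hX.liftN.liftN.liftN TF.last).not).or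
          ((BD.bit (SV.par 2) (TF.pr (TF.pr TF.last.liftN.liftN TF.last.liftN) TF.last)).and
            (BD.bit hX.liftN.liftN.liftN TF.last))))))))

variable (D : Data)

open scoped Classical in
/-- The real coded by a string. -/
def Data.rl (a : D.M.N2) : Cantor := fun n => decide (BitR D.M D.eN a (D.nat n))

theorem Data.rl_eq_true (a : D.M.N2) (n : ℕ) :
    D.rl a n = true ↔ BitR D.M D.eN a (D.nat n) := by simp [Data.rl]

theorem Data.rl_eU (α : Cantor) : D.rl (D.eU α) = α := by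
  funext n
  have h1 := D.rl_eq_true (D.eU α) n
  rw [D.bit_iff] at h1
  cases h : α n <;> cases h' : D.rl (D.eU α) n <;> simp_all

/-- Good parameters; number parameter `2` bounds the lengths of the strings of the reals. -/
structure GoodP (D : Data) (e : Pm D.M) (g0 g1 : Cantor) : Prop where
  h1 : e.c 1 = D.eN
  h2 : e.c 2 = D.M.len (D.eU fun _ => false)
  d1 : e.d 1 = D.eU fun _ => false
  d2 : e.d 2 = D.eU g0
  d3 : e.d 3 = D.eU g1

variable {D}

theorem ex_om {e : Pm D.M} {g0 g1 : Cantor} (he : GoodP D e g0 g1) (Q : D.M.N1 → Prop) :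
    (∃ i, D.M.le i (e.c 1) ∧ (OmC e i ∧ Q i)) ↔ ∃ n, Q (D.nat n) := by
  constructor
  · rintro ⟨i, -, h2, h3⟩
    unfold OmC at h2
    rw [he.h1, he.d1] at h2
    obtain ⟨n, rfl⟩ := D.om_std _ i h2
    exact ⟨n, h3⟩
  · rintro ⟨n, hn⟩
    refine ⟨D.nat n, by rw [he.h1]; exact D.nat_le_eN n, ?_, hn⟩
    unfold OmC
    rw [he.h1, he.d1]
    exact D.om_nat _ n

theorem all_om {e : Pm D.M} {g0 g1 : Cantor} (he : GoodP D e g0 g1) (Q : D.M.N1 → Prop) :
    (∀ i, D.M.le i (e.c 1) → (OmC e i → Q i)) ↔ ∀ n, Q (D.nat n) := by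
  have h := ex_om he fun i => ¬ Q i
  rw [← not_iff_not] at h
  push Not at h
  constructor
  · intro h1
    exact h.1 h1
  · intro h1
    exact h.2 h1

theorem prM_nat (i j : ℕ) : prM D.M (D.nat i) (D.nat j) = D.nat (prN i j) := by
  unfold prM prN
  rw [D.nat_add, D.nat_mul, D.nat_add]

theorem pairC_iff {e : Pm D.M} {g0 g1 : Cantor} (he : GoodP D e g0 g1) (z x y : D.M.N2) :
    PairC e z x y ↔ D.rl z = pr2 (D.rl x) (D.rl y) := by
  unfold PairC
  rw [all_om he]
  unfold BitC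
  rw [he.h1]
  rw [← D.nat_one]
  simp only [D.nat_add, ← D.rl_eq_true]
  constructor
  · intro h
    rw [← pr2_eta (D.rl z)]
    congr 1
    · funext n
      have h1 := (h n).1
      unfold fstC
      rw [two_mul]
      cases h2 : D.rl z (n + n) <;> cases h3 : D.rl x n <;> simp_all
    · funext n
      have h1 := (h n).2
      unfold sndC
      rw [two_mul]
      cases h2 : D.rl z (n + n + 1) <;> cases h3 : D.rl y n <;> simp_all
  · intro h n
    have h1 : fstC (D.rl z) n = D.rl x n := by rw [h, fstC_pr2]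
    have h2 : sndC (D.rl z) n = D.rl y n := by rw [h, sndC_pr2]
    unfold fstC at h1
    unfold sndC at h2
    rw [two_mul] at h1 h2
    rw [h1, h2]
    exact ⟨Iff.rfl, Iff.rfl⟩

theorem len_eU (α β : Cantor) : D.M.le (D.M.len (D.eU α)) (D.M.len (D.eU β)) := by
  rw [D.le_M _ _ (fun s => sl (str s (D.bits α s))) (fun s => sl (str s (D.bits β s))) rfl rfl]
  exact Eventually.of_forall fun s => by rw [sl_str, sl_str]

/-- Every set of the hierarchy is definable. -/
theorem definable (D : Data) (n : ℕ) : ∀ S : Set Cantor, Sg n S →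
    ∃ (g0 g1 : Cantor) (Rl : Pm D.M → D.M.N2 → Prop),
      (∀ {k l : ℕ} (F : Cx D.M k l → D.M.N2), SV F → BD fun e => Rl e.p (F e)) ∧
      ∀ (e : Pm D.M), GoodP D e g0 g1 → ∀ a, (Rl e a ↔ D.rl a ∈ S) := by
  induction n with
  | zero =>
    intro S hS
    obtain ⟨g0, g1, hg⟩ := isFs_code hS
    refine ⟨g0, g1, BaseC, fun F hF => BD.base hF, fun e he a => ?_⟩
    rw [hg]
    unfold BaseC
    rw [ex_om he]
    refine exists_congr fun i => ?_
    rw [all_om he]
    refine forall_congr' fun q => ?_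
    rw [ex_om he]
    refine exists_congr fun j => ?_
    rw [prM_nat, prM_nat]
    unfold BitC
    rw [he.h1, he.d2, he.d3, D.bit_iff, D.bit_iff, ← D.rl_eq_true, Bool.not_eq_true]
  | succ n ih =>
    rintro S ⟨R, hR, rfl⟩
    obtain ⟨g0, g1, Rl, h1, h2⟩ := ih R hR
    refine ⟨g0, g1, fun e a => ∃ y, D.M.le (D.M.len y) (e.c 2) ∧ ∃ z,
      D.M.le (D.M.len z) (e.c 2) ∧ (PairC e z a y ∧ ¬ Rl e z), ?_, ?_⟩
    · intro k l F hF
      exact BD.exS (TF.par 2) (fun e y => ∃ z, D.M.le (D.M.len z) (e.c 2) ∧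
        (PairC e.p z (F e) y ∧ ¬ Rl e.p z))
        (BD.exS (TF.par 2) (fun e z => (PairC e.p z (F e.dS) e.lS ∧ ¬ Rl e.p z))
          ((BD.pair SV.last hF.liftS.liftS SV.last.liftS).and (h1 _ SV.last).not))
    · intro e he a
      constructor
      · rintro ⟨y, -, z, -, hp, hz⟩
        rw [pairC_iff he] at hp
        rw [h2 e he, hp] at hz
        exact ⟨D.rl y, hz⟩
      · rintro ⟨β, hβ⟩
        refine ⟨D.eU β, by rw [he.h2]; exact len_eU _ _, D.eU (pr2 (D.rl a) β),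
          by rw [he.h2]; exact len_eU _ _, ?_, ?_⟩
        · rw [pairC_iff he, D.rl_eU, D.rl_eU]
        · rw [h2 e he, D.rl_eU]
          exact hβ

end

end Pool.Agent.H23V
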