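import Pool.Agent.H23V.Terms

/-!
Countability of the set of terms, and dependence on finitely many variables.
-/

namespace Pool.Agent.H23V

open Set Filter FirstOrder FirstOrder.Language

noncomputable section

def encT : NTm → ℕ
  | .var i => Nat.pair 0 i
  | .zero => Nat.pair 1 0
  | .one => Nat.pair 2 0
  | .add t u => Nat.pair 3 (Nat.pair (encT t) (encT u))
  | .mul t u => Nat.pair 4 (Nat.pair (encT t) (encT u))
  | .len j => Nat.pair 5 j

theorem encT_inj : Function.Injective encT := by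
  intro t
  induction t with
  | var i => intro u h; cases u <;> simp_all [encT, Nat.pair_eq_pair]
  | zero => intro u h; cases u <;> simp_all [encT, Nat.pair_eq_pair]
  | one => intro u h; cases u <;> simp_all [encT, Nat.pair_eq_pair]
  | add t t' ih ih' =>
    intro u h
    cases u <;> simp only [encT, Nat.pair_eq_pair] at h <;> try omega
    rw [ih h.2.1, ih' h.2.2]
  | mul t t' ih ih' =>
    intro u h
    cases u <;> simp only [encT, Nat.pair_eq_pair] at h <;> try omega
    rw [ih h.2.1, ih' h.2.2]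
  | len j => intro u h; cases u <;> simp_all [encT, Nat.pair_eq_pair]

def encF : Fm → ℕ
  | .bot => Nat.pair 0 0
  | .eq t u => Nat.pair 1 (Nat.pair (encT t) (encT u))
  | .le t u => Nat.pair 2 (Nat.pair (encT t) (encT u))
  | .mem t j => Nat.pair 3 (Nat.pair (encT t) j)
  | .imp φ ψ => Nat.pair 4 (Nat.pair (encF φ) (encF ψ))
  | .allN k t φ => Nat.pair 5 (Nat.pair k (Nat.pair (encT t) (encF φ)))
  | .allS k t φ => Nat.pair 6 (Nat.pair k (Nat.pair (encT t) (encF φ)))

theorem encF_inj : Function.Injective encF := by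
  intro φ
  induction φ with
  | bot => intro ψ h; cases ψ <;> simp_all [encF, Nat.pair_eq_pair]
  | eq t u =>
    intro ψ h
    cases ψ <;> simp only [encF, Nat.pair_eq_pair] at h <;> try omega
    rw [encT_inj h.2.1, encT_inj h.2.2]
  | le t u =>
    intro ψ h
    cases ψ <;> simp only [encF, Nat.pair_eq_pair] at h <;> try omega
    rw [encT_inj h.2.1, encT_inj h.2.2]
  | mem t j =>
    intro ψ h
    cases ψ <;> simp only [encF, Nat.pair_eq_pair] at h <;> try omega
    rw [encT_inj h.2.1, h.2.2]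
  | imp φ φ' ih ih' =>
    intro ψ h
    cases ψ <;> simp only [encF, Nat.pair_eq_pair] at h <;> try omega
    rw [ih h.2.1, ih' h.2.2]
  | allN k t φ ih =>
    intro ψ h
    cases ψ <;> simp only [encF, Nat.pair_eq_pair] at h <;> try omega
    rw [h.2.1, encT_inj h.2.2.1, ih h.2.2.2]
  | allS k t φ ih =>
    intro ψ h
    cases ψ <;> simp only [encF, Nat.pair_eq_pair] at h <;> try omega
    rw [h.2.1, encT_inj h.2.2.1, ih h.2.2.2]

instance : Countable Fm := encF_inj.countable

instance : Countable CS := by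
  have : Function.Surjective (fun i : ℕ => (match i with
      | 0 => .sz | (k + 1) => .node k : CS)) := by
    rintro (_ | k)
    exacts [⟨0, rfl⟩, ⟨k + 1, rfl⟩]
  exact this.countable

instance : Countable (Σ n, PF n) := by
  let Src := (ℕ × ℕ × ℕ × {φ : Fm // IsSB0 φ}) ⊕ (ℕ × ℕ × ℕ × {φ : Fm // IsSB0 φ}) ⊕ Unit
  have hS : Countable Src := inferInstance
  have : Function.Surjective (fun q : Src => (match q with
      | Sum.inl ⟨l, c, k, ⟨φ, h⟩⟩ => ⟨l, .wit l c k φ h⟩
      | Sum.inr (Sum.inl ⟨l, c, k, ⟨φ, h⟩⟩) => ⟨l, .comp l c k φ h⟩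
      | Sum.inr (Sum.inr ()) => ⟨2, .pr⟩ : Σ n, PF n)) := by
    rintro ⟨l, F⟩
    cases F with
    | wit _ c k φ h => exact ⟨Sum.inl ⟨_, c, k, ⟨φ, h⟩⟩, rfl⟩
    | comp _ c k φ h => exact ⟨Sum.inr (Sum.inl ⟨_, c, k, ⟨φ, h⟩⟩), rfl⟩
    | pr => exact ⟨Sum.inr (Sum.inr ()), rfl⟩
  exact this.countable

instance : Countable (Σ n, pL.Functions n) := inferInstanceAs (Countable (Σ n, PF n))

instance : Countable Tr := inferInstanceAs (Countable (pL.Term (ℕ ⊕ CS)))

instance : Inhabited Tr := ⟨.var (.inl 0)⟩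

theorem exists_enum : ∃ T : ℕ → Tr, Function.Surjective T := exists_surjective_nat Tr

/-- An enumeration of all terms. -/
def Ten : ℕ → Tr := exists_enum.choose

theorem Ten_surj : Function.Surjective Ten := exists_enum.choose_spec

theorem ev_dep (t : Tr) : ∃ N, ∀ (Y Y' E E' : ℕ → Finset ℕ) (s : ℕ), (∀ i < N, Y i = Y' i) →
    (∀ i < N, E i = E' i) → ev Y E s t = ev Y' E' s t := by
  induction t with
  | var i =>
    rcases i with i | κ
    · refine ⟨i + 1, fun Y Y' E E' s _ hE => ?_⟩
      simp only [ev]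
      rw [hE i (Nat.lt_succ_self i)]
    · cases κ with
      | sz => exact ⟨0, fun Y Y' E E' s _ _ => rfl⟩
      | node κ =>
        refine ⟨κ + 1, fun Y Y' E E' s hY _ => ?_⟩
        simp only [ev]
        rw [hY κ (Nat.lt_succ_self κ)]
  | @func l F ts ih =>
    choose N hN using ih
    refine ⟨Finset.univ.sup N, fun Y Y' E E' s hY hE => ?_⟩
    simp only [ev]
    congr 1
    funext i
    exact hN i Y Y' E E' s (fun j hj => hY j (hj.trans_le (Finset.le_sup (Finset.mem_univ i))))
      fun j hj => hE j (hj.trans_le (Finset.le_sup (Finset.mem_univ i)))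

/-- Number of variables and nodes of a term. -/
def nv (t : Tr) : ℕ := (ev_dep t).choose

theorem nv_spec (t : Tr) {Y Y' E E' : ℕ → Finset ℕ} {s : ℕ} (hY : ∀ i < nv t, Y i = Y' i)
    (hE : ∀ i < nv t, E i = E' i) : ev Y E s t = ev Y' E' s t :=
  (ev_dep t).choose_spec Y Y' E E' s hY hE

/-- Renaming real variables. -/
def rel (f : ℕ → ℕ) (t : Tr) : Tr := t.relabel (Sum.map f id)

theorem ev_rel (Y E : ℕ → Finset ℕ) (s : ℕ) (f : ℕ → ℕ) (t : Tr) :
    ev Y E s (rel f t) = ev Y (E ∘ f) s t := by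
  unfold rel
  induction t with
  | var i =>
    rcases i with i | κ
    · rfl
    · cases κ <;> rfl
  | @func l F ts ih =>
    simp only [Term.relabel, ev]
    congr 1
    funext i
    exact ih i

/-- Requirements indexed by a finite type. -/
theorem Ach.forall_finite {I : Type} [Finite I] (Q : I → Req) (hQ : ∀ i, (Q i).Nice)
    (h : ∀ i, Ach (Q i)) : Ach fun b C ρ => ∀ i, Q i b C ρ := by
  obtain ⟨n, ⟨e⟩⟩ := Finite.exists_equiv_fin I
  let Q' : ℕ → Req := fun j => if h : j < n then Q (e.symm ⟨j, h⟩) else fun _ _ _ => True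
  have h1 := Ach.forall_fin n Q' (fun i hi => by simp only [Q', hi, dite_true]; exact hQ _)
    (fun i hi => by simp only [Q', hi, dite_true]; exact h _)
  intro b
  obtain ⟨b', hb'⟩ := h1 b
  refine ⟨b', fun C hC ρ hρ => ?_⟩
  obtain ⟨ρ', h2, h3, h4⟩ := hb' C hC ρ hρ
  refine ⟨ρ', h2, h3, fun i => ?_⟩
  have := h4 (e i) (e i).2
  simp only [Q', (e i).2, dite_true, Fin.eta, Equiv.symm_apply_apply] at this
  exact this

end

end Pool.Agent.H23V
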