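import Pool.Agent.H23V.AndLemma

/-!
One step of the construction: conjunctions of juntas become juntas, many positions stay free.
-/

namespace Pool.Agent.H23V

open Set Filter

noncomputable section

/-- `ρ'` extends `ρ`. -/
def Ext {P : Type} (ρ ρ' : P → Option Bool) : Prop := ∀ p b, ρ p = some b → ρ' p = some b

theorem Ext.refl {P : Type} (ρ : P → Option Bool) : Ext ρ ρ := fun _ _ h => h
theorem Ext.trans {P : Type} {ρ ρ' ρ'' : P → Option Bool} (h : Ext ρ ρ') (h' : Ext ρ' ρ'') :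
    Ext ρ ρ'' := fun p b hp => h' p b (h p b hp)

theorem Ext.res_res {P : Type} {ρ ρ' : P → Option Bool} (h : Ext ρ ρ') (x : P → Bool) :
    res ρ (res ρ' x) = res ρ' x := by
  funext p
  unfold res
  cases hp : ρ p with
  | none => simp
  | some b => simp [h p b hp]

theorem res_res_same {P : Type} (ρ : P → Option Bool) (x : P → Bool) :
    res ρ (res ρ x) = res ρ x := (Ext.refl ρ).res_res x

/-- Juntas stay juntas under further restriction. -/
theorem Jun.ext {P : Type} {K : ℕ} {g : (P → Bool) → Prop} {ρ ρ' : P → Option Bool}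
    (h : Jun K fun x => g (res ρ x)) (he : Ext ρ ρ') : Jun K fun x => g (res ρ' x) := by
  have := h.compRes ρ'
  simpa only [he.res_res] using this

/-- composition of partial assignments. -/
def cmp {P : Type} (ρ σ : P → Option Bool) : P → Option Bool := fun p => (ρ p).or (σ p)

theorem ext_cmp {P : Type} (ρ σ : P → Option Bool) : Ext ρ (cmp ρ σ) := by
  intro p b h; simp [cmp, h]

theorem res_cmp {P : Type} (ρ σ : P → Option Bool) (x : P → Bool) :
    res (cmp ρ σ) x = res ρ (res σ x) := by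
  funext p
  unfold res cmp
  cases ρ p <;> simp

open scoped Classical in
/-- the number of free positions. -/
def nfree {P : Type} (ρ : P → Option Bool) (F : Finset P) : ℕ := (F.filter fun p => ρ p = none).card

def Free {ι P : Type} (k s : ℕ) (blk : ι → Finset P) (ρ : P → Option Bool) : Prop :=
  ∀ i, 2 ^ s ≤ nfree ρ (blk i) ^ k

theorem pow_mono_k {s k k' f : ℕ} (hk : k ≤ k') (hs : 1 ≤ s) (h : 2 ^ s ≤ f ^ k) :
    2 ^ s ≤ f ^ k' := by
  rcases Nat.eq_zero_or_pos f with rfl | hf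
  · exfalso
    have h1 : 2 ≤ 2 ^ s := by
      calc 2 = 2 ^ 1 := rfl
        _ ≤ 2 ^ s := Nat.pow_le_pow_right (by norm_num) hs
    rcases Nat.eq_zero_or_pos k with rfl | hk0
    · simp at h; omega
    · rw [Nat.zero_pow hk0] at h; omega
  · exact h.trans (Nat.pow_le_pow_right hf hk)

theorem Free.mono {ι P : Type} {k k' s : ℕ} {blk : ι → Finset P} {ρ : P → Option Bool}
    (hk : k ≤ k') (hs : 1 ≤ s) (h : Free k s blk ρ) : Free k' s blk ρ :=
  fun i => pow_mono_k hk hs (h i)

open scoped Classical in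
/-- Few stars are unlikely. -/
theorem pr_few_stars {P : Type} [Finite P] (R G : ℕ) (g : ℕ) : ∀ F : Finset P, g * G ≤ F.card →
    pr {w : P → Lab R | (F.filter fun p => w p = none).card < g} ≤
      g * (1 - 1 / (2 * R + 1 : ℝ)) ^ G := by
  induction g with
  | zero =>
    intro F _
    simp [pr_empty]
  | succ g ih =>
    intro F hF
    have hG : G ≤ F.card := le_trans (by nlinarith) hF
    obtain ⟨F1, hF1, hF1c⟩ := Finset.exists_subset_card_eq hG
    have h2 : g * G ≤ (F \ F1).card := by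
      rw [Finset.card_sdiff_of_subset hF1, hF1c]
      have : (g + 1) * G = g * G + G := by ring
      omega
    have hsub : {w : P → Lab R | (F.filter fun p => w p = none).card < g + 1} ⊆
        {w | ∀ p ∈ F1, w p ≠ none} ∪ {w | ((F \ F1).filter fun p => w p = none).card < g} := by
      intro w hw
      by_contra hcon
      rw [mem_union, not_or] at hcon
      obtain ⟨h3, h4⟩ := hcon
      simp only [mem_ofPred_eq, not_lt] at hw h3 h4
      push Not at h3
      obtain ⟨p, hp, hpw⟩ := h3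
      have h5 : insert p ((F \ F1).filter fun p => w p = none) ⊆
          F.filter fun p => w p = none := by
        intro q hq
        rcases Finset.mem_insert.1 hq with rfl | hq
        · exact Finset.mem_filter.2 ⟨hF1 hp, hpw⟩
        · rw [Finset.mem_filter, Finset.mem_sdiff] at hq
          exact Finset.mem_filter.2 ⟨hq.1.1, hq.2⟩
      have h6 := Finset.card_le_card h5
      rw [Finset.card_insert_of_notMem (by
        rw [Finset.mem_filter, Finset.mem_sdiff]
        tauto)] at h6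
      omega
    refine (pr_mono hsub).trans ((pr_union_le _ _).trans ?_)
    rw [pr_no_star, hF1c]
    have := ih (F \ F1) h2
    push_cast
    linarith

theorem cube_ineq {g x : ℕ} (hg : 6 ≤ g) (hx : 3 * x ≤ g) : g * ((2 * g + 1) * x) ≤ (g - 1) ^ 4 := by
  obtain ⟨d, rfl⟩ := Nat.exists_eq_add_of_le hg
  have h1 : (6 + d) * ((2 * (6 + d) + 1) * x) ≤ (6 + d) * ((3 * (6 + d)) * x) := by
    gcongr
    omega
  have h2 : (6 + d) * ((3 * (6 + d)) * x) = (6 + d) ^ 2 * (3 * x) := by ring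
  have h3 : (6 + d) ^ 2 * (3 * x) ≤ (6 + d) ^ 2 * (6 + d) := Nat.mul_le_mul_left _ hx
  have h4 : (6 + d) ^ 2 * (6 + d) ≤ (6 + d - 1) ^ 4 := by
    have : 6 + d - 1 = 5 + d := by omega
    rw [this]
    nlinarith [sq_nonneg d, sq_nonneg (d * d), mul_nonneg (Nat.zero_le d) (Nat.zero_le (d * d)),
      Nat.zero_le (d ^ 3)]
  exact (h1.trans (le_of_eq h2)).trans (h3.trans h4)

theorem exists_root (k : ℕ) (s : ℕ) (hk : 1 ≤ k) : ∃ g : ℕ, 2 ^ s ≤ g ^ k ∧ (g - 1) ^ k < 2 ^ s ∧
    g ≤ 2 ^ s ∧ 1 ≤ g := by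
  classical
  have hex : ∃ g : ℕ, 2 ^ s ≤ g ^ k := ⟨2 ^ s, Nat.le_self_pow (by omega) _⟩
  have h1 : 1 ≤ Nat.find hex := by
    rcases Nat.eq_zero_or_pos (Nat.find hex) with h | h
    · have := Nat.find_spec hex
      rw [h, Nat.zero_pow (by omega)] at this
      have : 0 < 2 ^ s := by positivity
      omega
    · exact h
  refine ⟨Nat.find hex, Nat.find_spec hex, ?_, ?_, h1⟩
  · have := Nat.find_min hex (m := Nat.find hex - 1) (by omega)
    omega
  · exact Nat.find_min' hex (Nat.le_self_pow (by omega) _)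

/-- The step lemma. -/
theorem step (K c k : ℕ) : ∃ K' k' s0 : ℕ, ∀ s ≥ s0, ∀ (P : Type) [Finite P] (ι : Type) [Finite ι],
    Nat.card ι ≤ 2 ^ (c * s) → ∀ (blk : ι → Finset P) (ρ : P → Option Bool), Free k s blk ρ →
    ∀ (Θ : Type) [Finite Θ], Nat.card Θ ≤ 2 ^ (c * s) → ∀ (J : Type)
    (g : Θ → J → (P → Bool) → Prop), (∀ θ j, Jun K fun x => g θ j (res ρ x)) →
    ∃ ρ', Ext ρ ρ' ∧ Free k' s blk ρ' ∧ ∀ θ, Jun K' fun x => ∀ j, g θ j (res ρ' x) := by
  classical
  let k1 := 4 * (k + 1)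
  obtain ⟨K', s1, hK'⟩ := and_lemma K (c + 2) k1
  obtain ⟨s2, hs2⟩ := eventually_atTop.1 (eventually_poly_le (6 * (c + 3)) (k1 + 1) 1 le_rfl)
  refine ⟨K', k1, max (max s1 s2) 2, fun s hs P _ ι _ hι blk ρ hρ Θ _ hΘ J g hg => ?_⟩
  have hs1' : s1 ≤ s := (le_max_left _ _).trans ((le_max_left _ _).trans hs)
  have hs2' : s2 ≤ s := (le_max_right _ _).trans ((le_max_left _ _).trans hs)
  have hs3' : 2 ≤ s := (le_max_right _ _).trans hs
  obtain ⟨r, hr1, hr2, hr3, hr4⟩ := exists_root k1 s (by simp only [k1]; omega)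
  -- `r` is large
  have hrbig : 6 * (c + 3) * s ≤ r := by
    by_contra hcon
    push Not at hcon
    have h1 := hs2 s hs2'
    have h2 : r ^ k1 < (6 * (c + 3) * s) ^ k1 := Nat.pow_lt_pow_left hcon (by simp only [k1]; omega)
    have h3 : (6 * (c + 3) * s) ^ k1 ≤ (6 * (c + 3) * s) ^ (k1 + 1) :=
      Nat.pow_le_pow_right (by nlinarith) (Nat.le_succ _)
    rw [one_mul] at h1
    omega
  have hr6 : 6 ≤ r := le_trans (by nlinarith) hrbig
  let x := (c + 3) * s
  have hx : 3 * x ≤ r := le_trans (by simp only [x]; nlinarith) hrbig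
  let G := (2 * r + 1) * x
  have hfree : ∀ i, r * G ≤ nfree ρ (blk i) := by
    intro i
    have h1 := hρ i
    have h2 := pow_mono_k (Nat.le_succ k) (by omega) h1
    have h3 : ((r - 1) ^ 4) ^ (k + 1) < (nfree ρ (blk i)) ^ (k + 1) := by
      rw [← pow_mul]
      exact hr2.trans_le h2
    have h4 : (r - 1) ^ 4 < nfree ρ (blk i) := lt_of_pow_lt_pow_left₀ _ (Nat.zero_le _) h3
    exact (cube_ineq hr6 hx).trans h4.le
  -- bad events
  let E1 : Set (P → Lab r) := ⋃ i : ι, {w | ((((blk i).filter fun p => ρ p = none)).filter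
    fun p => w p = none).card < r}
  let E2 : Set (P → Lab r) := ⋃ θ : Θ, {w | ¬ Jun K' fun x => ∀ j, g θ j (res ρ (res (lab w) x))}
  have hq : (1 - 1 / (2 * r + 1 : ℝ)) ^ G ≤ (1 / 2 : ℝ) ^ ((c + 3) * s) := by
    apply pow_le_exp_half
    · rw [div_le_one (by positivity)]
      have : (0 : ℝ) ≤ r := Nat.cast_nonneg r
      linarith
    · simp only [G, x]
      push_cast
      have : (1 / (2 * (r : ℝ) + 1)) * ((2 * r + 1) * ((c + 3) * s)) = (c + 3) * s := by
        field_simp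
      rw [this]
  have hE1 : pr E1 ≤ (1 / 2 : ℝ) ^ (2 * s) := by
    refine (pr_iUnion_le (Om := P → Lab r) _ (e := r * (1 / 2 : ℝ) ^ ((c + 3) * s)) fun i => ?_).trans ?_
    · refine (pr_few_stars r G r _ (hfree i)).trans ?_
      gcongr
    · have h1 : (Nat.card ι : ℝ) ≤ 2 ^ (c * s) := by exact_mod_cast hι
      have h2 : (r : ℝ) ≤ 2 ^ s := by exact_mod_cast hr3
      calc (Nat.card ι : ℝ) * (r * (1 / 2 : ℝ) ^ ((c + 3) * s))
          ≤ 2 ^ (c * s) * (2 ^ s * (1 / 2 : ℝ) ^ ((c + 3) * s)) := by gcongr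
        _ = (1 / 2 : ℝ) ^ (2 * s) := by
          have : (c + 3) * s = c * s + (s + 2 * s) := by ring
          rw [this, pow_add, pow_add]
          have h3 : (2 : ℝ) ^ (c * s) * (1 / 2) ^ (c * s) = 1 := by rw [← mul_pow]; norm_num
          have h4 : (2 : ℝ) ^ s * (1 / 2) ^ s = 1 := by rw [← mul_pow]; norm_num
          calc (2 : ℝ) ^ (c * s) * (2 ^ s * ((1 / 2) ^ (c * s) * ((1 / 2) ^ s * (1 / 2) ^ (2 * s))))
              = ((2 : ℝ) ^ (c * s) * (1 / 2) ^ (c * s)) * ((2 : ℝ) ^ s * (1 / 2) ^ s) *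
                (1 / 2) ^ (2 * s) := by ring
            _ = (1 / 2) ^ (2 * s) := by rw [h3, h4]; ring
  have hE2 : pr E2 ≤ (1 / 2 : ℝ) ^ (2 * s) := by
    refine (pr_iUnion_le (Om := P → Lab r) _ (e := (1 / 2 : ℝ) ^ ((c + 2) * s)) fun θ => ?_).trans ?_
    · exact hK' s hs1' r (by omega) (hr1.trans (Nat.pow_le_pow_left (by omega) _)) P J
        (fun j x => g θ j (res ρ x)) (hg θ)
    · have h1 : (Nat.card Θ : ℝ) ≤ 2 ^ (c * s) := by exact_mod_cast hΘ
      calc (Nat.card Θ : ℝ) * (1 / 2 : ℝ) ^ ((c + 2) * s)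
          ≤ 2 ^ (c * s) * (1 / 2 : ℝ) ^ ((c + 2) * s) := by gcongr
        _ = (1 / 2 : ℝ) ^ (2 * s) := by
          have : (c + 2) * s = c * s + 2 * s := by ring
          rw [this, pow_add, ← mul_assoc, ← mul_pow]
          norm_num
  have hlt : pr (E1 ∪ E2) < 1 := by
    refine (pr_union_le _ _).trans_lt ?_
    have : (1 / 2 : ℝ) ^ (2 * s) ≤ (1 / 2 : ℝ) ^ 2 :=
      pow_le_pow_of_le_one (by norm_num) (by norm_num) (by omega)
    norm_num at this hE1 hE2 ⊢
    linarith
  obtain ⟨w, hw⟩ := exists_notMem_of_pr_lt hlt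
  rw [mem_union, not_or] at hw
  obtain ⟨hw1, hw2⟩ := hw
  refine ⟨cmp ρ (lab w), ext_cmp _ _, fun i => ?_, fun θ => ?_⟩
  · have h1 : ¬ ((((blk i).filter fun p => ρ p = none)).filter fun p => w p = none).card < r :=
      fun h => hw1 (mem_iUnion.2 ⟨i, h⟩)
    have h2 : nfree (cmp ρ (lab w)) (blk i) =
        ((((blk i).filter fun p => ρ p = none)).filter fun p => w p = none).card := by
      unfold nfree
      congr 1
      ext p
      simp only [Finset.mem_filter, cmp, lab, Option.or_eq_none_iff, Option.map_eq_none_iff]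
      tauto
    rw [h2]
    exact hr1.trans (Nat.pow_le_pow_left (by omega) _)
  · have h1 : Jun K' fun x => ∀ j, g θ j (res ρ (res (lab w) x)) := by
      by_contra h
      exact hw2 (mem_iUnion.2 ⟨θ, h⟩)
    simpa only [res_cmp] using h1

end

end Pool.Agent.H23V
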