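import Pool.Agent.H23V.Lang
import Pool.Agent.H23V.Step

/-!
Truth values of `Σ^B_0` formulas become juntas.
-/

namespace Pool.Agent.H23V

open Set Filter

noncomputable section

/-- The length of a finite set. -/
def sl (X : Finset ℕ) : ℕ := X.sup fun i => i + 1

theorem lt_sl {X : Finset ℕ} {i : ℕ} (h : i ∈ X) : i < sl X := by
  have := Finset.le_sup (f := fun i => i + 1) h
  exact this

theorem sl_le {X : Finset ℕ} {n : ℕ} (h : ∀ i ∈ X, i < n) : sl X ≤ n :=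
  Finset.sup_le fun i hi => h i hi

/-- Truth in the standard structure. -/
abbrev SatN (v : ℕ → ℕ) (w : ℕ → Finset ℕ) (φ : Fm) : Prop := Sat std v w φ

abbrev valN (v : ℕ → ℕ) (w : ℕ → Finset ℕ) (t : NTm) : ℕ := t.val std v w

@[simp] theorem valN_var (v : ℕ → ℕ) (w : ℕ → Finset ℕ) (i : ℕ) : valN v w (.var i) = v i := rfl
@[simp] theorem valN_zero (v : ℕ → ℕ) (w : ℕ → Finset ℕ) : valN v w .zero = 0 := rfl
@[simp] theorem valN_one (v : ℕ → ℕ) (w : ℕ → Finset ℕ) : valN v w .one = 1 := rfl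
@[simp] theorem valN_add (v : ℕ → ℕ) (w : ℕ → Finset ℕ) (t u : NTm) :
    valN v w (.add t u) = valN v w t + valN v w u := rfl
@[simp] theorem valN_mul (v : ℕ → ℕ) (w : ℕ → Finset ℕ) (t u : NTm) :
    valN v w (.mul t u) = valN v w t * valN v w u := rfl
@[simp] theorem valN_len (v : ℕ → ℕ) (w : ℕ → Finset ℕ) (j : ℕ) :
    valN v w (.len j) = sl (w j) := rfl

@[simp] theorem satN_bot (v : ℕ → ℕ) (w : ℕ → Finset ℕ) : SatN v w .bot ↔ False := Iff.rfl
@[simp] theorem satN_eq (v : ℕ → ℕ) (w : ℕ → Finset ℕ) (t u : NTm) :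
    SatN v w (.eq t u) ↔ valN v w t = valN v w u := Iff.rfl
@[simp] theorem satN_le (v : ℕ → ℕ) (w : ℕ → Finset ℕ) (t u : NTm) :
    SatN v w (.le t u) ↔ valN v w t ≤ valN v w u := Iff.rfl
@[simp] theorem satN_mem (v : ℕ → ℕ) (w : ℕ → Finset ℕ) (t : NTm) (j : ℕ) :
    SatN v w (.mem t j) ↔ valN v w t ∈ w j := Iff.rfl
@[simp] theorem satN_imp (v : ℕ → ℕ) (w : ℕ → Finset ℕ) (φ ψ : Fm) :
    SatN v w (.imp φ ψ) ↔ (SatN v w φ → SatN v w ψ) := Iff.rfl
@[simp] theorem satN_allN (v : ℕ → ℕ) (w : ℕ → Finset ℕ) (k : ℕ) (t : NTm) (φ : Fm) :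
    SatN v w (.allN k t φ) ↔ ∀ a : ℕ, a ≤ valN v w t → SatN (Function.update v k a) w φ := Iff.rfl

/-- Only finitely many variables matter. -/
theorem val_dep (t : NTm) : ∃ m, ∀ (M : Two) (v v' : ℕ → M.N1) (w w' : ℕ → M.N2),
    (∀ i < m, v i = v' i) → (∀ i < m, w i = w' i) → t.val M v w = t.val M v' w' := by
  induction t with
  | var i => exact ⟨i + 1, fun M v v' w w' h _ => h i (Nat.lt_succ_self i)⟩
  | zero => exact ⟨0, fun _ _ _ _ _ _ _ => rfl⟩
  | one => exact ⟨0, fun _ _ _ _ _ _ _ => rfl⟩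
  | add t u iht ihu =>
    obtain ⟨m1, h1⟩ := iht
    obtain ⟨m2, h2⟩ := ihu
    refine ⟨max m1 m2, fun M v v' w w' hv hw => ?_⟩
    simp only [NTm.val]
    rw [h1 M v v' w w' (fun i hi => hv i (lt_max_of_lt_left hi)) (fun i hi => hw i (lt_max_of_lt_left hi)),
      h2 M v v' w w' (fun i hi => hv i (lt_max_of_lt_right hi)) (fun i hi => hw i (lt_max_of_lt_right hi))]
  | mul t u iht ihu =>
    obtain ⟨m1, h1⟩ := iht
    obtain ⟨m2, h2⟩ := ihu
    refine ⟨max m1 m2, fun M v v' w w' hv hw => ?_⟩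
    simp only [NTm.val]
    rw [h1 M v v' w w' (fun i hi => hv i (lt_max_of_lt_left hi)) (fun i hi => hw i (lt_max_of_lt_left hi)),
      h2 M v v' w w' (fun i hi => hv i (lt_max_of_lt_right hi)) (fun i hi => hw i (lt_max_of_lt_right hi))]
  | len j =>
    refine ⟨j + 1, fun M v v' w w' _ hw => ?_⟩
    simp only [NTm.val]
    rw [hw j (Nat.lt_succ_self j)]

theorem update_agree {α : Type} {v v' : ℕ → α} {m k : ℕ} (h : ∀ i < m, v i = v' i) (a : α) :
    ∀ i < m, Function.update v k a i = Function.update v' k a i := by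
  intro i hi
  by_cases hk : i = k
  · subst hk; simp
  · simp [hk, h i hi]

theorem sat_dep (φ : Fm) : ∃ m, ∀ (M : Two) (v v' : ℕ → M.N1) (w w' : ℕ → M.N2),
    (∀ i < m, v i = v' i) → (∀ i < m, w i = w' i) → (Sat M v w φ ↔ Sat M v' w' φ) := by
  induction φ with
  | bot => exact ⟨0, fun _ _ _ _ _ _ _ => Iff.rfl⟩
  | eq t u =>
    obtain ⟨m1, h1⟩ := val_dep t
    obtain ⟨m2, h2⟩ := val_dep u
    refine ⟨max m1 m2, fun M v v' w w' hv hw => ?_⟩
    simp only [Sat]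
    rw [h1 M v v' w w' (fun i hi => hv i (lt_max_of_lt_left hi)) (fun i hi => hw i (lt_max_of_lt_left hi)),
      h2 M v v' w w' (fun i hi => hv i (lt_max_of_lt_right hi)) (fun i hi => hw i (lt_max_of_lt_right hi))]
  | le t u =>
    obtain ⟨m1, h1⟩ := val_dep t
    obtain ⟨m2, h2⟩ := val_dep u
    refine ⟨max m1 m2, fun M v v' w w' hv hw => ?_⟩
    simp only [Sat]
    rw [h1 M v v' w w' (fun i hi => hv i (lt_max_of_lt_left hi)) (fun i hi => hw i (lt_max_of_lt_left hi)),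
      h2 M v v' w w' (fun i hi => hv i (lt_max_of_lt_right hi)) (fun i hi => hw i (lt_max_of_lt_right hi))]
  | mem t j =>
    obtain ⟨m1, h1⟩ := val_dep t
    refine ⟨max m1 (j + 1), fun M v v' w w' hv hw => ?_⟩
    simp only [Sat]
    rw [h1 M v v' w w' (fun i hi => hv i (lt_max_of_lt_left hi)) (fun i hi => hw i (lt_max_of_lt_left hi)),
      hw j (lt_max_of_lt_right (Nat.lt_succ_self j))]
  | imp φ ψ ih1 ih2 =>
    obtain ⟨m1, h1⟩ := ih1
    obtain ⟨m2, h2⟩ := ih2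
    refine ⟨max m1 m2, fun M v v' w w' hv hw => ?_⟩
    simp only [Sat]
    rw [h1 M v v' w w' (fun i hi => hv i (lt_max_of_lt_left hi)) (fun i hi => hw i (lt_max_of_lt_left hi)),
      h2 M v v' w w' (fun i hi => hv i (lt_max_of_lt_right hi)) (fun i hi => hw i (lt_max_of_lt_right hi))]
  | allN k t φ ih =>
    obtain ⟨m1, h1⟩ := val_dep t
    obtain ⟨m2, h2⟩ := ih
    refine ⟨max m1 m2, fun M v v' w w' hv hw => ?_⟩
    simp only [Sat]
    rw [h1 M v v' w w' (fun i hi => hv i (lt_max_of_lt_left hi)) (fun i hi => hw i (lt_max_of_lt_left hi))]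
    refine forall_congr' fun a => forall_congr' fun _ => ?_
    exact h2 M _ _ w w' (update_agree (fun i hi => hv i (lt_max_of_lt_right hi)) a)
      (fun i hi => hw i (lt_max_of_lt_right hi))
  | allS k t φ ih =>
    obtain ⟨m1, h1⟩ := val_dep t
    obtain ⟨m2, h2⟩ := ih
    refine ⟨max m1 m2, fun M v v' w w' hv hw => ?_⟩
    simp only [Sat]
    rw [h1 M v v' w w' (fun i hi => hv i (lt_max_of_lt_left hi)) (fun i hi => hw i (lt_max_of_lt_left hi))]
    refine forall_congr' fun a => forall_congr' fun _ => ?_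
    exact h2 M v v' _ _ (fun i hi => hv i (lt_max_of_lt_right hi))
      (update_agree (fun i hi => hw i (lt_max_of_lt_right hi)) a)

/-! ### Contexts and requirements -/

/-- String-valued functions with constant length and local bits. -/
def StrLoc {P : Type} (K s : ℕ) (ρ : P → Option Bool) (F : (P → Bool) → Finset ℕ) : Prop :=
  (∃ l ≤ 2 ^ (K * s), ∀ x, sl (F (res ρ x)) = l) ∧ ∀ i, Jun K fun x => i ∈ F (res ρ x)

theorem StrLoc.mono {P : Type} {K K' s : ℕ} {ρ : P → Option Bool} {F : (P → Bool) → Finset ℕ}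
    (h : StrLoc K s ρ F) (hK : K ≤ K') : StrLoc K' s ρ F := by
  obtain ⟨⟨l, hl, h1⟩, h2⟩ := h
  exact ⟨⟨l, hl.trans (Nat.pow_le_pow_right (by norm_num) (Nat.mul_le_mul_right _ hK)), h1⟩,
    fun i => (h2 i).mono hK⟩

theorem StrLoc.ext {P : Type} {K s : ℕ} {ρ ρ' : P → Option Bool} {F : (P → Bool) → Finset ℕ}
    (h : StrLoc K s ρ F) (he : Ext ρ ρ') : StrLoc K s ρ' F := by
  obtain ⟨⟨l, hl, h1⟩, h2⟩ := h
  refine ⟨⟨l, hl, fun x => ?_⟩, fun i => Jun.ext (g := fun x => i ∈ F x) (h2 i) he⟩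
  rw [← he.res_res, h1]

structure Ctx where
  s : ℕ
  P : Type
  finP : Finite P
  ι : Type
  finι : Finite ι
  blk : ι → Finset P
  Y : ℕ → Finset ℕ
  E : ℕ → (P → Bool) → Finset ℕ

/-- Initial conditions with constant `b`. -/
structure Init (b : ℕ) (C : Ctx) (ρ : C.P → Option Bool) : Prop where
  card : Nat.card C.ι ≤ 2 ^ (b * C.s)
  Yle : ∀ κ, sl (C.Y κ) ≤ 2 ^ (b * C.s)
  loc : ∀ i, StrLoc b C.s ρ (C.E i)
  free : Free b C.s C.blk ρ

theorem Init.mono {b b' : ℕ} {C : Ctx} {ρ : C.P → Option Bool} (h : Init b C ρ) (hb : b ≤ b')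
    (hs : 1 ≤ C.s) : Init b' C ρ :=
  ⟨h.card.trans (Nat.pow_le_pow_right (by norm_num) (Nat.mul_le_mul_right _ hb)),
    fun κ => (h.Yle κ).trans (Nat.pow_le_pow_right (by norm_num) (Nat.mul_le_mul_right _ hb)),
    fun i => (h.loc i).mono hb, h.free.mono hb hs⟩

/-- Requirements. -/
abbrev Req := ℕ → (C : Ctx) → (C.P → Option Bool) → Prop

structure Req.Nice (Q : Req) : Prop where
  mono : ∀ {b b' : ℕ} {C : Ctx} {ρ : C.P → Option Bool}, Q b C ρ → b ≤ b' → Q b' C ρ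
  ext : ∀ {b : ℕ} {C : Ctx} {ρ ρ' : C.P → Option Bool}, Q b C ρ → Ext ρ ρ' → Q b C ρ'

/-- Achievable requirements. -/
def Ach (Q : Req) : Prop := ∀ b, ∃ b', ∀ C : Ctx, b' ≤ C.s → ∀ ρ, Init b C ρ →
  ∃ ρ', Ext ρ ρ' ∧ Init b' C ρ' ∧ Q b' C ρ'

theorem Req.Nice.and {Q Q' : Req} (h : Q.Nice) (h' : Q'.Nice) :
    Req.Nice fun b C ρ => Q b C ρ ∧ Q' b C ρ :=
  ⟨fun hq hb => ⟨h.mono hq.1 hb, h'.mono hq.2 hb⟩, fun hq he => ⟨h.ext hq.1 he, h'.ext hq.2 he⟩⟩

theorem Ach.and {Q Q' : Req} (hQ : Q.Nice) (hQ' : Q'.Nice) (h : Ach Q) (h' : Ach Q') :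
    Ach fun b C ρ => Q b C ρ ∧ Q' b C ρ := by
  intro b
  obtain ⟨b1, hb1⟩ := h b
  obtain ⟨b2, hb2⟩ := h' b1
  refine ⟨max (max b1 b2) 1, fun C hC ρ hρ => ?_⟩
  obtain ⟨ρ1, h1, h2, h3⟩ := hb1 C (by omega) ρ hρ
  obtain ⟨ρ2, h4, h5, h6⟩ := hb2 C (by omega) ρ1 h2
  exact ⟨ρ2, h1.trans h4, h5.mono (by omega) (by omega), hQ.mono (hQ.ext h3 h4) (by omega),
    hQ'.mono h6 (by omega)⟩

theorem Ach.trivial : Ach fun _ _ _ => True := by
  intro b
  refine ⟨b + 1, fun C hC ρ hρ => ⟨ρ, Ext.refl ρ, hρ.mono (by omega) (by omega), ?_⟩⟩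
  exact True.intro

theorem Ach.imp {Q Q' : Req} (h : Ach Q)
    (hi : ∀ b, ∃ b', ∀ (C : Ctx) (ρ : C.P → Option Bool), b' ≤ C.s → Init b C ρ → Q b C ρ →
      Q' b' C ρ) (hn' : Q'.Nice) : Ach Q' := by
  intro b
  obtain ⟨b1, hb1⟩ := h b
  obtain ⟨b2, hb2⟩ := hi b1
  refine ⟨max (max b1 b2) 1, fun C hC ρ hρ => ?_⟩
  obtain ⟨ρ1, h1, h2, h3⟩ := hb1 C (by omega) ρ hρ
  exact ⟨ρ1, h1, h2.mono (by omega) (by omega), hn'.mono (hb2 C ρ1 (by omega) h2 h3) (by omega)⟩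

/-- Finite conjunctions of requirements. -/
theorem Ach.forall_fin (n : ℕ) (Q : ℕ → Req) (hQ : ∀ i < n, (Q i).Nice) (h : ∀ i < n, Ach (Q i)) :
    Ach fun b C ρ => ∀ i < n, Q i b C ρ := by
  induction n with
  | zero =>
    intro b
    obtain ⟨b', hb'⟩ := Ach.trivial b
    refine ⟨b', fun C hC ρ hρ => ?_⟩
    obtain ⟨ρ', h1, h2, -⟩ := hb' C hC ρ hρ
    exact ⟨ρ', h1, h2, fun i hi => absurd hi (Nat.not_lt_zero i)⟩
  | succ n ih =>
    have h1 := ih (fun i hi => hQ i (hi.trans (Nat.lt_succ_self n)))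
      (fun i hi => h i (hi.trans (Nat.lt_succ_self n)))
    have h1n : Req.Nice fun b C ρ => ∀ i < n, Q i b C ρ :=
      ⟨fun hq hb i hi => (hQ i (hi.trans (Nat.lt_succ_self n))).mono (hq i hi) hb,
        fun hq he i hi => (hQ i (hi.trans (Nat.lt_succ_self n))).ext (hq i hi) he⟩
    have h2 := Ach.and h1n (hQ n (Nat.lt_succ_self n)) h1 (h n (Nat.lt_succ_self n))
    intro b
    obtain ⟨b', hb'⟩ := h2 b
    refine ⟨b', fun C hC ρ hρ => ?_⟩
    obtain ⟨ρ', h3, h4, h5, h6⟩ := hb' C hC ρ hρ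
    refine ⟨ρ', h3, h4, fun i hi => ?_⟩
    rcases Nat.lt_succ_iff_lt_or_eq.1 hi with h7 | rfl
    · exact h5 i h7
    · exact h6

/-! ### Formulas -/

theorem Jun.imp {P : Type} {K K' : ℕ} {g g' : (P → Bool) → Prop} (h : Jun K g) (h' : Jun K' g') :
    Jun (K + K') fun x => g x → g' x := by
  classical
  obtain ⟨S, h1, h2⟩ := h
  obtain ⟨S', h3, h4⟩ := h'
  refine ⟨S ∪ S', (Finset.card_union_le _ _).trans (Nat.add_le_add h1 h3), fun x y hxy => ?_⟩
  have e1 := h2 x y fun p hp => hxy p (Finset.mem_union_left _ hp)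
  have e2 := h4 x y fun p hp => hxy p (Finset.mem_union_right _ hp)
  beta_reduce
  rw [e1, e2]

/-- bounds for terms. -/
theorem val_bound (t : NTm) (c : ℕ) : ∃ c', ∀ s, 1 ≤ s → ∀ (v : ℕ → ℕ) (w : ℕ → Finset ℕ),
    (∀ i, v i ≤ 2 ^ (c * s)) → (∀ j, sl (w j) ≤ 2 ^ (c * s)) → valN v w t ≤ 2 ^ (c' * s) := by
  induction t with
  | var i => exact ⟨c, fun s _ v w hv _ => hv i⟩
  | zero => exact ⟨0, fun s _ v w _ _ => by simp⟩
  | one => exact ⟨0, fun s _ v w _ _ => by simp⟩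
  | add t u iht ihu =>
    obtain ⟨c1, h1⟩ := iht
    obtain ⟨c2, h2⟩ := ihu
    refine ⟨max c1 c2 + 1, fun s hs v w hv hw => ?_⟩
    have e1 : valN v w t ≤ 2 ^ (max c1 c2 * s) := (h1 s hs v w hv hw).trans
      (Nat.pow_le_pow_right (by norm_num) (Nat.mul_le_mul_right _ (le_max_left _ _)))
    have e2 : valN v w u ≤ 2 ^ (max c1 c2 * s) := (h2 s hs v w hv hw).trans
      (Nat.pow_le_pow_right (by norm_num) (Nat.mul_le_mul_right _ (le_max_right _ _)))
    rw [valN_add]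
    calc valN v w t + valN v w u ≤ 2 ^ (max c1 c2 * s) * 2 := by omega
      _ ≤ 2 ^ (max c1 c2 * s) * 2 ^ s := Nat.mul_le_mul_left _ (by
          calc 2 = 2 ^ 1 := rfl
            _ ≤ 2 ^ s := Nat.pow_le_pow_right (by norm_num) hs)
      _ = 2 ^ ((max c1 c2 + 1) * s) := by rw [← pow_add]; congr 1; ring
  | mul t u iht ihu =>
    obtain ⟨c1, h1⟩ := iht
    obtain ⟨c2, h2⟩ := ihu
    refine ⟨c1 + c2, fun s hs v w hv hw => ?_⟩
    rw [valN_mul, add_mul, pow_add]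
    exact Nat.mul_le_mul (h1 s hs v w hv hw) (h2 s hs v w hv hw)
  | len j => exact ⟨c, fun s _ v w _ hw => hw j⟩

/-- The value of a term depends on lengths only. -/
theorem val_len (t : NTm) (v : ℕ → ℕ) (w w' : ℕ → Finset ℕ) (h : ∀ j, sl (w j) = sl (w' j)) :
    valN v w t = valN v w' t := by
  induction t with
  | var i => rfl
  | zero => rfl
  | one => rfl
  | add t u iht ihu => rw [valN_add, valN_add, iht, ihu]
  | mul t u iht ihu => rw [valN_mul, valN_mul, iht, ihu]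
  | len j => exact h j

/-- The requirement of a formula. -/
def QF (φ : Fm) (c : ℕ) : Req := fun b C ρ => ∀ v : ℕ → ℕ, (∀ i, v i ≤ 2 ^ (c * C.s)) →
  Jun b fun x => SatN v (fun j => C.E j (res ρ x)) φ

theorem QF.nice (φ : Fm) (c : ℕ) : (QF φ c).Nice :=
  ⟨fun h hb v hv => (h v hv).mono hb, fun {_ C _ _} h he v hv =>
    Jun.ext (g := fun x => SatN v (fun j => C.E j x) φ) (h v hv) he⟩

theorem Init.sl_eq {b : ℕ} {C : Ctx} {ρ : C.P → Option Bool} (h : Init b C ρ) (j : ℕ)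
    (x y : C.P → Bool) : sl (C.E j (res ρ x)) = sl (C.E j (res ρ y)) := by
  obtain ⟨⟨l, -, hl⟩, -⟩ := h.loc j
  rw [hl, hl]

theorem Init.sl_le {b : ℕ} {C : Ctx} {ρ : C.P → Option Bool} (h : Init b C ρ) (j : ℕ)
    (x : C.P → Bool) : sl (C.E j (res ρ x)) ≤ 2 ^ (b * C.s) := by
  obtain ⟨⟨l, hl1, hl⟩, -⟩ := h.loc j
  rw [hl]; exact hl1

theorem Init.val_eq {b : ℕ} {C : Ctx} {ρ : C.P → Option Bool} (h : Init b C ρ) (v : ℕ → ℕ)
    (t : NTm) (x y : C.P → Bool) : valN v (fun j => C.E j (res ρ x)) t =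
      valN v (fun j => C.E j (res ρ y)) t :=
  val_len t v _ _ fun j => h.sl_eq j x y

theorem Ach.of_init {Q : Req} (h : ∀ b, ∃ b', ∀ (C : Ctx) (ρ : C.P → Option Bool), b' ≤ C.s →
    Init b C ρ → Q b' C ρ) (hn : Q.Nice) : Ach Q :=
  Ach.imp Ach.trivial (fun b => by
    obtain ⟨b', hb'⟩ := h b
    exact ⟨b', fun C ρ hC hρ _ => hb' C ρ hC hρ⟩) hn

theorem ach_formula {φ : Fm} (hφ : IsSB0 φ) : ∀ c, Ach (QF φ c) := by
  induction hφ with
  | bot =>
    intro c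
    exact Ach.of_init (fun b => ⟨0, fun C ρ _ _ v _ => Jun.const 0 False⟩) (QF.nice _ _)
  | eq t u =>
    intro c
    refine Ach.of_init (fun b => ⟨0, fun C ρ _ hρ v _ => ?_⟩) (QF.nice _ _)
    refine ⟨∅, by simp, fun x y _ => ?_⟩
    beta_reduce
    rw [satN_eq, satN_eq, hρ.val_eq v t x y, hρ.val_eq v u x y]
  | le t u =>
    intro c
    refine Ach.of_init (fun b => ⟨0, fun C ρ _ hρ v _ => ?_⟩) (QF.nice _ _)
    refine ⟨∅, by simp, fun x y _ => ?_⟩
    beta_reduce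
    rw [satN_le, satN_le, hρ.val_eq v t x y, hρ.val_eq v u x y]
  | mem t j =>
    intro c
    refine Ach.of_init (fun b => ⟨b, fun C ρ _ hρ v _ => ?_⟩) (QF.nice _ _)
    obtain ⟨S, h1, h2⟩ := (hρ.loc j).2 (valN v (fun j => C.E j (res ρ fun _ => false)) t)
    refine ⟨S, h1, fun x y hxy => ?_⟩
    beta_reduce
    rw [satN_mem, satN_mem, hρ.val_eq v t x (fun _ => false), hρ.val_eq v t y (fun _ => false)]
    exact h2 x y hxy
  | imp _ _ ih1 ih2 =>
    intro c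
    refine Ach.imp (Ach.and (QF.nice _ c) (QF.nice _ c) (ih1 c) (ih2 c)) (fun b => ⟨b + b,
      fun C ρ _ _ hq v hv => ?_⟩) (QF.nice _ _)
    exact (hq.1 v hv).imp (hq.2 v hv)
  | @allN k t φ _ ih =>
    intro c b
    obtain ⟨c', hc'⟩ := val_bound t (max b c)
    obtain ⟨b1, hb1⟩ := ih (max c c') b
    obtain ⟨m, hm⟩ := sat_dep (.allN k t φ)
    obtain ⟨K', k', s0, hstep⟩ := step b1 (b1 + (c + 1) * m) b1
    refine ⟨max (max (max b1 K') (max k' s0)) 1, fun C hC ρ hρ => ?_⟩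
    obtain ⟨ρ1, he1, hi1, hq1⟩ := hb1 C (by omega) ρ hρ
    have hs1 : 1 ≤ C.s := by omega
    let vθ : (Fin m → Fin (2 ^ (c * C.s) + 1)) → ℕ → ℕ := fun θ i =>
      if h : i < m then (θ ⟨i, h⟩ : ℕ) else 0
    have hvθ : ∀ θ i, vθ θ i ≤ 2 ^ (c * C.s) := by
      intro θ i
      simp only [vθ]
      split_ifs with h
      · exact Nat.lt_succ_iff.1 (θ ⟨i, h⟩).2
      · exact Nat.zero_le _
    have hpow : ∀ {a a' : ℕ}, a ≤ a' → 2 ^ (a * C.s) ≤ 2 ^ (a' * C.s) := fun h =>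
      Nat.pow_le_pow_right (by norm_num) (Nat.mul_le_mul_right _ h)
    have hg : ∀ (θ : Fin m → Fin (2 ^ (c * C.s) + 1)) (a : ℕ), Jun b1 fun x =>
        (a ≤ valN (vθ θ) (fun j => C.E j (res ρ1 x)) t →
          SatN (Function.update (vθ θ) k a) (fun j => C.E j (res ρ1 x)) φ) := by
      intro θ a
      by_cases ha : a ≤ valN (vθ θ) (fun j => C.E j (res ρ1 fun _ => false)) t
      · have hv' : ∀ i, Function.update (vθ θ) k a i ≤ 2 ^ (max c c' * C.s) := by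
          intro i
          by_cases hi : i = k
          · subst hi
            rw [Function.update_self]
            refine (ha.trans (hc' C.s hs1 _ _ (fun i => (hvθ θ i).trans (hpow (le_max_right _ _)))
              fun j => ?_)).trans (hpow (le_max_right _ _))
            rw [← he1.res_res]
            exact (hρ.sl_le j _).trans (hpow (le_max_left _ _))
          · rw [Function.update_of_ne hi]
            exact (hvθ θ i).trans (hpow (le_max_left _ _))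
        obtain ⟨S, h1, h2⟩ := hq1 _ hv'
        refine ⟨S, h1, fun x y hxy => ?_⟩
        beta_reduce
        rw [hi1.val_eq (vθ θ) t x (fun _ => false), hi1.val_eq (vθ θ) t y (fun _ => false)]
        exact forall_congr' fun _ => h2 x y hxy
      · refine ⟨∅, by simp, fun x y _ => ?_⟩
        beta_reduce
        rw [hi1.val_eq (vθ θ) t x (fun _ => false), hi1.val_eq (vθ θ) t y (fun _ => false)]
        simp [ha]
    have := C.finP
    have := C.finι
    obtain ⟨ρ2, he2, hf2, hj2⟩ := hstep C.s (by omega) C.P C.ι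
      (hi1.card.trans (hpow (Nat.le_add_right _ _))) C.blk ρ1 hi1.free
      (Fin m → Fin (2 ^ (c * C.s) + 1)) (by
        rw [Nat.card_eq_fintype_card, Fintype.card_fun, Fintype.card_fin, Fintype.card_fin]
        calc (2 ^ (c * C.s) + 1) ^ m ≤ (2 ^ ((c + 1) * C.s)) ^ m := by
              apply Nat.pow_le_pow_left
              rw [add_mul, one_mul, pow_add]
              have h1 : 1 ≤ 2 ^ (c * C.s) := Nat.one_le_two_pow
              have h2 : 2 ≤ 2 ^ C.s := by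
                calc 2 = 2 ^ 1 := rfl
                  _ ≤ 2 ^ C.s := Nat.pow_le_pow_right (by norm_num) hs1
              nlinarith
          _ = 2 ^ ((c + 1) * m * C.s) := by rw [← pow_mul]; congr 1; ring
          _ ≤ 2 ^ ((b1 + (c + 1) * m) * C.s) := hpow (Nat.le_add_left _ _))
      ℕ (fun θ a x => (a ≤ valN (vθ θ) (fun j => C.E j x) t →
          SatN (Function.update (vθ θ) k a) (fun j => C.E j x) φ)) hg
    refine ⟨ρ2, he1.trans he2, ⟨hi1.card.trans (hpow (by omega)),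
      fun κ => (hi1.Yle κ).trans (hpow (by omega)),
      fun i => ((hi1.loc i).ext he2).mono (by omega), hf2.mono (by omega) hs1⟩, fun v hv => ?_⟩
    let θ : Fin m → Fin (2 ^ (c * C.s) + 1) := fun i => ⟨v i, Nat.lt_succ_of_le (hv i)⟩
    have h3 := (hj2 θ).mono (show K' ≤ max (max (max b1 K') (max k' s0)) 1 by omega)
    have h4 : ∀ w : ℕ → Finset ℕ, SatN v w (.allN k t φ) ↔ SatN (vθ θ) w (.allN k t φ) := by
      intro w
      refine hm std v (vθ θ) w w (fun i hi => ?_) fun _ _ => rfl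
      exact (dif_pos hi : vθ θ i = v i).symm
    obtain ⟨S, h5, h6⟩ := h3
    refine ⟨S, h5, fun x y hxy => ?_⟩
    beta_reduce
    rw [h4, h4]
    exact h6 x y hxy

end

end Pool.Agent.H23V
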