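import Pool.Agent.H23V.Rand

/-!
Juntas and random restrictions.
-/

namespace Pool.Agent.H23V

open Set

noncomputable section

/-- Labels: `none` is a star, `some (i, b)` fixes the bit `b`. -/
abbrev Lab (R : ℕ) := Option (Fin R × Bool)

theorem card_lab (R : ℕ) : Nat.card (Lab R) = 2 * R + 1 := by
  rw [Nat.card_eq_fintype_card]
  simp [mul_comm]

/-- Partial assignments act on assignments. -/
def res {P : Type} (ρ : P → Option Bool) (x : P → Bool) : P → Bool := fun p => (ρ p).getD (x p)

/-- The partial assignment given by labels. -/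
def lab {P : Type} {R : ℕ} (w : P → Lab R) : P → Option Bool := fun p => (w p).map Prod.snd

/-- `K`-juntas. -/
def Jun {P : Type} (K : ℕ) (g : (P → Bool) → Prop) : Prop :=
  ∃ S : Finset P, S.card ≤ K ∧ ∀ x y : P → Bool, (∀ p ∈ S, x p = y p) → (g x ↔ g y)

theorem Jun.mono {P : Type} {K K' : ℕ} (h : K ≤ K') {g : (P → Bool) → Prop} (hg : Jun K g) :
    Jun K' g := by
  obtain ⟨S, h1, h2⟩ := hg
  exact ⟨S, h1.trans h, h2⟩

theorem Jun.compRes {P : Type} {K : ℕ} {g : (P → Bool) → Prop} (hg : Jun K g)
    (ρ : P → Option Bool) : Jun K fun x => g (res ρ x) := by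
  obtain ⟨S, h1, h2⟩ := hg
  refine ⟨S, h1, fun x y h => h2 _ _ fun p hp => ?_⟩
  unfold res
  rw [h p hp]

theorem Jun.const {P : Type} (K : ℕ) (q : Prop) : Jun K fun _ : P → Bool => q :=
  ⟨∅, by simp, fun _ _ _ => Iff.rfl⟩

theorem pr_stars {P : Type} [Finite P] (R : ℕ) (T : Finset P) :
    pr {w : P → Lab R | ∀ p ∈ T, w p = none} = (1 / (2 * R + 1 : ℝ)) ^ T.card := by
  classical
  cases nonempty_fintype P
  have h1 : {w : P → Lab R | ∀ p ∈ T, w p = none} =
      {w : P → Lab R | ∀ p, w p ∈ (if p ∈ T then {none} else univ : Set (Lab R))} := by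
    ext w
    simp only [mem_ofPred_eq]
    refine forall_congr' fun p => ?_
    by_cases hp : p ∈ T <;> simp [hp]
  rw [h1, pr_box]
  have h2 : ∀ p, (((if p ∈ T then {none} else univ : Set (Lab R)).ncard : ℝ) /
      Nat.card (Lab R)) = if p ∈ T then (1 / (2 * R + 1 : ℝ)) else 1 := by
    intro p
    rw [card_lab]
    split_ifs with hp
    · simp
    · rw [Set.ncard_univ, card_lab, div_self]
      positivity
  simp only [h2]
  rw [Finset.prod_ite_mem, Finset.univ_inter, Finset.prod_const]

theorem pr_fixed {P : Type} [Finite P] {R : ℕ} (hR : 1 ≤ R) (S : Finset P) (b : P → Bool) :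
    (1 / 3 : ℝ) ^ S.card ≤ pr {w : P → Lab R | ∀ p ∈ S, lab w p = some (b p)} := by
  classical
  cases nonempty_fintype P
  have h1 : {w : P → Lab R | ∀ p ∈ S, lab w p = some (b p)} =
      {w : P → Lab R | ∀ p, w p ∈ (if p ∈ S then {l | l.map Prod.snd = some (b p)}
        else univ : Set (Lab R))} := by
    ext w
    simp only [mem_ofPred_eq]
    refine forall_congr' fun p => ?_
    by_cases hp : p ∈ S <;> simp [hp, lab]
  rw [h1, pr_box]
  have h3 : ∀ c : Bool, ({l : Lab R | l.map Prod.snd = some c}).ncard = R := by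
    intro c
    have : {l : Lab R | l.map Prod.snd = some c} = range fun i : Fin R => some (i, c) := by
      ext l
      rcases l with _ | ⟨i, d⟩
      · simp
      · simp only [Option.map_some, mem_ofPred_eq, Option.some.injEq, mem_range, Prod.mk.injEq]
        constructor
        · rintro rfl; exact ⟨i, rfl, rfl⟩
        · rintro ⟨j, -, h⟩; exact h.symm
    rw [this]
    have h4 := Set.ncard_image_of_injective (univ : Set (Fin R))
      (f := fun i : Fin R => (some (i, c) : Lab R)) (by
        intro i j hij
        simpa using hij)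
    rw [image_univ, Set.ncard_univ, Nat.card_fin] at h4
    exact h4
  have h2 : ∀ p, (if p ∈ S then (1 / 3 : ℝ) else 1) ≤ (((if p ∈ S then
      {l | l.map Prod.snd = some (b p)} else univ : Set (Lab R)).ncard : ℝ) /
      Nat.card (Lab R)) := by
    intro p
    rw [card_lab]
    split_ifs with hp
    · rw [h3, div_le_div_iff₀ (by norm_num) (by positivity)]
      have : (1 : ℝ) ≤ R := by exact_mod_cast hR
      push_cast
      linarith
    · rw [Set.ncard_univ, card_lab, div_self]
      positivity
  refine le_trans ?_ (Finset.prod_le_prod (fun p _ => ?_) fun p _ => h2 p)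
  · rw [Finset.prod_ite_mem, Finset.univ_inter, Finset.prod_const]
  · split_ifs <;> norm_num

theorem pr_no_star {P : Type} [Finite P] (R : ℕ) (G : Finset P) :
    pr {w : P → Lab R | ∀ p ∈ G, w p ≠ none} = (1 - 1 / (2 * R + 1 : ℝ)) ^ G.card := by
  classical
  cases nonempty_fintype P
  have h1 : {w : P → Lab R | ∀ p ∈ G, w p ≠ none} =
      {w : P → Lab R | ∀ p, w p ∈ (if p ∈ G then {none}ᶜ else univ : Set (Lab R))} := by
    ext w
    simp only [mem_ofPred_eq]
    refine forall_congr' fun p => ?_
    by_cases hp : p ∈ G <;> simp [hp]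
  rw [h1, pr_box]
  have h2 : ∀ p, (((if p ∈ G then {none}ᶜ else univ : Set (Lab R)).ncard : ℝ) /
      Nat.card (Lab R)) = if p ∈ G then (1 - 1 / (2 * R + 1 : ℝ)) else 1 := by
    intro p
    split_ifs with hp
    · have h5 := Set.ncard_add_ncard_compl ({none} : Set (Lab R))
      rw [Set.ncard_singleton, card_lab] at h5
      have h6 : (({none}ᶜ : Set (Lab R)).ncard : ℝ) = 2 * R := by
        have : ({none}ᶜ : Set (Lab R)).ncard = 2 * R := by omega
        rw [this]; push_cast; ring
      rw [h6, card_lab]
      push_cast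
      field_simp
      ring
    · rw [Set.ncard_univ, card_lab, div_self]
      positivity
  simp only [h2]
  rw [Finset.prod_ite_mem, Finset.univ_inter, Finset.prod_const]

theorem dep_fixed {P : Type} {R : ℕ} (S : Finset P) (b : P → Bool) :
    Dep (S : Set P) {w : P → Lab R | ∀ p ∈ S, lab w p = some (b p)} := by
  intro x y h
  simp only [mem_ofPred_eq]
  refine forall_congr' fun p => forall_congr' fun hp => ?_
  unfold lab
  rw [h p hp]

theorem pr_compl {Om : Type} [Finite Om] [Nonempty Om] (A : Set Om) : pr Aᶜ = 1 - pr A := by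
  unfold pr
  have h := Set.ncard_add_ncard_compl A
  have h0 : (Nat.card Om : ℝ) ≠ 0 := by exact_mod_cast Nat.card_pos.ne'
  have h1 : (A.ncard : ℝ) + Aᶜ.ncard = Nat.card Om := by exact_mod_cast h
  field_simp
  linarith

/-- Many disjoint supports. -/
theorem pr_none_fixed {P : Type} [Finite P] {R : ℕ} (hR : 1 ≤ R) {J : Type} (S : J → Finset P)
    (b : J → P → Bool) (K : ℕ) (D : Finset J) (hS : ∀ j ∈ D, (S j).card ≤ K)
    (hD : ∀ i ∈ D, ∀ j ∈ D, i ≠ j → Disjoint (S i) (S j)) :
    pr {w : P → Lab R | ∀ j ∈ D, ¬ ∀ p ∈ S j, lab w p = some (b j p)} ≤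
      (1 - (1 / 3 : ℝ) ^ K) ^ D.card := by
  classical
  induction D using Finset.induction_on with
  | empty =>
    simp only [Finset.notMem_empty, IsEmpty.forall_iff, implies_true, Finset.card_empty, pow_zero]
    unfold pr
    rw [show {w : P → Lab R | True} = univ from rfl, Set.ncard_univ]
    exact div_self_le_one _
  | insert a D ha ih =>
    have e : {w : P → Lab R | ∀ j ∈ insert a D, ¬ ∀ p ∈ S j, lab w p = some (b j p)} =
        {w : P → Lab R | ∀ p ∈ S a, lab w p = some (b a p)}ᶜ ∩
        {w : P → Lab R | ∀ j ∈ D, ¬ ∀ p ∈ S j, lab w p = some (b j p)} := by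
      ext w
      simp only [Finset.forall_mem_insert, mem_ofPred_eq, mem_inter_iff, mem_compl_iff]
    rw [e, pr_indep (S := (S a : Set P)), Finset.card_insert_of_notMem ha, pow_succ, mul_comm]
    · refine mul_le_mul ?_ ?_ (pr_nonneg _) ?_
      · exact ih (fun j hj => hS j (Finset.mem_insert_of_mem hj)) fun i hi j hj hij =>
          hD i (Finset.mem_insert_of_mem hi) j (Finset.mem_insert_of_mem hj) hij
      · rw [pr_compl]
        have h1 := pr_fixed hR (S a) (b a)
        have h2 : (1 / 3 : ℝ) ^ K ≤ (1 / 3 : ℝ) ^ (S a).card :=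
          pow_le_pow_of_le_one (by norm_num) (by norm_num) (hS a (Finset.mem_insert_self a D))
        linarith
      · apply pow_nonneg
        have : (1 / 3 : ℝ) ^ K ≤ 1 := pow_le_one₀ (by norm_num) (by norm_num)
        linarith
    · intro x y h
      exact not_congr (dep_fixed (S a) (b a) x y h)
    · intro x y h
      simp only [mem_ofPred_eq]
      refine forall_congr' fun j => forall_congr' fun hj => not_congr ?_
      refine forall_congr' fun p => forall_congr' fun hp => ?_
      have hp' : p ∈ ((S a : Set P))ᶜ := by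
        intro hpa
        have hne : a ≠ j := by rintro rfl; exact ha hj
        exact Finset.disjoint_left.1 (hD a (Finset.mem_insert_self a D) j
          (Finset.mem_insert_of_mem hj) hne) hpa hp
      unfold lab
      rw [h p hp']

end

end Pool.Agent.H23V
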