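import Pool.Agent.H23V.Tree3

/-!
The two-sorted model.
-/

namespace Pool.Agent.H23V

open Set Filter FirstOrder FirstOrder.Language Pool.Agent.H23

noncomputable section

/-- The ultrafilter. -/
abbrev HF : Filter ℕ := ((hyperfilter ℕ : Ultrafilter ℕ) : Filter ℕ)

/-! ### Uniform definability of terms -/

theorem IsSB0.not {φ : Fm} (h : IsSB0 φ) : IsSB0 (.imp φ .bot) := .imp h .bot

theorem exists_wit {φ : Fm} (hφ : IsSB0 φ) (k c : ℕ) (T : ℕ → Tr) : ∃ W : Tr, ∀ Y E s,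
    (ev Y E s W).1 = leastN (2 ^ (c * s)) fun i =>
      SatN (Function.update (fun j => (ev Y E s (T j)).1) k i) (fun j => (ev Y E s (T j)).2) φ := by
  obtain ⟨m, hm⟩ := sat_dep φ
  refine ⟨Term.func (L := pL) (PF.wit m c k φ hφ) fun i => T i, fun Y E s => ?_⟩
  simp only [ev, pf]
  congr 1
  funext i
  refine propext (hm std _ _ _ _ (update_agree (fun j hj => ?_) i) fun j hj => ?_)
  · exact dif_pos hj
  · exact dif_pos hj

theorem exists_comp {φ : Fm} (hφ : IsSB0 φ) (k c : ℕ) (T : ℕ → Tr) : ∃ W : Tr, ∀ Y E s i,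
    (i ∈ (ev Y E s W).2 ↔ i < 2 ^ (c * s) ∧
      SatN (Function.update (fun j => (ev Y E s (T j)).1) k i)
        (fun j => (ev Y E s (T j)).2) φ) := by
  classical
  obtain ⟨m, hm⟩ := sat_dep φ
  refine ⟨Term.func (L := pL) (PF.comp m c k φ hφ) fun i => T i, fun Y E s i => ?_⟩
  simp only [ev, pf]
  rw [Finset.mem_filter, Finset.mem_range]
  refine and_congr Iff.rfl (hm std _ _ _ _ (update_agree (fun j hj => ?_) i) fun j hj => ?_)
  · exact dif_pos hj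
  · exact dif_pos hj

/-- Pairing of terms. -/
def prT (t u : Tr) : Tr := Term.func (L := pL) PF.pr (fun i : Fin 2 => if i = 0 then t else u)

@[simp] theorem ev_prT_fst (Y E : ℕ → Finset ℕ) (s : ℕ) (t u : Tr) :
    (ev Y E s (prT t u)).1 = (ev Y E s t).1 := rfl
@[simp] theorem ev_prT_snd (Y E : ℕ → Finset ℕ) (s : ℕ) (t u : Tr) :
    (ev Y E s (prT t u)).2 = (ev Y E s u).2 := rfl

theorem ev_bound (t : Tr) : ∃ c, ∀ s, 1 ≤ s → ∀ Y E : ℕ → Finset ℕ, (∀ κ, sl (Y κ) ≤ 2 ^ s) →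
    (∀ i, sl (E i) ≤ 2 ^ (3 * s)) → (ev Y E s t).1 ≤ 2 ^ (c * s) ∧ sl (ev Y E s t).2 ≤ 2 ^ (c * s) := by
  induction t with
  | var i =>
    rcases i with i | κ
    · exact ⟨3, fun s _ Y E _ hE => ⟨Nat.zero_le _, hE i⟩⟩
    · cases κ with
      | sz =>
        refine ⟨1, fun s _ Y E _ _ => ⟨by simp [ev], ?_⟩⟩
        simp [ev, sl]
      | node κ =>
        refine ⟨1, fun s _ Y E hY _ => ⟨Nat.zero_le _, ?_⟩⟩
        rw [one_mul]
        exact hY κ
  | @func l F ts ih =>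
    cases F with
    | wit _ c k φ hφ =>
      refine ⟨c, fun s _ Y E _ _ => ⟨leastN_le _ _, ?_⟩⟩
      simp [ev, pf, sl]
    | comp _ c k φ hφ =>
      classical
      refine ⟨c, fun s _ Y E _ _ => ⟨Nat.zero_le _, sl_le fun i hi => ?_⟩⟩
      simp only [ev, pf] at hi
      rw [Finset.mem_filter, Finset.mem_range] at hi
      exact hi.1
    | pr =>
      obtain ⟨c0, h0⟩ := ih 0
      obtain ⟨c1, h1⟩ := ih 1
      refine ⟨max c0 c1, fun s hs Y E hY hE => ?_⟩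
      have hp : ∀ {a b : ℕ}, a ≤ b → 2 ^ (a * s) ≤ 2 ^ (b * s) := fun h =>
        Nat.pow_le_pow_right (by norm_num) (Nat.mul_le_mul_right _ h)
      exact ⟨(h0 s hs Y E hY hE).1.trans (hp (le_max_left _ _)),
        (h1 s hs Y E hY hE).2.trans (hp (le_max_right _ _))⟩

variable (D : Data)

theorem Data.ev_rel (f : ℕ → ℕ) (t : Tr) (A : ℕ → Cantor) (s : ℕ) :
    D.ev (rel f t) A s = D.ev t (A ∘ f) s := by
  unfold Data.ev
  rw [H23V.ev_rel]
  rfl

theorem sl_str_le {s : ℕ} (hs : 1 ≤ s) (b : ℕ → Bool) : sl (str s b) ≤ 2 ^ (3 * s) := by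
  rw [sl_str]
  have h1 : 2 ^ (3 * s) = 2 ^ (2 * s) * 2 ^ s := by rw [← pow_add]; congr 1; ring
  have h2 : 2 ≤ 2 ^ s := by
    calc 2 = 2 ^ 1 := rfl
      _ ≤ 2 ^ s := Nat.pow_le_pow_right (by norm_num) hs
  have h3 : 1 ≤ 2 ^ (2 * s) := Nat.one_le_two_pow
  rw [h1]; nlinarith

theorem Data.bound (t : Tr) : ∃ c, ∀ s, 1 ≤ s → ∀ A : ℕ → Cantor,
    (D.ev t A s).1 ≤ 2 ^ (c * s) ∧ sl (D.ev t A s).2 ≤ 2 ^ (c * s) := by
  obtain ⟨c, hc⟩ := ev_bound t
  exact ⟨c, fun s hs A => hc s hs _ _ (fun κ => sl_Yv _ _ _) fun i => sl_str_le hs _⟩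

/-- The environments given by terms and reals. -/
def Data.nE (T : ℕ → Tr) (A : ℕ → Cantor) (s : ℕ) : ℕ → ℕ := fun i => (D.ev (T i) A s).1
def Data.sE (T : ℕ → Tr) (A : ℕ → Cantor) (s : ℕ) : ℕ → Finset ℕ := fun i => (D.ev (T i) A s).2

theorem Data.exists_wit {φ : Fm} (hφ : IsSB0 φ) (k c : ℕ) (T : ℕ → Tr) : ∃ W : Tr, ∀ A s,
    (D.ev W A s).1 = leastN (2 ^ (c * s)) fun i =>
      SatN (Function.update (D.nE T A s) k i) (D.sE T A s) φ := by
  obtain ⟨W, hW⟩ := H23V.exists_wit hφ k c T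
  exact ⟨W, fun A s => hW _ _ _⟩

theorem Data.exists_comp {φ : Fm} (hφ : IsSB0 φ) (k c : ℕ) (T : ℕ → Tr) : ∃ W : Tr, ∀ A s i,
    (i ∈ (D.ev W A s).2 ↔ i < 2 ^ (c * s) ∧
      SatN (Function.update (D.nE T A s) k i) (D.sE T A s) φ) := by
  obtain ⟨W, hW⟩ := H23V.exists_comp hφ k c T
  exact ⟨W, fun A s i => hW _ _ _ _⟩

theorem env_bound (T : ℕ → Tr) (m : ℕ) : ∃ c, ∀ s, 1 ≤ s → ∀ A : ℕ → Cantor, ∀ i < m,
    D.nE T A s i ≤ 2 ^ (c * s) ∧ sl (D.sE T A s i) ≤ 2 ^ (c * s) := by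
  choose c hc using fun i => D.bound (T i)
  refine ⟨(Finset.range m).sup c, fun s hs A i hi => ?_⟩
  have hp : 2 ^ (c i * s) ≤ 2 ^ ((Finset.range m).sup c * s) :=
    Nat.pow_le_pow_right (by norm_num) (Nat.mul_le_mul_right _
      (Finset.le_sup (f := c) (Finset.mem_range.2 hi)))
  exact ⟨(hc i s hs A).1.trans hp, (hc i s hs A).2.trans hp⟩

/-- Values of number terms are bounded. -/
theorem Data.val_bound (t : NTm) (T : ℕ → Tr) : ∃ c, ∀ s, 1 ≤ s → ∀ A : ℕ → Cantor,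
    valN (D.nE T A s) (D.sE T A s) t ≤ 2 ^ (c * s) := by
  obtain ⟨m, hm⟩ := val_dep t
  obtain ⟨c, hc⟩ := env_bound D T m
  obtain ⟨c', hc'⟩ := H23V.val_bound t c
  refine ⟨c', fun s hs A => ?_⟩
  have h1 : valN (D.nE T A s) (D.sE T A s) t =
      valN (fun i => if i < m then D.nE T A s i else 0)
        (fun i => if i < m then D.sE T A s i else ∅) t := by
    apply hm std
    · intro i hi; simp [hi]
    · intro i hi; simp [hi]
  rw [h1]
  apply hc' s hs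
  · intro i
    split_ifs with h
    · exact (hc s hs A i h).1
    · exact Nat.zero_le _
  · intro i
    split_ifs with h
    · exact (hc s hs A i h).2
    · simp [sl]

/-- Values of number terms are given by terms. -/
theorem Data.exists_val (t : NTm) (T : ℕ → Tr) : ∃ W : Tr, ∀ A : ℕ → Cantor, ∀ s, 1 ≤ s →
    (D.ev W A s).1 = valN (D.nE T A s) (D.sE T A s) t := by
  obtain ⟨m, hm⟩ := val_dep t
  obtain ⟨c, hc⟩ := D.val_bound t T
  obtain ⟨W, hW⟩ := D.exists_wit (IsSB0.eq (.var m) t) m c T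
  refine ⟨W, fun A s hs => ?_⟩
  have h1 : ∀ i, valN (Function.update (D.nE T A s) m i) (D.sE T A s) t =
      valN (D.nE T A s) (D.sE T A s) t := by
    intro i
    apply hm std
    · intro j hj
      exact Function.update_of_ne (by omega) _ _
    · intro j _; rfl
  rw [hW]
  apply leastN_eq (hc s hs A)
  · rw [satN_eq, valN_var, Function.update_self, h1]
  · intro j hj
    rw [satN_eq, valN_var, Function.update_self, h1]
    omega

/-! ### The model -/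

/-- germs -/
abbrev G1 := Germ HF ℕ
abbrev G2 := Germ HF (Finset ℕ)

def Data.g1 (t : Tr) (A : ℕ → Cantor) : G1 := ((fun s => (D.ev t A s).1 : ℕ → ℕ) : G1)
def Data.g2 (t : Tr) (A : ℕ → Cantor) : G2 := ((fun s => (D.ev t A s).2 : ℕ → Finset ℕ) : G2)

def Data.T1 : Type := {x : G1 // ∃ t A, x = D.g1 t A}
def Data.T2 : Type := {x : G2 // ∃ t A, x = D.g2 t A}

def Data.e1 (t : Tr) (A : ℕ → Cantor) : D.T1 := ⟨D.g1 t A, t, A, rfl⟩
def Data.e2 (t : Tr) (A : ℕ → Cantor) : D.T2 := ⟨D.g2 t A, t, A, rfl⟩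

theorem Data.e1_surj (x : D.T1) : ∃ t A, x = D.e1 t A := by
  obtain ⟨x, t, A, rfl⟩ := x
  exact ⟨t, A, rfl⟩
theorem Data.e2_surj (x : D.T2) : ∃ t A, x = D.e2 t A := by
  obtain ⟨x, t, A, rfl⟩ := x
  exact ⟨t, A, rfl⟩

theorem Data.e1_eq {t u : Tr} {A B : ℕ → Cantor} : D.e1 t A = D.e1 u B ↔
    ∀ᶠ s in HF, (D.ev t A s).1 = (D.ev u B s).1 :=
  ⟨fun h => Germ.coe_eq.1 (congrArg Subtype.val h), fun h => Subtype.ext (Germ.coe_eq.2 h)⟩

theorem Data.e2_eq {t u : Tr} {A B : ℕ → Cantor} : D.e2 t A = D.e2 u B ↔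
    ∀ᶠ s in HF, (D.ev t A s).2 = (D.ev u B s).2 :=
  ⟨fun h => Germ.coe_eq.1 (congrArg Subtype.val h), fun h => Subtype.ext (Germ.coe_eq.2 h)⟩

theorem hf_of_atTop {P : ℕ → Prop} (h : ∀ᶠ s in atTop, P s) : ∀ᶠ s in HF, P s :=
  Nat.hyperfilter_le_atTop h

theorem hf_ge (n : ℕ) : ∀ᶠ s in HF, n ≤ s := hf_of_atTop (eventually_ge_atTop n)

theorem Data.e1_rel (f : ℕ → ℕ) (t : Tr) (A : ℕ → Cantor) :
    D.e1 (rel f t) A = D.e1 t (A ∘ f) := by
  rw [D.e1_eq]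
  exact Eventually.of_forall fun s => by rw [D.ev_rel]
theorem Data.e2_rel (f : ℕ → ℕ) (t : Tr) (A : ℕ → Cantor) :
    D.e2 (rel f t) A = D.e2 t (A ∘ f) := by
  rw [D.e2_eq]
  exact Eventually.of_forall fun s => by rw [D.ev_rel]

@[simp] theorem Data.e1_prT (t u : Tr) (A : ℕ → Cantor) : D.e1 (prT t u) A = D.e1 t A := rfl
@[simp] theorem Data.e2_prT (t u : Tr) (A : ℕ → Cantor) : D.e2 (prT t u) A = D.e2 u A := rfl

/-- Representation of countably many elements of both sorts by terms in the same reals. -/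
theorem Data.rep (v : ℕ → D.T1) (w : ℕ → D.T2) : ∃ (T : ℕ → Tr) (A : ℕ → Cantor),
    (v = fun i => D.e1 (T i) A) ∧ w = fun i => D.e2 (T i) A := by
  choose t A hv using fun i => D.e1_surj (v i)
  choose u B hw using fun i => D.e2_surj (w i)
  let C : ℕ → Cantor := joinA fun i => if i % 2 = 0 then A (i / 2) else B (i / 2)
  refine ⟨fun i => prT (rel (Nat.pair (2 * i)) (t i)) (rel (Nat.pair (2 * i + 1)) (u i)), C, ?_, ?_⟩
  · funext i
    rw [D.e1_prT, D.e1_rel, hv i]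
    congr 1
    funext j
    have h1 : 2 * i % 2 = 0 := by omega
    have h2 : 2 * i / 2 = i := by omega
    simp [C, joinA]
  · funext i
    rw [D.e2_prT, D.e2_rel, hw i]
    congr 1
    funext j
    have h1 : (2 * i + 1) % 2 = 1 := by omega
    have h2 : (2 * i + 1) / 2 = i := by omega
    simp [C, joinA, h1, h2]

theorem Data.closed_val (t : NTm) (v : ℕ → D.T1) (w : ℕ → D.T2) :
    ∃ (x : D.T1), ∀ (T : ℕ → Tr) (A : ℕ → Cantor), (v = fun i => D.e1 (T i) A) →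
      (w = fun i => D.e2 (T i) A) →
      x.1 = ((fun s => valN (D.nE T A s) (D.sE T A s) t : ℕ → ℕ) : G1) := by
  obtain ⟨T, A, hv, hw⟩ := D.rep v w
  obtain ⟨W, hW⟩ := D.exists_val t T
  obtain ⟨m, hm⟩ := val_dep t
  refine ⟨D.e1 W A, fun T' A' hv' hw' => ?_⟩
  change ((fun s => (D.ev W A s).1 : ℕ → ℕ) : G1) = _
  rw [Germ.coe_eq]
  have h1 : ∀ i, ∀ᶠ s in HF, (D.ev (T i) A s).1 = (D.ev (T' i) A' s).1 := fun i =>
    D.e1_eq.1 (congrFun (hv.symm.trans hv') i)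
  have h2 : ∀ i, ∀ᶠ s in HF, (D.ev (T i) A s).2 = (D.ev (T' i) A' s).2 := fun i =>
    D.e2_eq.1 (congrFun (hw.symm.trans hw') i)
  have h3 : ∀ᶠ s in HF, ∀ i ∈ Finset.range m, (D.ev (T i) A s).1 = (D.ev (T' i) A' s).1 ∧
      (D.ev (T i) A s).2 = (D.ev (T' i) A' s).2 := by
    rw [Filter.eventually_all_finset]
    exact fun i _ => (h1 i).and (h2 i)
  filter_upwards [h3, hf_ge 1] with s hs hs1
  rw [hW A s hs1]
  apply hm std
  · intro i hi; exact (hs i (Finset.mem_range.2 hi)).1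
  · intro i hi; exact (hs i (Finset.mem_range.2 hi)).2

end

end Pool.Agent.H23V
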