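import Pool.Agent.H23V.Model

/-!
The two-sorted model: elementarity, comprehension, extensionality.
-/

namespace Pool.Agent.H23V

open Set Filter FirstOrder FirstOrder.Language Pool.Agent.H23

noncomputable section

variable (D : Data)

def dT : Tr := .var (.inl 0)
def dA : ℕ → Cantor := fun _ _ => false

theorem Data.ex_val (t : NTm) (v : ℕ → D.T1) (w : ℕ → D.T2) (g : G1)
    (h : ∀ (T : ℕ → Tr) (A : ℕ → Cantor), (v = fun i => D.e1 (T i) A) →
      (w = fun i => D.e2 (T i) A) →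
      g = ((fun s => valN (D.nE T A s) (D.sE T A s) t : ℕ → ℕ) : G1)) : ∃ u A, g = D.g1 u A := by
  obtain ⟨x, hx⟩ := D.closed_val t v w
  obtain ⟨T, A, hv, hw⟩ := D.rep v w
  obtain ⟨u, B, h2⟩ := x.2
  exact ⟨u, B, by rw [h T A hv hw, ← hx T A hv hw, h2]⟩

def seq2 {α : Type} (x y : α) : ℕ → α := fun i => if i = 0 then x else y

/-- The model. -/
def Data.M : Two where
  N1 := D.T1
  N2 := D.T2
  zero := ⟨((fun _ => 0 : ℕ → ℕ) : G1), D.ex_val .zero (fun _ => D.e1 dT dA) (fun _ => D.e2 dT dA) _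
    fun _ _ _ _ => rfl⟩
  one := ⟨((fun _ => 1 : ℕ → ℕ) : G1), D.ex_val .one (fun _ => D.e1 dT dA) (fun _ => D.e2 dT dA) _
    fun _ _ _ _ => rfl⟩
  add := fun x y => ⟨x.1 + y.1, D.ex_val (.add (.var 0) (.var 1)) (seq2 x y)
    (fun _ => D.e2 dT dA) _ fun T A hv _ => by
      have h0 : x = D.e1 (T 0) A := congrFun hv 0
      have h1 : y = D.e1 (T 1) A := congrFun hv 1
      rw [h0, h1]
      rfl⟩
  mul := fun x y => ⟨x.1 * y.1, D.ex_val (.mul (.var 0) (.var 1)) (seq2 x y)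
    (fun _ => D.e2 dT dA) _ fun T A hv _ => by
      have h0 : x = D.e1 (T 0) A := congrFun hv 0
      have h1 : y = D.e1 (T 1) A := congrFun hv 1
      rw [h0, h1]
      rfl⟩
  le := fun x y => x.1 ≤ y.1
  len := fun X => ⟨X.1.map sl, D.ex_val (.len 0) (fun _ => D.e1 dT dA)
    (fun _ => X) _ fun T A _ hw => by
      have h0 : X = D.e2 (T 0) A := congrFun hw 0
      rw [h0]
      rfl⟩
  mem := fun x X => Germ.LiftRel (fun (i : ℕ) (Y : Finset ℕ) => i ∈ Y) x.1 X.1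

/-- Elements of the model. -/
def Data.x1 (t : Tr) (A : ℕ → Cantor) : D.M.N1 := D.e1 t A
def Data.x2 (t : Tr) (A : ℕ → Cantor) : D.M.N2 := D.e2 t A

theorem Data.x1_surj (x : D.M.N1) : ∃ t A, x = D.x1 t A := D.e1_surj x
theorem Data.x2_surj (x : D.M.N2) : ∃ t A, x = D.x2 t A := D.e2_surj x

theorem Data.x1_eq {t u : Tr} {A B : ℕ → Cantor} : D.x1 t A = D.x1 u B ↔
    ∀ᶠ s in HF, (D.ev t A s).1 = (D.ev u B s).1 := D.e1_eq
theorem Data.x2_eq {t u : Tr} {A B : ℕ → Cantor} : D.x2 t A = D.x2 u B ↔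
    ∀ᶠ s in HF, (D.ev t A s).2 = (D.ev u B s).2 := D.e2_eq
theorem Data.x1_rel (f : ℕ → ℕ) (t : Tr) (A : ℕ → Cantor) :
    D.x1 (rel f t) A = D.x1 t (A ∘ f) := D.e1_rel f t A
theorem Data.x2_rel (f : ℕ → ℕ) (t : Tr) (A : ℕ → Cantor) :
    D.x2 (rel f t) A = D.x2 t (A ∘ f) := D.e2_rel f t A
@[simp] theorem Data.x1_prT (t u : Tr) (A : ℕ → Cantor) : D.x1 (prT t u) A = D.x1 t A := rfl
@[simp] theorem Data.x2_prT (t u : Tr) (A : ℕ → Cantor) : D.x2 (prT t u) A = D.x2 u A := rfl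
theorem Data.repM (v : ℕ → D.M.N1) (w : ℕ → D.M.N2) : ∃ (T : ℕ → Tr) (A : ℕ → Cantor),
    (v = fun i => D.x1 (T i) A) ∧ w = fun i => D.x2 (T i) A := D.rep v w

/-- The underlying germs. -/
def Data.u1 (x : D.M.N1) : G1 := Subtype.val (p := fun x => ∃ t A, x = D.g1 t A) x
def Data.u2 (x : D.M.N2) : G2 := Subtype.val (p := fun x => ∃ t A, x = D.g2 t A) x

theorem Data.u1_inj {x y : D.M.N1} : x = y ↔ D.u1 x = D.u1 y := by
  constructor
  · rintro rfl; rfl
  · intro h; exact Subtype.ext h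

theorem Data.val_M (t : NTm) (T : ℕ → Tr) (A : ℕ → Cantor) :
    D.u1 (t.val D.M (fun i => D.x1 (T i) A) (fun i => D.x2 (T i) A)) =
      ((fun s => valN (D.nE T A s) (D.sE T A s) t : ℕ → ℕ) : G1) := by
  induction t with
  | var i => rfl
  | zero => rfl
  | one => rfl
  | add t u iht ihu =>
    change (D.u1 (t.val D.M _ _) + D.u1 (u.val D.M _ _) : G1) = _
    rw [iht, ihu]
    rfl
  | mul t u iht ihu =>
    change (D.u1 (t.val D.M _ _) * D.u1 (u.val D.M _ _) : G1) = _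
    rw [iht, ihu]
    rfl
  | len j => rfl

theorem Data.le_M (x y : D.M.N1) (f g : ℕ → ℕ) (hx : D.u1 x = (f : G1)) (hy : D.u1 y = (g : G1)) :
    D.M.le x y ↔ ∀ᶠ s in HF, f s ≤ g s := by
  change D.u1 x ≤ D.u1 y ↔ _
  rw [hx, hy, Germ.coe_le]
  exact Iff.rfl

theorem Data.mem_M (x : D.M.N1) (X : D.M.N2) (f : ℕ → ℕ) (F : ℕ → Finset ℕ)
    (hx : D.u1 x = (f : G1)) (hX : D.u2 X = (F : G2)) :
    D.M.mem x X ↔ ∀ᶠ s in HF, f s ∈ F s := by
  change Germ.LiftRel (fun (i : ℕ) (Y : Finset ℕ) => i ∈ Y) (D.u1 x) (D.u2 X) ↔ _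
  rw [hx, hX]
  exact Iff.rfl

/-- Updating environments given by terms. -/
theorem Data.upd_x1 (T : ℕ → Tr) (A : ℕ → Cantor) (k : ℕ) (W : Tr) :
    (fun i => D.x1 (Function.update T k (prT W (T k)) i) A) =
      Function.update (fun i => D.x1 (T i) A) k (D.x1 W A) := by
  funext i
  by_cases h : i = k
  · subst h; simp
  · simp [h]

theorem Data.upd_x2 (T : ℕ → Tr) (A : ℕ → Cantor) (k : ℕ) (W : Tr) :
    (fun i => D.x2 (Function.update T k (prT W (T k)) i) A) = fun i => D.x2 (T i) A := by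
  funext i
  by_cases h : i = k
  · subst h; simp
  · simp [h]

theorem Data.upd_nE (T : ℕ → Tr) (A : ℕ → Cantor) (s k : ℕ) (W : Tr) :
    D.nE (Function.update T k (prT W (T k))) A s =
      Function.update (D.nE T A s) k (D.ev W A s).1 := by
  funext i
  unfold Data.nE
  by_cases h : i = k
  · subst h; simp [Data.ev]
  · simp [h]

theorem Data.upd_sE (T : ℕ → Tr) (A : ℕ → Cantor) (s k : ℕ) (W : Tr) :
    D.sE (Function.update T k (prT W (T k))) A s = D.sE T A s := by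
  funext i
  unfold Data.sE
  by_cases h : i = k
  · subst h; simp [Data.ev]
  · simp [h]

theorem Data.nE_rel (f : ℕ → ℕ) (T : ℕ → Tr) (A : ℕ → Cantor) (s : ℕ) :
    D.nE (fun i => rel f (T i)) A s = D.nE T (A ∘ f) s := by
  funext i; unfold Data.nE; rw [D.ev_rel]
theorem Data.sE_rel (f : ℕ → ℕ) (T : ℕ → Tr) (A : ℕ → Cantor) (s : ℕ) :
    D.sE (fun i => rel f (T i)) A s = D.sE T (A ∘ f) s := by
  funext i; unfold Data.sE; rw [D.ev_rel]

/-- Elementarity. -/
theorem Data.elem {φ : Fm} (hφ : IsSB0 φ) : ∀ (T : ℕ → Tr) (A : ℕ → Cantor),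
    (Sat D.M (fun i => D.x1 (T i) A) (fun i => D.x2 (T i) A) φ ↔
      ∀ᶠ s in HF, SatN (D.nE T A s) (D.sE T A s) φ) := by
  induction hφ with
  | bot =>
    intro T A
    simp only [Sat, satN_bot, Filter.eventually_const]
  | eq t u =>
    intro T A
    simp only [Sat, satN_eq]
    rw [D.u1_inj, D.val_M t T A, D.val_M u T A, Germ.coe_eq]
    exact Iff.rfl
  | le t u =>
    intro T A
    exact D.le_M _ _ _ _ (D.val_M t T A) (D.val_M u T A)
  | mem t j =>
    intro T A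
    exact D.mem_M _ _ _ _ (D.val_M t T A) rfl
  | imp _ _ ih1 ih2 =>
    intro T A
    simp only [Sat, satN_imp]
    rw [ih1, ih2, Ultrafilter.eventually_imp]
  | @allN k t φ hφ ih =>
    intro T A
    simp only [Sat, satN_allN]
    constructor
    · intro h
      by_contra hcon
      rw [← Ultrafilter.eventually_not] at hcon
      obtain ⟨c, hc⟩ := D.val_bound t T
      obtain ⟨W, hW⟩ := D.exists_wit hφ.not k c T
      have hWs : ∀ᶠ s in HF, (D.ev W A s).1 ≤ valN (D.nE T A s) (D.sE T A s) t ∧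
          ¬ SatN (Function.update (D.nE T A s) k (D.ev W A s).1) (D.sE T A s) φ := by
        filter_upwards [hcon, hf_ge 1] with s hs hs1
        push Not at hs
        obtain ⟨a, ha1, ha2⟩ := hs
        rw [hW]
        have hex : ∃ i, i ≤ 2 ^ (c * s) ∧ SatN (Function.update (D.nE T A s) k i) (D.sE T A s)
            (.imp φ .bot) := ⟨a, ha1.trans (hc s hs1 A), fun h => ha2 h⟩
        refine ⟨?_, fun h => leastN_spec hex h⟩
        by_contra hlt
        push Not at hlt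
        have hlt' := ha1.trans_lt hlt
        classical
        unfold leastN at hlt'
        rw [dif_pos hex] at hlt'
        exact Nat.find_min hex hlt' ⟨ha1.trans (hc s hs1 A), fun h => ha2 h⟩
      have h1 := h (D.x1 W A) ((D.le_M _ _ _ _ rfl (D.val_M t T A)).2 (hWs.mono fun s hs => hs.1))
      rw [← D.upd_x1, ← D.upd_x2 T A k W, ih] at h1
      obtain ⟨s, hs1, hs2⟩ := (h1.and hWs).exists
      rw [D.upd_nE, D.upd_sE] at hs1
      exact hs2.2 hs1
    · intro h a ha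
      obtain ⟨u, B, rfl⟩ := D.x1_surj a
      let T' : ℕ → Tr := fun i => rel (fun i => 2 * i) (T i)
      let u' : Tr := rel (fun i => 2 * i + 1) u
      let A' := ilv A B
      have e1 : (fun i => D.x1 (T i) A) = fun i => D.x1 (T' i) A' := by
        funext i; rw [D.x1_rel, ilv_even]
      have e2 : (fun i => D.x2 (T i) A) = fun i => D.x2 (T' i) A' := by
        funext i; rw [D.x2_rel, ilv_even]
      have e3 : D.x1 u B = D.x1 u' A' := by rw [D.x1_rel, ilv_odd]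
      have e4 : ∀ s, D.nE T' A' s = D.nE T A s := by intro s; rw [D.nE_rel, ilv_even]
      have e5 : ∀ s, D.sE T' A' s = D.sE T A s := by intro s; rw [D.sE_rel, ilv_even]
      rw [e3] at ha ⊢
      have ha' := (D.le_M _ _ _ _ rfl (D.val_M t T A)).1 ha
      rw [e1, e2, ← D.upd_x1, ← D.upd_x2 T' A' k u', ih]
      filter_upwards [h, ha'] with s hs1 hs2
      rw [D.upd_nE, D.upd_sE, e4, e5]
      exact hs1 _ hs2

theorem Data.elem' {φ : Fm} (hφ : IsSB0 φ) {v : ℕ → D.M.N1} {w : ℕ → D.M.N2} {T : ℕ → Tr}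
    {A : ℕ → Cantor} (hv : v = fun i => D.x1 (T i) A) (hw : w = fun i => D.x2 (T i) A) :
    Sat D.M v w φ ↔ ∀ᶠ s in HF, SatN (D.nE T A s) (D.sE T A s) φ := by
  subst hv hw
  exact D.elem hφ T A

/-- True `Σ^B_0` formulas hold in the model. -/
theorem Data.M_true {φ : Fm} (hφ : IsSB0 φ) (h : ∀ v w, Sat std v w φ) (v : ℕ → D.M.N1)
    (w : ℕ → D.M.N2) : Sat D.M v w φ := by
  obtain ⟨T, A, hv, hw⟩ := D.repM v w
  exact (D.elem' hφ hv hw).2 (Eventually.of_forall fun s => h _ _)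

theorem Data.M_ext (X Y : D.M.N2) (h : ∀ i, D.M.mem i X ↔ D.M.mem i Y) : X = Y := by
  obtain ⟨T, A, -, hw⟩ := D.repM (fun _ => D.x1 dT dA) (seq2 X Y)
  have hX : X = D.x2 (T 0) A := congrFun hw 0
  have hY : Y = D.x2 (T 1) A := congrFun hw 1
  by_contra hne
  have h1 : ¬ ∀ᶠ s in HF, (D.ev (T 0) A s).2 = (D.ev (T 1) A s).2 := by
    rw [← D.x2_eq, ← hX, ← hY]; exact hne
  rw [← Ultrafilter.eventually_not] at h1
  obtain ⟨c0, h0⟩ := D.bound (T 0)
  obtain ⟨c1, h1'⟩ := D.bound (T 1)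
  let φ : Fm := .imp (.imp (.imp (.mem (.var 0) 0) (.mem (.var 0) 1))
    (.imp (.imp (.mem (.var 0) 1) (.mem (.var 0) 0)) .bot)) .bot
  have hφ : IsSB0 (.imp φ .bot) := by
    refine .imp (.imp (.imp (.imp (.mem _ _) (.mem _ _)) (.imp (.imp (.mem _ _) (.mem _ _)) .bot))
      .bot) .bot
  obtain ⟨W, hW⟩ := D.exists_wit hφ 0 (max c0 c1) T
  have hWs : ∀ᶠ s in HF, ¬ ((D.ev W A s).1 ∈ (D.ev (T 0) A s).2 ↔
      (D.ev W A s).1 ∈ (D.ev (T 1) A s).2) := by
    filter_upwards [h1, hf_ge 1] with s hs hs1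
    rw [Finset.ext_iff] at hs
    push Not at hs
    obtain ⟨i, hi⟩ := hs
    have hib : i ≤ 2 ^ (max c0 c1 * s) := by
      have hp : ∀ {a b : ℕ}, a ≤ b → 2 ^ (a * s) ≤ 2 ^ (b * s) := fun h =>
        Nat.pow_le_pow_right (by norm_num) (Nat.mul_le_mul_right _ h)
      rcases hi with hi | hi
      · exact ((lt_sl hi.1).le.trans (h0 s hs1 A).2).trans (hp (le_max_left _ _))
      · exact ((lt_sl hi.2).le.trans (h1' s hs1 A).2).trans (hp (le_max_right _ _))
    have key : ∀ i : ℕ, SatN (Function.update (D.nE T A s) 0 i) (D.sE T A s) (.imp φ .bot) ↔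
        ¬ (i ∈ (D.ev (T 0) A s).2 ↔ i ∈ (D.ev (T 1) A s).2) := by
      intro i
      simp only [φ, satN_imp, satN_mem, satN_bot, valN_var, Function.update_self, Data.sE]
      tauto
    have hex : ∃ i, i ≤ 2 ^ (max c0 c1 * s) ∧ SatN (Function.update (D.nE T A s) 0 i)
        (D.sE T A s) (.imp φ .bot) := ⟨i, hib, (key i).2 (by tauto)⟩
    rw [hW]
    exact (key _).1 (leastN_spec hex)
  have h2 := h (D.x1 W A)
  rw [D.mem_M (D.x1 W A) X _ _ rfl (congrArg D.u2 hX),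
    D.mem_M (D.x1 W A) Y _ _ rfl (congrArg D.u2 hY)] at h2
  have h3 : ∀ᶠ s in HF, ((D.ev W A s).1 ∈ (D.ev (T 0) A s).2 ↔
      (D.ev W A s).1 ∈ (D.ev (T 1) A s).2) := by
    simp only [iff_iff_implies_and_implies]
    rw [Filter.eventually_and, Ultrafilter.eventually_imp, Ultrafilter.eventually_imp]
    exact ⟨h2.1, h2.2⟩
  obtain ⟨s, hs1, hs2⟩ := (h3.and hWs).exists
  exact hs2 hs1

/-- Comprehension. -/
theorem Data.M_comp {φ : Fm} (hφ : IsSB0 φ) (k : ℕ) (v : ℕ → D.M.N1) (w : ℕ → D.M.N2)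
    (b : D.M.N1) : ∃ X : D.M.N2, D.M.le (D.M.len X) b ∧ ∀ i : D.M.N1, D.M.le i b → i ≠ b →
      (D.M.mem i X ↔ Sat D.M (Function.update v k i) w φ) := by
  obtain ⟨m, hm⟩ := sat_dep φ
  let j0 := max m (k + 1)
  have hj0k : j0 ≠ k := by omega
  obtain ⟨T, A, hv, hw⟩ := D.repM (Function.update v j0 b) w
  have hb : b = D.x1 (T j0) A := by
    have := congrFun hv j0
    rw [Function.update_self] at this
    exact this
  obtain ⟨c, hc⟩ := D.bound (T j0)
  let ψ : Fm := .imp (.imp (.le (.add (.var k) .one) (.var j0)) (.imp φ .bot)) .bot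
  have hψ : IsSB0 ψ := .imp (.imp (.le _ _) (.imp hφ .bot)) .bot
  obtain ⟨W, hW⟩ := D.exists_comp hψ k c T
  have hWs : ∀ s, 1 ≤ s → ∀ i, (i ∈ (D.ev W A s).2 ↔ i < (D.ev (T j0) A s).1 ∧
      SatN (Function.update (D.nE T A s) k i) (D.sE T A s) φ) := by
    intro s hs i
    rw [hW]
    simp only [ψ, satN_imp, satN_le, satN_bot, valN_add, valN_var, valN_one,
      Function.update_self, Function.update_of_ne hj0k]
    have h1 := (hc s hs A).1
    have h2 : D.nE T A s j0 = (D.ev (T j0) A s).1 := rfl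
    rw [h2]
    constructor
    · rintro ⟨-, h3⟩
      constructor
      · by_contra h4
        exact h3 fun h5 => absurd h5 (by omega)
      · by_contra h4
        exact h3 fun _ => h4
    · rintro ⟨h3, h4⟩
      exact ⟨h3.trans_le h1, fun h5 => h5 (by omega) h4⟩
  refine ⟨D.x2 W A, ?_, fun i hi hib => ?_⟩
  · refine (D.le_M _ _ (fun s => sl (D.ev W A s).2) _ rfl (congrArg D.u1 hb)).2 ?_
    filter_upwards [hf_ge 1] with s hs
    exact sl_le fun i hi => ((hWs s hs i).1 hi).1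
  · obtain ⟨u, B, rfl⟩ := D.x1_surj i
    let T' : ℕ → Tr := fun i => rel (fun i => 2 * i) (T i)
    let u' : Tr := rel (fun i => 2 * i + 1) u
    let A' := ilv A B
    have e1 : Function.update v j0 b = fun i => D.x1 (T' i) A' := by
      rw [hv]; funext i; rw [D.x1_rel, ilv_even]
    have e2 : w = fun i => D.x2 (T' i) A' := by
      rw [hw]; funext i; rw [D.x2_rel, ilv_even]
    have e3 : D.x1 u B = D.x1 u' A' := by rw [D.x1_rel, ilv_odd]
    have e4 : ∀ s, D.nE T' A' s = D.nE T A s := by intro s; rw [D.nE_rel, ilv_even]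
    have e5 : ∀ s, D.sE T' A' s = D.sE T A s := by intro s; rw [D.sE_rel, ilv_even]
    have h1 : Sat D.M (Function.update v k (D.x1 u B)) w φ ↔
        Sat D.M (Function.update (Function.update v j0 b) k (D.x1 u B)) w φ := by
      refine hm D.M _ _ w w (update_agree (fun j hj => ?_) _) fun _ _ => rfl
      exact (Function.update_of_ne (by omega) _ _).symm
    rw [h1, e3, D.elem' hφ (T := Function.update T' k (prT u' (T' k))) (A := A')
      (by rw [e1, D.upd_x1]) (by rw [D.upd_x2]; exact e2),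
      D.mem_M (D.x1 u' A') (D.x2 W A) _ _ rfl rfl]
    have hlt : ∀ᶠ s in HF, (D.ev u' A' s).1 < (D.ev (T j0) A s).1 := by
      rw [e3, D.le_M (D.x1 u' A') b _ _ rfl (congrArg D.u1 hb)] at hi
      rw [e3, hb, Ne, D.x1_eq] at hib
      have h2 : ∀ᶠ s in HF, ¬ (D.ev u' A' s).1 = (D.ev (T j0) A s).1 :=
        Ultrafilter.eventually_not.2 hib
      filter_upwards [hi, h2] with s hs1 hs2
      exact lt_of_le_of_ne hs1 hs2
    apply eventually_congr
    filter_upwards [hlt, hf_ge 1] with s hs hs1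
    rw [hWs s hs1, D.upd_nE, D.upd_sE, e4, e5]
    exact ⟨fun h => h.2, fun h => ⟨hs, h⟩⟩

end

end Pool.Agent.H23V
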