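import Pool.Agent.H23V.Upper

/-!
Definability of the standard numbers in the model, and decoding of reals.
-/

namespace Pool.Agent.H23V

open Set Filter FirstOrder FirstOrder.Language Pool.Agent.H23

noncomputable section

/-- `y` codes the prefix parities of block `n` of `x`, blocks having size `N`. -/
def ParR (M : Two) (x y : M.N2) (n N : M.N1) : Prop :=
  (M.mem M.zero y ↔ M.mem (M.mul n N) x) ∧
  ∀ i, M.le i N → (M.le (M.add (M.add i M.one) M.one) N →
    (M.mem (M.add i M.one) y ↔ ¬ (M.mem i y ↔ M.mem (M.add (M.mul n N) (M.add i M.one)) x)))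

/-- The last bit. -/
def LastR (M : Two) (y : M.N2) (N : M.N1) : Prop :=
  ∃ i, M.le i N ∧ (M.add i M.one = N ∧ M.mem i y)

def fNot (φ : Fm) : Fm := .imp φ .bot
def fAnd (φ ψ : Fm) : Fm := fNot (.imp φ (fNot ψ))
def fIff (φ ψ : Fm) : Fm := fAnd (.imp φ ψ) (.imp ψ φ)

theorem sat_fNot (M : Two) (v : ℕ → M.N1) (w : ℕ → M.N2) (φ : Fm) :
    Sat M v w (fNot φ) ↔ ¬ Sat M v w φ := Iff.rfl
theorem sat_fAnd (M : Two) (v : ℕ → M.N1) (w : ℕ → M.N2) (φ ψ : Fm) :
    Sat M v w (fAnd φ ψ) ↔ Sat M v w φ ∧ Sat M v w ψ := by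
  simp only [fAnd, sat_fNot, Sat]; tauto
theorem sat_fIff (M : Two) (v : ℕ → M.N1) (w : ℕ → M.N2) (φ ψ : Fm) :
    Sat M v w (fIff φ ψ) ↔ (Sat M v w φ ↔ Sat M v w ψ) := by
  simp only [fIff, sat_fAnd, Sat]; tauto

/-- `ParR` as a `Σ^B_0` formula: numbers `0 = n`, `1 = N`, strings `0 = x`, `1 = y`. -/
def fPar : Fm :=
  fAnd (fIff (.mem .zero 1) (.mem (.mul (.var 0) (.var 1)) 0))
    (.allN 2 (.var 1) (.imp (.le (.add (.add (.var 2) .one) .one) (.var 1))
      (fIff (.mem (.add (.var 2) .one) 1)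
        (fNot (fIff (.mem (.var 2) 1) (.mem (.add (.mul (.var 0) (.var 1)) (.add (.var 2) .one)) 0))))))

def fLast : Fm :=
  fNot (.allN 2 (.var 1) (fNot (fAnd (.eq (.add (.var 2) .one) (.var 1)) (.mem (.var 2) 1))))

theorem isSB0_fPar : IsSB0 fPar := by
  unfold fPar fIff fAnd fNot
  repeat' first | exact .bot | exact .mem _ _ | exact .le _ _ | apply IsSB0.imp | apply IsSB0.allN

theorem isSB0_fLast : IsSB0 fLast := by
  unfold fLast fAnd fNot
  repeat' first | exact .bot | exact .mem _ _ | exact .eq _ _ | apply IsSB0.imp | apply IsSB0.allN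

theorem sat_fPar (M : Two) (v : ℕ → M.N1) (w : ℕ → M.N2) :
    Sat M v w fPar ↔ ParR M (w 0) (w 1) (v 0) (v 1) := by
  unfold fPar ParR
  simp only [sat_fAnd, sat_fIff, sat_fNot, Sat, NTm.val, Function.update_self,
    Function.update_of_ne (show (0 : ℕ) ≠ 2 by norm_num),
    Function.update_of_ne (show (1 : ℕ) ≠ 2 by norm_num)]

theorem sat_fLast (M : Two) (v : ℕ → M.N1) (w : ℕ → M.N2) :
    Sat M v w fLast ↔ LastR M (w 1) (v 1) := by
  unfold fLast LastR
  simp only [sat_fAnd, sat_fNot, Sat, NTm.val, Function.update_self,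
    Function.update_of_ne (show (1 : ℕ) ≠ 2 by norm_num)]
  push Not
  exact Iff.rfl

/-- The meaning of `ParR` in the standard structure. -/
theorem parR_std {s n : ℕ} {x y : Finset ℕ} (b : ℕ → Bool)
    (hb : ∀ i < 2 ^ s, (n * 2 ^ s + i ∈ x ↔ b (n * 2 ^ s + i) = true)) :
    ParR std x y n (2 ^ s : ℕ) ↔ ∀ i < 2 ^ s, (i ∈ y ↔ pp s n b i = true) := by
  have h1 : ParR std x y n (2 ^ s : ℕ) ↔ (0 ∈ y ↔ n * 2 ^ s ∈ x) ∧ ∀ i : ℕ, i ≤ 2 ^ s →
      (i + 1 + 1 ≤ 2 ^ s → (i + 1 ∈ y ↔ ¬ (i ∈ y ↔ n * 2 ^ s + (i + 1) ∈ x))) := Iff.rfl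
  rw [h1]
  have h0 : 0 < 2 ^ s := by positivity
  have hx : ∀ (p q : Bool), (xor p q = true ↔ ¬ (p = true ↔ q = true)) := by decide
  constructor
  · rintro ⟨h2, h3⟩ i
    induction i with
    | zero =>
      intro _
      rw [h2]
      have := hb 0 h0
      rw [add_zero] at this
      exact this
    | succ i ih =>
      intro hi
      rw [h3 i (by omega) (by omega), ih (by omega), hb (i + 1) hi]
      simp only [pp]
      rw [hx]
  · intro h
    refine ⟨?_, fun i _ hi => ?_⟩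
    · rw [h 0 h0]
      have := hb 0 h0
      rw [add_zero] at this
      exact this.symm
    · rw [h (i + 1) (by omega), h i (by omega), hb (i + 1) (by omega)]
      simp only [pp]
      rw [hx]

theorem lastR_std {s : ℕ} {y : Finset ℕ} :
    LastR std y (2 ^ s : ℕ) ↔ 2 ^ s - 1 ∈ y := by
  have h1 : LastR std y (2 ^ s : ℕ) ↔ ∃ i : ℕ, i ≤ 2 ^ s ∧ (i + 1 = 2 ^ s ∧ i ∈ y) := Iff.rfl
  rw [h1]
  have h0 : 0 < 2 ^ s := by positivity
  constructor
  · rintro ⟨i, -, h2, h3⟩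
    have : i = 2 ^ s - 1 := by omega
    rw [← this]; exact h3
  · intro h
    exact ⟨2 ^ s - 1, by omega, by omega, h⟩

theorem pos_lt {s n i : ℕ} (hn : n < 2 ^ s) (hi : i < 2 ^ s) : n * 2 ^ s + i < 2 ^ (2 * s) := by
  have h2s : 2 ^ (2 * s) = 2 ^ s * 2 ^ s := by rw [two_mul, pow_add]
  rw [h2s]
  calc n * 2 ^ s + i < n * 2 ^ s + 2 ^ s := by omega
    _ = (n + 1) * 2 ^ s := by ring
    _ ≤ 2 ^ s * 2 ^ s := Nat.mul_le_mul_right _ hn

theorem mem_str_pos {s n i : ℕ} (hn : n < 2 ^ s) (hi : i < 2 ^ s) (b : ℕ → Bool) :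
    n * 2 ^ s + i ∈ str s b ↔ b (n * 2 ^ s + i) = true := by
  rw [mem_str]
  have := pos_lt hn hi
  constructor
  · rintro (h | h)
    · omega
    · exact h.2
  · intro h; exact Or.inr ⟨this, h⟩

variable (D : Data)

/-- Standard numbers. -/
def numT : ℕ → NTm
  | 0 => .zero
  | n + 1 => .add (numT n) .one

def Data.nat (n : ℕ) : D.M.N1 := (numT n).val D.M (fun _ => D.x1 dT dA) (fun _ => D.x2 dT dA)

theorem valN_numT (v : ℕ → ℕ) (w : ℕ → Finset ℕ) (n : ℕ) : valN v w (numT n) = n := by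
  induction n with
  | zero => rfl
  | succ n ih => simp only [numT, valN_add, valN_one, ih]

theorem Data.u1_nat (n : ℕ) : D.u1 (D.nat n) = ((fun _ => n : ℕ → ℕ) : G1) := by
  have h := D.val_M (numT n) (fun _ => dT) dA
  unfold Data.nat
  rw [h]
  congr 1
  funext s
  exact valN_numT _ _ _

theorem Data.u1_add (x y : D.M.N1) : D.u1 (D.M.add x y) = D.u1 x + D.u1 y := rfl
theorem Data.u1_mul (x y : D.M.N1) : D.u1 (D.M.mul x y) = D.u1 x * D.u1 y := rfl

theorem Data.nat_add (m n : ℕ) : D.M.add (D.nat m) (D.nat n) = D.nat (m + n) := by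
  rw [D.u1_inj, D.u1_add, D.u1_nat, D.u1_nat, D.u1_nat]
  rfl
theorem Data.nat_mul (m n : ℕ) : D.M.mul (D.nat m) (D.nat n) = D.nat (m * n) := by
  rw [D.u1_inj, D.u1_mul, D.u1_nat, D.u1_nat, D.u1_nat]
  rfl
theorem Data.nat_one : D.nat 1 = D.M.one := by
  rw [D.u1_inj, D.u1_nat]
  rfl

def szT : Tr := .var (.inr .sz)
def nodeT (κ : ℕ) : Tr := .var (.inr (.node κ))

/-- The parameter `N = 2^s`. -/
def Data.eN : D.M.N1 := D.x1 szT dA
/-- The string of a real. -/
def Data.eU (α : Cantor) : D.M.N2 := D.x2 dT (fun _ => α)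

theorem Data.u1_eN : D.u1 D.eN = ((fun s => 2 ^ s : ℕ → ℕ) : G1) := rfl
theorem Data.u2_eU (α : Cantor) :
    D.u2 (D.eU α) = ((fun s => str s (D.bits α s) : ℕ → Finset ℕ) : G2) := rfl

theorem Data.nat_le_eN (n : ℕ) : D.M.le (D.nat n) D.eN := by
  rw [D.le_M _ _ _ _ (D.u1_nat n) D.u1_eN]
  filter_upwards [hf_ge n] with s hs
  exact hs.trans Nat.lt_two_pow_self.le

/-- `ParR` in the model. -/
theorem Data.parR_M (T : ℕ → Tr) (A : ℕ → Cantor) :
    ParR D.M (D.x2 (T 0) A) (D.x2 (T 1) A) (D.x1 (T 0) A) (D.x1 (T 1) A) ↔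
      ∀ᶠ s in HF, ParR std (D.ev (T 0) A s).2 (D.ev (T 1) A s).2 (D.ev (T 0) A s).1
        (D.ev (T 1) A s).1 := by
  have h := D.elem isSB0_fPar T A
  rw [sat_fPar] at h
  rw [h]
  refine eventually_congr (Eventually.of_forall fun s => ?_)
  exact sat_fPar std _ _

theorem Data.lastR_M (T : ℕ → Tr) (A : ℕ → Cantor) :
    LastR D.M (D.x2 (T 1) A) (D.x1 (T 1) A) ↔
      ∀ᶠ s in HF, LastR std (D.ev (T 1) A s).2 (D.ev (T 1) A s).1 := by
  have h := D.elem isSB0_fLast T A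
  rw [sat_fLast] at h
  rw [h]
  refine eventually_congr (Eventually.of_forall fun s => ?_)
  exact sat_fLast std _ _

/-- The relations defining the standard numbers and the bits of a real. -/
def OmR (M : Two) (N : M.N1) (u : M.N2) (n : M.N1) : Prop :=
  M.le (M.add n M.one) N ∧ ∃ y, M.le (M.len y) N ∧ ParR M u y n N
def BitR (M : Two) (N : M.N1) (x : M.N2) (n : M.N1) : Prop :=
  ∃ y, M.le (M.len y) N ∧ (ParR M x y n N ∧ LastR M y N)

/-- the element given by a node. -/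
def Data.eY (κ : ℕ) : D.M.N2 := D.x2 (nodeT κ) dA

theorem Data.len_eY (κ : ℕ) : D.M.le (D.M.len (D.eY κ)) D.eN := by
  rw [D.le_M _ _ (fun s => sl (Yv (D.π s) s κ)) _ rfl D.u1_eN]
  exact Eventually.of_forall fun s => sl_Yv _ _ _

theorem Data.pp_eq (α : Cantor) (k s : ℕ) (hk : k + 1 ≤ D.N s) (hs : k + 1 ≤ s) {i : ℕ}
    (hi : i < 2 ^ s) : pp s k (fun v => (D.π s (codeR α (k + 1)) v).getD false) i =
      pp s k (D.bits α s) i := by
  have hks : k < 2 ^ s := lt_of_lt_of_le (by omega : k < s) Nat.lt_two_pow_self.le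
  apply pp_congr
  intro j hj
  obtain ⟨b, hb⟩ := (D.lvl s (k + 1) hk).full (by omega) _ (lv_codeR α (k + 1)) j (by omega)
  rw [Nat.add_sub_cancel] at hb
  rw [hb, D.comp_bits α hk (pos_lt hks (by omega)) hb]
  rfl

theorem Data.pp_last (α : Cantor) (k s : ℕ) (hk : k + 1 ≤ D.N s) (hs : k + 1 ≤ s) :
    pp s k (D.bits α s) (2 ^ s - 1) = α k := by
  have h0 : 0 < 2 ^ s := by positivity
  rw [← D.pp_eq α k s hk hs (by omega)]
  have h1 := (D.lvl s (k + 1) hk).par (by omega) _ (lv_codeR α (k + 1))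
  rw [Nat.add_sub_cancel] at h1
  rw [h1, codeR_succ_mod]
  cases α k <;> rfl

theorem Data.par_node (α : Cantor) (k : ℕ) :
    ParR D.M (D.eU α) (D.eY (codeR α (k + 1))) (D.nat k) D.eN := by
  obtain ⟨t, A, ht⟩ := D.x1_surj (D.nat k)
  let A' : ℕ → Cantor := fun i => if i = 0 then α else A (i - 1)
  let T : ℕ → Tr := fun i => if i = 0 then prT (rel (fun i => i + 1) t) dT else
    prT szT (nodeT (codeR α (k + 1)))
  have e0 : D.x2 (T 0) A' = D.eU α := rfl
  have e1 : D.x2 (T 1) A' = D.eY (codeR α (k + 1)) := rfl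
  have e2 : D.x1 (T 0) A' = D.nat k := by
    change D.x1 (prT (rel (fun i => i + 1) t) dT) A' = _
    rw [D.x1_prT, D.x1_rel, ht]
    congr 1
  have e3 : D.x1 (T 1) A' = D.eN := rfl
  have h := D.parR_M T A'
  rw [e0, e1, e2, e3] at h
  rw [h]
  have hn : ∀ᶠ s in HF, (D.ev (T 0) A' s).1 = k := by
    have h1 : D.u1 (D.x1 (T 0) A') = D.u1 (D.nat k) := by rw [e2]
    rw [D.u1_nat] at h1
    exact Germ.coe_eq.1 h1
  filter_upwards [hn, hf_of_atTop (D.tend (k + 1)), hf_ge (k + 1)] with s hs1 hs2 hs3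
  have hks : k < 2 ^ s := lt_of_lt_of_le (by omega : k < s) Nat.lt_two_pow_self.le
  rw [hs1]
  change ParR std (str s (D.bits α s)) (Yv (D.π s) s (codeR α (k + 1))) k (2 ^ s : ℕ)
  rw [parR_std (D.bits α s) (fun i hi => mem_str_pos hks hi _)]
  intro i hi
  rw [mem_Yv, (lv_codeR α (k + 1)).log, Nat.add_sub_cancel, D.pp_eq α k s hs2 hs3 hi]
  exact ⟨fun h => h.2, fun h => ⟨hi, h⟩⟩

theorem Data.om_nat (α : Cantor) (k : ℕ) : OmR D.M D.eN (D.eU α) (D.nat k) := by
  refine ⟨?_, D.eY (codeR α (k + 1)), D.len_eY _, D.par_node α k⟩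
  rw [← D.nat_one, D.nat_add]
  exact D.nat_le_eN _

theorem Data.bit_iff (α : Cantor) (k : ℕ) : BitR D.M D.eN (D.eU α) (D.nat k) ↔ α k = true := by
  constructor
  · rintro ⟨y, -, h1, h2⟩
    obtain ⟨t, A, ht⟩ := D.x1_surj (D.nat k)
    obtain ⟨u, B, hu⟩ := D.x2_surj y
    let A' : ℕ → Cantor := fun i => if i = 0 then α else ilv A B (i - 1)
    let T : ℕ → Tr := fun i => if i = 0 then prT (rel (fun i => i + 1) (evT t)) dT else
      prT szT (rel (fun i => i + 1) (odT u))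
    have hA' : A' ∘ (fun i => i + 1) = ilv A B := by funext i; simp [A']
    have e0 : D.x2 (T 0) A' = D.eU α := rfl
    have e1 : D.x2 (T 1) A' = y := by
      change D.x2 (prT szT (rel (fun i => i + 1) (odT u))) A' = _
      rw [D.x2_prT, D.x2_rel, hA', D.x2_odT, hu]
    have e2 : D.x1 (T 0) A' = D.nat k := by
      change D.x1 (prT (rel (fun i => i + 1) (evT t)) dT) A' = _
      rw [D.x1_prT, D.x1_rel, hA', D.x1_evT, ht]
    have e3 : D.x1 (T 1) A' = D.eN := rfl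
    have h := D.parR_M T A'
    rw [e0, e1, e2, e3] at h
    have h' := D.lastR_M T A'
    rw [e1, e3] at h'
    have hn : ∀ᶠ s in HF, (D.ev (T 0) A' s).1 = k := by
      have h1 : D.u1 (D.x1 (T 0) A') = D.u1 (D.nat k) := by rw [e2]
      rw [D.u1_nat] at h1
      exact Germ.coe_eq.1 h1
    obtain ⟨s, hs1, hs2, hs3, hs4, hs5⟩ := (hn.and ((hf_of_atTop (D.tend (k + 1))).and
      ((hf_ge (k + 1)).and ((h.1 h1).and (h'.1 h2))))).exists
    have hks : k < 2 ^ s := lt_of_lt_of_le (by omega : k < s) Nat.lt_two_pow_self.le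
    rw [hs1] at hs4
    change ParR std (str s (D.bits α s)) (D.ev (T 1) A' s).2 k (2 ^ s : ℕ) at hs4
    change LastR std (D.ev (T 1) A' s).2 (2 ^ s : ℕ) at hs5
    rw [parR_std (D.bits α s) (fun i hi => mem_str_pos hks hi _)] at hs4
    rw [lastR_std] at hs5
    have h0 : 0 < 2 ^ s := by positivity
    rw [hs4 _ (by omega), D.pp_last α k s hs2 hs3] at hs5
    exact hs5
  · intro hα
    refine ⟨D.eY (codeR α (k + 1)), D.len_eY _, D.par_node α k, ?_⟩
    let T : ℕ → Tr := fun _ => prT szT (nodeT (codeR α (k + 1)))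
    have h := D.lastR_M T dA
    have e1 : D.x2 (T 1) dA = D.eY (codeR α (k + 1)) := rfl
    have e3 : D.x1 (T 1) dA = D.eN := rfl
    rw [e1, e3] at h
    rw [h]
    filter_upwards [hf_of_atTop (D.tend (k + 1)), hf_ge (k + 1)] with s hs2 hs3
    change LastR std (Yv (D.π s) s (codeR α (k + 1))) (2 ^ s : ℕ)
    have h0 : 0 < 2 ^ s := by positivity
    rw [lastR_std, mem_Yv, (lv_codeR α (k + 1)).log, Nat.add_sub_cancel,
      D.pp_eq α k s hs2 hs3 (by omega), D.pp_last α k s hs2 hs3]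
    exact ⟨by omega, hα⟩

theorem Data.om_std (α : Cantor) (n : D.M.N1) (h : OmR D.M D.eN (D.eU α) n) : ∃ k, n = D.nat k := by
  obtain ⟨hle, y, -, hpar⟩ := h
  by_contra hcon
  push Not at hcon
  obtain ⟨t, A, ht⟩ := D.x1_surj n
  obtain ⟨u, B, hu⟩ := D.x2_surj y
  let A' : ℕ → Cantor := fun i => if i = 0 then α else ilv A B (i - 1)
  let T : ℕ → Tr := fun i => if i = 0 then prT (rel (fun i => i + 1) (evT t)) dT else
    prT szT (rel (fun i => i + 1) (odT u))
  have hA' : A' ∘ (fun i => i + 1) = ilv A B := by funext i; simp [A']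
  have e0 : D.x2 (T 0) A' = D.eU α := rfl
  have e1 : D.x2 (T 1) A' = y := by
    change D.x2 (prT szT (rel (fun i => i + 1) (odT u))) A' = _
    rw [D.x2_prT, D.x2_rel, hA', D.x2_odT, hu]
  have e2 : D.x1 (T 0) A' = n := by
    change D.x1 (prT (rel (fun i => i + 1) (evT t)) dT) A' = _
    rw [D.x1_prT, D.x1_rel, hA', D.x1_evT, ht]
  have e3 : D.x1 (T 1) A' = D.eN := rfl
  have h := D.parR_M T A'
  rw [e0, e1, e2, e3] at h
  have hpar' := h.1 hpar
  -- the terms whose values are locally constant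
  obtain ⟨W1, hW1⟩ := exists_truth isSB0_fPar T
  obtain ⟨W2, hW2⟩ := exists_truth isSB0_fLast T
  obtain ⟨n1, hn1⟩ := D.lc_gen W1
  obtain ⟨n2, hn2⟩ := D.lc_gen W2
  obtain ⟨n3, hn3⟩ := D.lc_gen (T 0)
  obtain ⟨m, hm, hcc⟩ := (eventually_ccell (max (max n1 n2) (max n3 1)) A').exists
  have cc : ∀ n', n' ≤ max (max n1 n2) (max n3 1) → CCell n' m A' A' := fun n' hn' =>
    ⟨fun _ _ => rfl, fun i hi j hj => hcc.2.1 i (hi.trans_le hn') j (hj.trans_le hn'),
      fun i hi j hj => hcc.2.1 i (hi.trans_le hn') j (hj.trans_le hn')⟩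
  -- `n` is at least `m` at almost all stages
  have hnk : ∀ k, ∀ᶠ s in HF, (D.ev (T 0) A' s).1 ≠ k := by
    intro k
    have h1 : ¬ ∀ᶠ s in HF, (D.ev (T 0) A' s).1 = k := by
      intro h2
      apply hcon k
      rw [← e2, D.u1_inj, D.u1_nat]
      exact Germ.coe_eq.2 h2
    exact Ultrafilter.eventually_not.2 h1
  have hnm : ∀ᶠ s in HF, ∀ k ∈ Finset.range m, (D.ev (T 0) A' s).1 ≠ k := by
    rw [Filter.eventually_all_finset]
    exact fun k _ => hnk k
  have hlt : ∀ᶠ s in HF, (D.ev (T 0) A' s).1 + 1 ≤ 2 ^ s := by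
    have h1 : D.u1 (D.M.add n D.M.one) = ((fun s => (D.ev (T 0) A' s).1 + 1 : ℕ → ℕ) : G1) := by
      rw [← e2]; rfl
    rw [D.le_M _ _ _ _ h1 D.u1_eN] at hle
    exact hle
  obtain ⟨s, hs1, hs2, hs3, hs4⟩ := (hnm.and (hlt.and (hpar'.and
    (hf_of_atTop (D.tend m))))).exists
  set k := (D.ev (T 0) A' s).1 with hk
  have hmk : m ≤ k := by
    by_contra hcon
    exact hs1 k (Finset.mem_range.2 (by omega)) rfl
  have hks : k < 2 ^ s := hs2
  have h0 : 0 < 2 ^ s := by positivity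
  obtain ⟨i0, hi0, hfree⟩ := (D.lvl s m hs4).free (codeR α m) (lv_codeR α m) k hmk hks
  let X : ℕ → ℕ → Bool := fun κ v => (D.π s κ v).getD false
  let X' : ℕ → ℕ → Bool := Function.update X (codeR α m)
    (Function.update (X (codeR α m)) (k * 2 ^ s + i0) (!X (codeR α m) (k * 2 ^ s + i0)))
  have hX : Comp m s (D.π s) X := by
    intro κ _ v _ b hb
    simp only [X, hb, Option.getD_some]
  have hX' : Comp m s (D.π s) X' := by
    intro κ hκ v hv b hb
    by_cases h1 : κ = codeR α m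
    · subst h1
      simp only [X', Function.update_self]
      rw [Function.update_of_ne]
      · exact hX _ hκ v hv b hb
      · rintro rfl
        rw [hfree] at hb
        cases hb
    · simp only [X', Function.update_of_ne h1]
      exact hX _ hκ v hv b hb
  -- evaluation at a compatible assignment
  have key : ∀ Z : ℕ → ℕ → Bool, Comp m s (D.π s) Z →
      (LastR std (D.ev (T 1) A' s).2 (2 ^ s : ℕ) ↔ pp s k (Z (codeR α m)) (2 ^ s - 1) = true) := by
    intro Z hZ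
    let E : ℕ → Finset ℕ := fun i => str s (Z (codeR (A' i) m))
    have hE0 : E 0 = str s (Z (codeR α m)) := rfl
    have a1 : (H23V.ev (Yv (D.π s) s) E s W1).1 = (D.ev W1 A' s).1 :=
      hn1 m (by omega) A' (cc n1 (by omega)) s hs4 Z hZ
    have a2 : (H23V.ev (Yv (D.π s) s) E s W2).1 = (D.ev W2 A' s).1 :=
      hn2 m (by omega) A' (cc n2 (by omega)) s hs4 Z hZ
    have a3 : (H23V.ev (Yv (D.π s) s) E s (T 0)).1 = k :=
      hn3 m (by omega) A' (cc n3 (by omega)) s hs4 Z hZ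
    have b1 := hW1 (Yv (D.π s) s) E s
    have b2 := hW2 (Yv (D.π s) s) E s
    have c1 := hW1 (Yv (D.π s) s) (fun i => str s (D.bits (A' i) s)) s
    have c2 := hW2 (Yv (D.π s) s) (fun i => str s (D.bits (A' i) s)) s
    have d1 : ParR std (H23V.ev (Yv (D.π s) s) E s (T 0)).2 (H23V.ev (Yv (D.π s) s) E s (T 1)).2
        (H23V.ev (Yv (D.π s) s) E s (T 0)).1 (H23V.ev (Yv (D.π s) s) E s (T 1)).1 := by
      have e4 := (sat_fPar std (fun j => (H23V.ev (Yv (D.π s) s) E s (T j)).1)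
        (fun j => (H23V.ev (Yv (D.π s) s) E s (T j)).2))
      refine e4.1 (b1.1 ?_)
      rw [a1]
      refine c1.2 ((sat_fPar std _ _).2 ?_)
      exact hs3
    rw [a3] at d1
    change ParR std (str s (Z (codeR α m))) (H23V.ev (Yv (D.π s) s) E s (T 1)).2 k (2 ^ s : ℕ) at d1
    rw [parR_std (Z (codeR α m)) (fun i hi => mem_str_pos hks hi _)] at d1
    rw [← d1 _ (by omega), ← lastR_std]
    have e5 := (sat_fLast std (fun j => (H23V.ev (Yv (D.π s) s) E s (T j)).1)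
        (fun j => (H23V.ev (Yv (D.π s) s) E s (T j)).2))
    have e6 : LastR std (H23V.ev (Yv (D.π s) s) E s (T 1)).2 (2 ^ s : ℕ) ↔
        (H23V.ev (Yv (D.π s) s) E s W2).1 = 1 := (b2.trans e5).symm
    rw [e6, a2]
    exact ((sat_fLast std _ _).symm.trans c2.symm)
  have k1 := key X hX
  have k2 := key X' hX'
  rw [k1] at k2
  have hflip : pp s k (X' (codeR α m)) (2 ^ s - 1) = !pp s k (X (codeR α m)) (2 ^ s - 1) := by
    simp only [X', Function.update_self]
    exact pp_flip _ (by omega)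
  rw [hflip] at k2
  cases h1 : pp s k (X (codeR α m)) (2 ^ s - 1) <;> simp [h1] at k2

end

end Pool.Agent.H23V
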