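import Mathlib

/-!
Uniform probability on finite products, used for random restrictions.
-/

namespace Pool.Agent.H23V

open Set

noncomputable section

/-- The proportion of a subset of a finite type. -/
def pr {Om : Type} (A : Set Om) : ℝ := (A.ncard : ℝ) / Nat.card Om

variable {Om : Type} [Finite Om]

omit [Finite Om] in
theorem pr_nonneg (A : Set Om) : 0 ≤ pr A := by unfold pr; positivity

theorem pr_mono {A B : Set Om} (h : A ⊆ B) : pr A ≤ pr B := by
  unfold pr
  gcongr
  exact Set.toFinite B

omit [Finite Om] in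
theorem pr_union_le (A B : Set Om) : pr (A ∪ B) ≤ pr A + pr B := by
  unfold pr
  rw [← add_div]
  gcongr
  exact_mod_cast Set.ncard_union_le A B

omit [Finite Om] in
theorem pr_empty : pr (∅ : Set Om) = 0 := by simp [pr]

omit [Finite Om] in
theorem pr_biUnion_le {ι : Type} (I : Finset ι) (A : ι → Set Om) {e : ℝ}
    (h : ∀ i ∈ I, pr (A i) ≤ e) : pr (⋃ i ∈ I, A i) ≤ I.card * e := by
  classical
  induction I using Finset.induction_on with
  | empty => simp [pr_empty]
  | insert a I ha ih =>
    rw [Finset.set_biUnion_insert]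
    refine (pr_union_le _ _).trans ?_
    have h1 := h a (Finset.mem_insert_self a I)
    have h2 := ih fun i hi => h i (Finset.mem_insert_of_mem hi)
    rw [Finset.card_insert_of_notMem ha]
    push_cast
    linarith

omit [Finite Om] in
theorem pr_iUnion_le {ι : Type} [Finite ι] (A : ι → Set Om) {e : ℝ}
    (h : ∀ i, pr (A i) ≤ e) : pr (⋃ i, A i) ≤ Nat.card ι * e := by
  classical
  cases nonempty_fintype ι
  have := pr_biUnion_le Finset.univ A (e := e) fun i _ => h i
  simp only [Finset.mem_univ, iUnion_true] at this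
  rw [Nat.card_eq_fintype_card]
  exact this

theorem exists_notMem_of_pr_lt {A : Set Om} [Nonempty Om] (h : pr A < 1) : ∃ x, x ∉ A := by
  by_contra hcon
  push Not at hcon
  have : A = univ := eq_univ_of_forall hcon
  rw [this] at h
  unfold pr at h
  rw [Set.ncard_univ, div_self] at h
  · exact lt_irrefl _ h
  · exact_mod_cast Nat.card_pos.ne'

theorem pr_le_iff [Nonempty Om] (A : Set Om) (e : ℝ) : pr A ≤ e ↔ (A.ncard : ℝ) ≤ e * Nat.card Om := by
  unfold pr
  rw [div_le_iff₀]
  exact_mod_cast Nat.card_pos

/-! ### Products -/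

variable {P L : Type} [Finite P] [Finite L]

/-- `A` depends only on the coordinates in `S`. -/
def Dep (S : Set P) (A : Set (P → L)) : Prop :=
  ∀ x y : P → L, (∀ p ∈ S, x p = y p) → (x ∈ A ↔ y ∈ A)

open scoped Classical in
theorem pr_indep [Nonempty L] {S : Set P} {A B : Set (P → L)} (hA : Dep S A) (hB : Dep Sᶜ B) :
    pr (A ∩ B) = pr A * pr B := by
  let mix : (P → L) → (P → L) → (P → L) := fun a b p => if p ∈ S then a p else b p
  have key : (A ×ˢ B).ncard = ((A ∩ B) ×ˢ (univ : Set (P → L))).ncard := by
    refine Set.ncard_congr (fun q _ => (mix q.1 q.2, mix q.2 q.1)) ?_ ?_ ?_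
    · rintro ⟨a, b⟩ ⟨ha, hb⟩
      refine ⟨⟨?_, ?_⟩, mem_univ _⟩
      · exact (hA _ _ fun p hp => by simp [mix, hp]).1 ha
      · exact (hB _ _ fun p hp => by
          have : p ∉ S := hp
          simp [mix, this]).1 hb
    · rintro ⟨a, b⟩ ⟨c, d⟩ - - h
      simp only [Prod.mk.injEq] at h ⊢
      constructor
      · funext p
        by_cases hp : p ∈ S
        · simpa [mix, hp] using congrFun h.1 p
        · simpa [mix, hp] using congrFun h.2 p
      · funext p
        by_cases hp : p ∈ S
        · simpa [mix, hp] using congrFun h.2 p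
        · simpa [mix, hp] using congrFun h.1 p
    · rintro ⟨c, d⟩ ⟨⟨hc1, hc2⟩, -⟩
      refine ⟨(mix c d, mix d c), ⟨?_, ?_⟩, ?_⟩
      · exact (hA _ _ fun p hp => by simp [mix, hp]).1 hc1
      · exact (hB _ _ fun p hp => by
          have : p ∉ S := hp
          simp [mix, this]).1 hc2
      · simp only [Prod.mk.injEq]
        constructor <;> funext p <;> by_cases hp : p ∈ S <;> simp [mix, hp]
  rw [Set.ncard_prod, Set.ncard_prod, Set.ncard_univ] at key
  unfold pr
  have h0 : (Nat.card (P → L) : ℝ) ≠ 0 := by exact_mod_cast Nat.card_pos.ne'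
  field_simp
  have key' : ((A.ncard : ℝ)) * B.ncard = (A ∩ B).ncard * Nat.card (P → L) := by
    exact_mod_cast key
  linarith

omit [Finite P] in
open scoped Classical in
/-- Probability of a box. -/
theorem pr_box (Z : P → Set L) [Fintype P] :
    pr {x : P → L | ∀ p, x p ∈ Z p} = ∏ p, ((Z p).ncard : ℝ) / Nat.card L := by
  cases nonempty_fintype L
  have h1 : {x : P → L | ∀ p, x p ∈ Z p} =
      ((Fintype.piFinset fun p => (Z p).toFinset : Finset (P → L)) : Set (P → L)) := by
    ext x; simp
  unfold pr
  rw [h1, Set.ncard_coe_finset, Fintype.card_piFinset]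
  simp only [Nat.card_eq_fintype_card, Fintype.card_fun]
  rw [Finset.prod_div_distrib]
  push_cast
  simp [Set.ncard_eq_toFinset_card', Finset.card_univ]

end

end Pool.Agent.H23V
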