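import Pool.Agent.H23V.Defin

/-!
A model of `V^0` and of all true `∀Σ^B_0` sentences in which the polynomial hierarchy (the
hierarchy of bounded formulas) does not collapse.
-/

namespace Pool.Agent.H23V.Strict

open Pool.Agent.H23V Filter Set
open Pool.Agent.H23 (Cantor Sg exists_diag)

/-- There is a structure `M` for the two-sorted language of bounded arithmetic such that
(a) every `Σ^B_0` formula true in the standard structure for all values of its variables is true
    in `M` for all values of its variables;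
(b) `M` satisfies comprehension for `Σ^B_0` formulas with parameters;
(c) strings of `M` with the same elements are equal;
(d) for every `n` there are a bounded formula `φ` and parameters `v, w` such that no `Σ^B_n`
    formula `ψ`, with any parameters `v', w'`, defines in `M` the same set of strings as `φ`.
By (a)-(c), `M` is a model of `V^0` together with all true sentences `∀x̄ ∀X̄ θ`, `θ ∈ Σ^B_0`. -/
theorem result : ∃ M : Two,
    (∀ φ, IsSB0 φ → (∀ v w, Sat std v w φ) → ∀ v w, Sat M v w φ) ∧
    (∀ φ, IsSB0 φ → ∀ (k : ℕ) (v : ℕ → M.N1) (w : ℕ → M.N2) (b : M.N1), ∃ X : M.N2,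
      M.le (M.len X) b ∧ ∀ i : M.N1, M.le i b → i ≠ b →
        (M.mem i X ↔ Sat M (Function.update v k i) w φ)) ∧
    (∀ X Y : M.N2, (∀ i, M.mem i X ↔ M.mem i Y) → X = Y) ∧
    (∀ n : ℕ, ∃ (φ : Fm) (v : ℕ → M.N1) (w : ℕ → M.N2), ∀ ψ, IsSP true n ψ →
      ∀ (v' : ℕ → M.N1) (w' : ℕ → M.N2), ∃ X : M.N2,
        ¬ (Sat M v (Function.update w 0 X) φ ↔ Sat M v' (Function.update w' 0 X) ψ)) := by
  obtain ⟨D⟩ := exists_data
  refine ⟨D.M, fun φ hφ h v w => D.M_true hφ h v w, fun φ hφ k v w b => D.M_comp hφ k v w b,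
    D.M_ext, fun n => ?_⟩
  obtain ⟨E, hE1, hE2⟩ := exists_diag (n + 1)
  obtain ⟨g0, g1, Rl, hRl1, hRl2⟩ := definable D (n + 1) Eᶜ hE1
  obtain ⟨φ, hφ⟩ := (hRl1 (k := 0) (l := 0) (fun e => e.d 0) (SV.par 0)).not
  let v : ℕ → D.M.N1 := fun i => if i = 2 then D.eN else D.M.len (D.eU fun _ => false)
  let w : ℕ → D.M.N2 := fun i => if i = 2 then D.eU (fun _ => false) else
    if i = 4 then D.eU g0 else D.eU g1
  refine ⟨φ, v, w, fun ψ hψ v' w' => ?_⟩
  by_contra hcon
  push Not at hcon
  apply hE2
  have hφE : ∀ X, Sat D.M v (Function.update w 0 X) φ ↔ D.rl X ∈ E := by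
    intro X
    rw [hφ]
    have hgood : GoodP D (cx 0 0 v (Function.update w 0 X)).p g0 g1 :=
      ⟨rfl, rfl, rfl, rfl, rfl⟩
    beta_reduce
    rw [hRl2 _ hgood]
    have : (cx 0 0 v (Function.update w 0 X)).d 0 = X := rfl
    rw [this]
    simp
  obtain ⟨T, A, hv', hw'⟩ := D.repM v' w'
  let T' : ℕ → Tr := fun i => if i = 0 then prT (rel Nat.succ (T 0)) dT else rel Nat.succ (T i)
  let g : Cantor → ℕ → Cantor := fun α i => if i = 0 then α else A (i - 1)
  have hg : Continuous g := by
    refine continuous_pi fun i => ?_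
    by_cases hi : i = 0
    · simp only [g, hi, if_true]; exact continuous_id
    · simp only [g, hi, if_false]; exact continuous_const
  have hgA : ∀ α, g α ∘ Nat.succ = A := by
    intro α; funext j; simp [g]
  have hup := D.upper hψ T' g hg
  have hval1 : ∀ α, (fun i => D.x1 (T' i) (g α)) = v' := by
    intro α
    rw [hv']
    funext i
    by_cases hi : i = 0
    · subst hi
      simp only [T', if_true]
      rw [D.x1_prT, D.x1_rel, hgA]
    · simp only [T', hi, if_false]
      rw [D.x1_rel, hgA]
  have hval2 : ∀ α, (fun i => D.x2 (T' i) (g α)) = Function.update w' 0 (D.eU α) := by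
    intro α
    funext i
    by_cases hi : i = 0
    · subst hi
      simp only [T', if_true, Function.update_self]
      rfl
    · rw [Function.update_of_ne hi, hw']
      simp only [T', hi, if_false]
      rw [D.x2_rel, hgA]
  have hset : g ⁻¹' (D.SF ψ T') = E := by
    ext α
    rw [mem_preimage]
    unfold Data.SF
    rw [mem_ofPred_eq, hval1, hval2]
    have h1 := hcon (D.eU α)
    rw [hφE, D.rl_eU] at h1
    exact h1.symm
  rw [hset] at hup
  exact hup

end Pool.Agent.H23V.Strict
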