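import Pool.Agent.H23V.Form

/-!
Terms for the elements of the model, and their behaviour under restrictions.
-/

namespace Pool.Agent.H23V

open Set Filter FirstOrder FirstOrder.Language

noncomputable section

/-- Function symbols: least witnesses, comprehension and pairing. -/
inductive PF : ℕ → Type
  | wit (l c k : ℕ) (φ : Fm) (h : IsSB0 φ) : PF l
  | comp (l c k : ℕ) (φ : Fm) (h : IsSB0 φ) : PF l
  | pr : PF 2

def pL : Language := ⟨PF, fun _ => Empty⟩

/-- Constants. -/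
inductive CS : Type
  | sz : CS
  | node (κ : ℕ) : CS

abbrev Tr := pL.Term (ℕ ⊕ CS)

def nenv {l : ℕ} (a : Fin l → ℕ × Finset ℕ) : ℕ → ℕ := fun j =>
  if h : j < l then (a ⟨j, h⟩).1 else 0
def senv {l : ℕ} (a : Fin l → ℕ × Finset ℕ) : ℕ → Finset ℕ := fun j =>
  if h : j < l then (a ⟨j, h⟩).2 else ∅

open scoped Classical in
/-- The least `i ≤ B` with `R i`, or `0`. -/
def leastN (B : ℕ) (R : ℕ → Prop) : ℕ := if h : ∃ i, i ≤ B ∧ R i then Nat.find h else 0

theorem leastN_le (B : ℕ) (R : ℕ → Prop) : leastN B R ≤ B := by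
  classical
  unfold leastN
  split_ifs with h
  · exact (Nat.find_spec h).1
  · exact Nat.zero_le _

theorem leastN_spec {B : ℕ} {R : ℕ → Prop} (h : ∃ i, i ≤ B ∧ R i) : R (leastN B R) := by
  classical
  unfold leastN
  rw [dif_pos h]
  exact (Nat.find_spec h).2

theorem leastN_eq {B : ℕ} {R : ℕ → Prop} {i : ℕ} (hi : i ≤ B) (h : R i) (hlt : ∀ j < i, ¬ R j) :
    leastN B R = i := by
  classical
  have hex : ∃ i, i ≤ B ∧ R i := ⟨i, hi, h⟩
  unfold leastN
  rw [dif_pos hex]
  refine (Nat.find_eq_iff hex).2 ⟨⟨hi, h⟩, fun j hj hR => hlt j hj hR.2⟩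

theorem leastN_none {B : ℕ} {R : ℕ → Prop} (h : ¬ ∃ i, i ≤ B ∧ R i) : leastN B R = 0 := by
  unfold leastN
  rw [dif_neg h]

open scoped Classical in
/-- Interpretation of the function symbols at stage `s`. -/
def pf (s : ℕ) : ∀ {l : ℕ}, PF l → (Fin l → ℕ × Finset ℕ) → ℕ × Finset ℕ
  | _, .wit _ c k φ _, a =>
    (leastN (2 ^ (c * s)) fun i => SatN (Function.update (nenv a) k i) (senv a) φ, ∅)
  | _, .comp _ c k φ _, a =>
    (0, (Finset.range (2 ^ (c * s))).filter fun i =>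
      SatN (Function.update (nenv a) k i) (senv a) φ)
  | _, .pr, a => ((a 0).1, (a 1).2)

/-- Evaluation of terms at stage `s`: `Y` gives the values of the node constants, `E` the values
of the variables. -/
def ev (Y E : ℕ → Finset ℕ) (s : ℕ) : Tr → ℕ × Finset ℕ
  | .var (.inl i) => (0, E i)
  | .var (.inr .sz) => (2 ^ s, ∅)
  | .var (.inr (.node κ)) => (0, Y κ)
  | .func F ts => pf s F fun i => ev Y E s (ts i)

/-- The requirement of a term. -/
def QT (t : Tr) : Req := fun b C ρ =>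
  (∃ n ≤ 2 ^ (b * C.s), ∀ x, (ev C.Y (fun j => C.E j (res ρ x)) C.s t).1 = n) ∧
  StrLoc b C.s ρ fun x => (ev C.Y (fun j => C.E j x) C.s t).2

theorem QT.nice (t : Tr) : (QT t).Nice := by
  constructor
  · rintro b b' C ρ ⟨⟨n, hn, h1⟩, h2⟩ hb
    exact ⟨⟨n, hn.trans (Nat.pow_le_pow_right (by norm_num) (Nat.mul_le_mul_right _ hb)), h1⟩,
      h2.mono hb⟩
  · rintro b C ρ ρ' ⟨⟨n, hn, h1⟩, h2⟩ he
    refine ⟨⟨n, hn, fun x => ?_⟩, h2.ext he⟩
    rw [← he.res_res, h1]

theorem strLoc_const {P : Type} {K s : ℕ} {ρ : P → Option Bool} {X : Finset ℕ}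
    (h : sl X ≤ 2 ^ (K * s)) : StrLoc K s ρ fun _ => X :=
  ⟨⟨sl X, h, fun _ => rfl⟩, fun _ => Jun.const _ _⟩

open scoped Classical in
/-- fixing the positions in `S`. -/
def fixS {P : Type} (S : Finset P) (a : P → Bool) : P → Option Bool := fun p =>
  if p ∈ S then some (a p) else none

theorem res_fixS {P : Type} (S : Finset P) (a x : P → Bool) {p : P} (hp : p ∈ S) :
    res (fixS S a) x p = a p := by
  simp [res, fixS, hp]

theorem nfree_fix {P : Type} (ρ : P → Option Bool) (S : Finset P) (a : P → Bool) (F : Finset P) :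
    nfree ρ F ≤ nfree (cmp ρ (fixS S a)) F + S.card := by
  classical
  unfold nfree
  have : (F.filter fun p => ρ p = none) ⊆
      (F.filter fun p => cmp ρ (fixS S a) p = none) ∪ S := by
    intro p hp
    rw [Finset.mem_filter] at hp
    rw [Finset.mem_union, Finset.mem_filter]
    by_cases hpS : p ∈ S
    · exact Or.inr hpS
    · left
      refine ⟨hp.1, ?_⟩
      simp [cmp, fixS, hp.2, hpS]
  refine (Finset.card_le_card this).trans ((Finset.card_union_le _ _).trans (le_of_eq ?_))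
  congr!

theorem fix_free (K k : ℕ) : ∃ s0 : ℕ, ∀ s ≥ s0, ∀ (P ι : Type) (blk : ι → Finset P)
    (ρ : P → Option Bool), Free k s blk ρ → ∀ S : Finset P, S.card ≤ K → ∀ a : P → Bool,
    Free (2 * k) s blk (cmp ρ (fixS S a)) := by
  obtain ⟨s0, hs0⟩ := eventually_atTop.1
    ((tendsto_pow_atTop_atTop_of_one_lt (by norm_num : 1 < 2)).eventually_gt_atTop
      (((K + 2) ^ 2) ^ k))
  refine ⟨s0, fun s hs P ι blk ρ hρ S hS a i => ?_⟩
  have h1 := hρ i
  have h2 := hs0 s hs
  have h3 := nfree_fix ρ S a (blk i)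
  set f := nfree ρ (blk i)
  set f' := nfree (cmp ρ (fixS S a)) (blk i)
  have h4 : (K + 2) ^ 2 ≤ f := by
    by_contra hcon
    push Not at hcon
    have := Nat.pow_le_pow_left hcon.le k
    omega
  have h5 : f ≤ f' ^ 2 := by
    have h6 : f ≤ f' + K := h3.trans (Nat.add_le_add_left hS _)
    have h7 : K ^ 2 + 3 * K + 4 ≤ f' := by nlinarith
    have h8 : K + 1 ≤ f' := by nlinarith
    have h9 : (K + 1) * f' ≤ f' * f' := Nat.mul_le_mul_right _ h8
    nlinarith
  calc 2 ^ s ≤ f ^ k := h1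
    _ ≤ (f' ^ 2) ^ k := Nat.pow_le_pow_left h5 k
    _ = f' ^ (2 * k) := by rw [← pow_mul]

/-- Making a satisfiable junta true. -/
theorem force {P : Type} {K : ℕ} {ρ : P → Option Bool} {g : (P → Bool) → Prop}
    (h : Jun K fun x => g (res ρ x)) {x0 : P → Bool} (hx : g (res ρ x0)) :
    ∃ (S : Finset P) (a : P → Bool), S.card ≤ K ∧ ∀ x, g (res (cmp ρ (fixS S a)) x) := by
  obtain ⟨S, h1, h2⟩ := h
  refine ⟨S, x0, h1, fun x => ?_⟩
  rw [res_cmp]
  exact (h2 _ _ fun p hp => res_fixS S x0 x hp).2 hx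

/-- Making the length of a set constant. -/
theorem force_len {P : Type} {K : ℕ} {ρ : P → Option Bool} {F : (P → Bool) → Finset ℕ} {B : ℕ}
    (hB : ∀ x, ∀ i ∈ F (res ρ x), i < B) (h : ∀ i, Jun K fun x => i ∈ F (res ρ x)) :
    ∃ (S : Finset P) (a : P → Bool) (l : ℕ), S.card ≤ K ∧ l ≤ B ∧
      ∀ x, sl (F (res (cmp ρ (fixS S a)) x)) = l := by
  classical
  by_cases hex : ∃ i x, i ∈ F (res ρ x)
  · let Q : ℕ → Prop := fun i => ∃ x, i ∈ F (res ρ x)
    obtain ⟨i, x, hix⟩ := hex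
    have hQi : Q i := ⟨x, hix⟩
    let i0 := Nat.findGreatest Q B
    have hQ0 : Q i0 := Nat.findGreatest_spec (m := i) (hB x i hix).le hQi
    obtain ⟨x0, hx0⟩ := hQ0
    obtain ⟨S, a, hS, hg⟩ := force (g := fun y => i0 ∈ F y) (h i0) hx0
    refine ⟨S, a, i0 + 1, hS, hB x0 i0 hx0, fun y => ?_⟩
    apply le_antisymm
    · refine sl_le fun j hj => ?_
      rw [res_cmp] at hj
      have hQj : Q j := ⟨_, hj⟩
      have := Nat.le_findGreatest (hB _ j hj).le hQj
      exact Nat.lt_succ_of_le this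
    · exact lt_sl (hg y)
  · push Not at hex
    refine ⟨∅, fun _ => false, 0, by simp, Nat.zero_le _, fun y => ?_⟩
    rw [res_cmp]
    have : F (res ρ (res (fixS ∅ fun _ => false) y)) = ∅ := by
      rw [Finset.eq_empty_iff_forall_notMem]
      exact fun i => hex i _
    rw [this]
    rfl

/-- Making a least witness constant. -/
theorem force_least {P : Type} {K : ℕ} {ρ : P → Option Bool} {G : ℕ → (P → Bool) → Prop} {B : ℕ}
    (h : ∀ i ≤ B, Jun K fun x => G i (res ρ x)) :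
    ∃ (S : Finset P) (a : P → Bool) (n : ℕ), S.card ≤ K ∧ n ≤ B ∧
      ∀ x, leastN B (fun i => G i (res (cmp ρ (fixS S a)) x)) = n := by
  classical
  by_cases hex : ∃ i, i ≤ B ∧ ∃ x, G i (res ρ x)
  · obtain ⟨hi0, x0, hx0⟩ := Nat.find_spec hex
    obtain ⟨S, a, hS, hg⟩ := force (g := G (Nat.find hex)) (h _ hi0) hx0
    refine ⟨S, a, Nat.find hex, hS, hi0, fun y => ?_⟩
    refine leastN_eq hi0 (hg y) fun j hj hR => ?_
    beta_reduce at hR
    rw [res_cmp] at hR
    exact Nat.find_min hex hj ⟨hj.le.trans hi0, _, hR⟩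
  · refine ⟨∅, fun _ => false, 0, by simp, Nat.zero_le _, fun y => ?_⟩
    apply leastN_none
    rintro ⟨i, hi, hR⟩
    rw [res_cmp] at hR
    exact hex ⟨i, hi, _, hR⟩

theorem ach_args {l : ℕ} (ts : Fin l → Tr) (ih : ∀ i, Ach (QT (ts i))) :
    Ach fun b C ρ => ∀ i, QT (ts i) b C ρ := by
  let Q : ℕ → Req := fun j => if h : j < l then QT (ts ⟨j, h⟩) else fun _ _ _ => True
  have h1 := Ach.forall_fin l Q (fun i hi => by simp only [Q, hi, dite_true]; exact QT.nice _)
    (fun i hi => by simp only [Q, hi, dite_true]; exact ih _)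
  intro b
  obtain ⟨b', hb'⟩ := h1 b
  refine ⟨b', fun C hC ρ hρ => ?_⟩
  obtain ⟨ρ', h2, h3, h4⟩ := hb' C hC ρ hρ
  refine ⟨ρ', h2, h3, fun i => ?_⟩
  have := h4 i i.2
  simp only [Q, i.2, dite_true] at this
  exact this

/-- The context for the arguments of a function symbol. -/
def argCtx (C : Ctx) {l : ℕ} (ts : Fin l → Tr) : Ctx :=
  { C with E := fun j x => senv (fun i => ev C.Y (fun j => C.E j x) C.s (ts i)) j }

theorem init_arg {C : Ctx} {l b : ℕ} {ts : Fin l → Tr} {ρ : C.P → Option Bool}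
    (hi : Init b C ρ) (h : ∀ i, QT (ts i) b C ρ) : Init b (argCtx C ts) ρ := by
  refine ⟨hi.card, hi.Yle, fun j => ?_, hi.free⟩
  by_cases hj : j < l
  · have h1 := (h ⟨j, hj⟩).2
    have h2 : (argCtx C ts).E j = fun x => (ev C.Y (fun j => C.E j x) C.s (ts ⟨j, hj⟩)).2 := by
      funext x
      simp [argCtx, senv, hj]
    rw [h2]
    exact h1
  · have h2 : (argCtx C ts).E j = fun x => ∅ := by
      funext x
      simp [argCtx, senv, hj]
    rw [h2]
    exact strLoc_const (by simp [sl])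

/-- Processing the formula of a function symbol. -/
theorem ach_sym {l : ℕ} (ts : Fin l → Tr) (ih : ∀ i, Ach (QT (ts i))) (c k : ℕ) {φ : Fm}
    (hφ : IsSB0 φ) : Ach fun b C ρ => ∃ nn : ℕ → ℕ,
      (∀ x, nenv (fun i => ev C.Y (fun j => C.E j (res ρ x)) C.s (ts i)) = nn) ∧
      ∀ i ≤ 2 ^ (c * C.s), Jun b fun x =>
        SatN (Function.update nn k i) (senv fun i => ev C.Y (fun j => C.E j (res ρ x)) C.s (ts i))
          φ := by
  intro b
  obtain ⟨b1, hb1⟩ := ach_args ts ih b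
  obtain ⟨b2, hb2⟩ := ach_formula hφ (max b1 c) b1
  refine ⟨max (max b1 b2) 1, fun C hC ρ hρ => ?_⟩
  obtain ⟨ρ1, he1, hi1, hq1⟩ := hb1 C (by omega) ρ hρ
  have hs1 : 1 ≤ C.s := by omega
  obtain ⟨ρ2, he2, hi2, hq2⟩ := hb2 (argCtx C ts) (by
    change b2 ≤ C.s
    omega) ρ1 (init_arg hi1 hq1)
  have he2' : Ext ρ1 ρ2 := he2
  have hpow : ∀ {a a' : ℕ}, a ≤ a' → 2 ^ (a * C.s) ≤ 2 ^ (a' * C.s) := fun h =>
    Nat.pow_le_pow_right (by norm_num) (Nat.mul_le_mul_right _ h)
  have hn : ∀ i, ∃ n ≤ 2 ^ (b1 * C.s), ∀ x,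
      (ev C.Y (fun j => C.E j (res ρ2 x)) C.s (ts i)).1 = n := by
    intro i
    exact ((QT.nice (ts i)).ext (hq1 i) he2').1
  choose n hn1 hn2 using hn
  let nn : ℕ → ℕ := fun j => if h : j < l then n ⟨j, h⟩ else 0
  have hnn : ∀ x, nenv (fun i => ev C.Y (fun j => C.E j (res ρ2 x)) C.s (ts i)) = nn := by
    intro x
    funext j
    unfold nenv
    simp only [nn]
    split_ifs with h
    · exact hn2 _ x
    · rfl
  refine ⟨ρ2, he1.trans he2', ⟨hi1.card.trans (hpow (by omega)),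
    fun κ => (hi1.Yle κ).trans (hpow (by omega)),
    fun i => ((hi1.loc i).ext he2').mono (by omega), hi2.free.mono (by omega) hs1⟩,
    nn, hnn, fun i hi => ?_⟩
  have h3 := hq2 (Function.update nn k i) (by
    intro j
    change _ ≤ 2 ^ (max b1 c * C.s)
    by_cases hj : j = k
    · subst hj
      rw [Function.update_self]
      exact hi.trans (hpow (le_max_right _ _))
    · rw [Function.update_of_ne hj]
      simp only [nn]
      split_ifs with h
      · exact (hn1 _).trans (hpow (le_max_left _ _))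
      · exact Nat.zero_le _)
  exact Jun.mono (by omega) h3

theorem ach_term (t : Tr) : Ach (QT t) := by
  induction t with
  | var i =>
    rcases i with i | κ
    · refine Ach.of_init (fun b => ⟨b, fun C ρ _ hρ => ?_⟩) (QT.nice _)
      exact ⟨⟨0, Nat.zero_le _, fun _ => rfl⟩, hρ.loc i⟩
    · cases κ with
      | sz =>
        refine Ach.of_init (fun b => ⟨1, fun C ρ _ hρ => ?_⟩) (QT.nice _)
        refine ⟨⟨2 ^ C.s, by rw [one_mul], fun _ => rfl⟩, strLoc_const ?_⟩
        simp [sl]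
      | node κ =>
        refine Ach.of_init (fun b => ⟨b, fun C ρ _ hρ => ?_⟩) (QT.nice _)
        exact ⟨⟨0, Nat.zero_le _, fun _ => rfl⟩, strLoc_const (hρ.Yle κ)⟩
  | @func l F ts ih =>
    cases F with
    | pr =>
      refine Ach.imp (ach_args ts ih) (fun b => ⟨b, fun C ρ _ _ hq => ?_⟩) (QT.nice _)
      exact ⟨(hq 0).1, (hq 1).2⟩
    | wit _ c k φ hφ =>
      intro b
      obtain ⟨b1, hb1⟩ := ach_sym ts ih c k hφ b
      obtain ⟨s0, hs0⟩ := fix_free b1 b1
      refine ⟨max (max (2 * b1) s0) (max c 1), fun C hC ρ hρ => ?_⟩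
      have hs1 : 1 ≤ C.s := by omega
      have hpow : ∀ {a a' : ℕ}, a ≤ a' → 2 ^ (a * C.s) ≤ 2 ^ (a' * C.s) := fun h =>
        Nat.pow_le_pow_right (by norm_num) (Nat.mul_le_mul_right _ h)
      obtain ⟨ρ1, he1, hi1, nn, hnn, hj⟩ := hb1 C (by omega) ρ hρ
      obtain ⟨S, a, n, hS, hn, hleast⟩ := force_least
        (G := fun i x => SatN (Function.update nn k i)
          (senv fun i => ev C.Y (fun j => C.E j x) C.s (ts i)) φ) hj
      have he2 : Ext ρ1 (cmp ρ1 (fixS S a)) := ext_cmp _ _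
      refine ⟨cmp ρ1 (fixS S a), he1.trans he2, ⟨hi1.card.trans (hpow (by omega)),
        fun κ => (hi1.Yle κ).trans (hpow (by omega)),
        fun i => ((hi1.loc i).ext he2).mono (by omega),
        (hs0 C.s (by omega) _ _ _ _ hi1.free S hS a).mono (by omega) hs1⟩, ?_, ?_⟩
      · refine ⟨n, hn.trans (hpow (by omega)), fun x => ?_⟩
        rw [← hleast x]
        change leastN _ _ = _
        have h3 := hnn (res (cmp ρ1 (fixS S a)) x)
        rw [he2.res_res] at h3
        rw [h3]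
      · exact strLoc_const (by simp [sl])
    | comp _ c k φ hφ =>
      intro b
      obtain ⟨b1, hb1⟩ := ach_sym ts ih c k hφ b
      obtain ⟨s0, hs0⟩ := fix_free b1 b1
      refine ⟨max (max (2 * b1) s0) (max c 1), fun C hC ρ hρ => ?_⟩
      have hs1 : 1 ≤ C.s := by omega
      have hpow : ∀ {a a' : ℕ}, a ≤ a' → 2 ^ (a * C.s) ≤ 2 ^ (a' * C.s) := fun h =>
        Nat.pow_le_pow_right (by norm_num) (Nat.mul_le_mul_right _ h)
      obtain ⟨ρ1, he1, hi1, nn, hnn, hj⟩ := hb1 C (by omega) ρ hρ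
      let F : (C.P → Bool) → Finset ℕ := fun x =>
        (ev C.Y (fun j => C.E j x) C.s (Term.func (L := pL) (PF.comp l c k φ hφ) ts)).2
      have hF : ∀ x i, i ∈ F (res ρ1 x) ↔ i < 2 ^ (c * C.s) ∧ SatN (Function.update nn k i)
          (senv fun i => ev C.Y (fun j => C.E j (res ρ1 x)) C.s (ts i)) φ := by
        intro x i
        classical
        change i ∈ (Finset.range (2 ^ (c * C.s))).filter _ ↔ _
        rw [Finset.mem_filter, Finset.mem_range, hnn]
      have hFj : ∀ i, Jun b1 fun x => i ∈ F (res ρ1 x) := by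
        intro i
        by_cases hi : i < 2 ^ (c * C.s)
        · obtain ⟨S, h1, h2⟩ := hj i hi.le
          refine ⟨S, h1, fun x y hxy => ?_⟩
          beta_reduce
          rw [hF, hF]
          exact and_congr Iff.rfl (h2 x y hxy)
        · have : (fun x => i ∈ F (res ρ1 x)) = fun _ => False := by
            funext x
            rw [hF]
            simp [hi]
          rw [this]
          exact Jun.const _ _
      obtain ⟨S, a, n, hS, hn, hlen⟩ := force_len (F := F) (B := 2 ^ (c * C.s))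
        (fun x i hi => ((hF x i).1 hi).1) hFj
      have he2 : Ext ρ1 (cmp ρ1 (fixS S a)) := ext_cmp _ _
      refine ⟨cmp ρ1 (fixS S a), he1.trans he2, ⟨hi1.card.trans (hpow (by omega)),
        fun κ => (hi1.Yle κ).trans (hpow (by omega)),
        fun i => ((hi1.loc i).ext he2).mono (by omega),
        (hs0 C.s (by omega) _ _ _ _ hi1.free S hS a).mono (by omega) hs1⟩, ?_, ?_, ?_⟩
      · exact ⟨0, Nat.zero_le _, fun _ => rfl⟩
      · exact ⟨n, hn.trans (hpow (by omega)), hlen⟩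
      · intro i
        exact (Jun.ext (g := fun x => i ∈ F x) (hFj i) he2).mono (by omega)

end

end Pool.Agent.H23V
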