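import Pool.Agent.H23V.Enum

/-!
The tree of partial assignments: one level.
-/

namespace Pool.Agent.H23V

open Set Filter FirstOrder FirstOrder.Language

noncomputable section

open scoped Classical in
/-- The string given by bits at stage `s`. -/
def str (s : ℕ) (b : ℕ → Bool) : Finset ℕ :=
  insert (2 ^ (2 * s)) ((Finset.range (2 ^ (2 * s))).filter fun v => b v = true)

theorem mem_str {s : ℕ} {b : ℕ → Bool} {i : ℕ} :
    i ∈ str s b ↔ i = 2 ^ (2 * s) ∨ (i < 2 ^ (2 * s) ∧ b i = true) := by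
  classical
  simp [str]

theorem sl_str (s : ℕ) (b : ℕ → Bool) : sl (str s b) = 2 ^ (2 * s) + 1 := by
  apply le_antisymm
  · refine sl_le fun i hi => ?_
    rcases mem_str.1 hi with h | h
    · omega
    · omega
  · exact lt_sl (mem_str.2 (Or.inl rfl))

theorem str_congr {s : ℕ} {b b' : ℕ → Bool} (h : ∀ v < 2 ^ (2 * s), b v = b' v) :
    str s b = str s b' := by
  ext i
  rw [mem_str, mem_str]
  refine or_congr Iff.rfl (and_congr_right fun hi => ?_)
  rw [h i hi]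

/-- Prefix parities of block `n`. -/
def pp (s n : ℕ) (b : ℕ → Bool) : ℕ → Bool
  | 0 => b (n * 2 ^ s)
  | i + 1 => xor (pp s n b i) (b (n * 2 ^ s + (i + 1)))

theorem pp_congr {s n : ℕ} {b b' : ℕ → Bool} {i : ℕ}
    (h : ∀ j ≤ i, b (n * 2 ^ s + j) = b' (n * 2 ^ s + j)) : pp s n b i = pp s n b' i := by
  induction i with
  | zero => exact h 0 le_rfl
  | succ i ih =>
    simp only [pp]
    rw [ih fun j hj => h j (hj.trans (Nat.le_succ i)), h (i + 1) le_rfl]

theorem pp_flip {s n : ℕ} (b : ℕ → Bool) {i j : ℕ} (hj : j ≤ i) :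
    pp s n (Function.update b (n * 2 ^ s + j) (!b (n * 2 ^ s + j))) i = !pp s n b i := by
  induction i with
  | zero =>
    have : j = 0 := by omega
    subst this
    simp [pp]
  | succ i ih =>
    simp only [pp]
    rcases Nat.lt_or_ge i j with h | h
    · have hj' : j = i + 1 := by omega
      subst hj'
      rw [pp_congr (b' := b) (i := i) fun j hj => by
        rw [Function.update_of_ne]
        omega]
      rw [Function.update_self]
      cases pp s n b i <;> cases b (n * 2 ^ s + (i + 1)) <;> rfl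
    · rw [ih h, Function.update_of_ne (by omega)]
      cases pp s n b i <;> cases b (n * 2 ^ s + (i + 1)) <;> rfl

/-- Completing a block with a given parity. -/
theorem exists_fix (s n : ℕ) (σ : ℕ → Option Bool) (d : Bool)
    (hf : ∃ i < 2 ^ s, σ (n * 2 ^ s + i) = none) : ∃ b : ℕ → Bool,
    (∀ v c, σ v = some c → b v = c) ∧ pp s n b (2 ^ s - 1) = d := by
  obtain ⟨i, hi, hσ⟩ := hf
  let b0 : ℕ → Bool := fun v => (σ v).getD false
  by_cases h : pp s n b0 (2 ^ s - 1) = d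
  · exact ⟨b0, fun v c hv => by simp [b0, hv], h⟩
  · refine ⟨Function.update b0 (n * 2 ^ s + i) (!b0 (n * 2 ^ s + i)), fun v c hv => ?_, ?_⟩
    · rw [Function.update_of_ne (by rintro rfl; rw [hσ] at hv; cases hv)]
      simp [b0, hv]
    · rw [pp_flip b0 (by omega)]
      cases d <;> simp_all

open scoped Classical in
/-- The value of the node constant `κ`: the prefix parities of the last completed block. -/
def Yv (π : ℕ → ℕ → Option Bool) (s κ : ℕ) : Finset ℕ :=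
  (Finset.range (2 ^ s)).filter fun i =>
    pp s (Nat.log 2 κ - 1) (fun v => (π κ v).getD false) i = true

theorem mem_Yv {π : ℕ → ℕ → Option Bool} {s κ i : ℕ} : i ∈ Yv π s κ ↔ i < 2 ^ s ∧
    pp s (Nat.log 2 κ - 1) (fun v => (π κ v).getD false) i = true := by
  classical
  simp [Yv]

theorem sl_Yv (π : ℕ → ℕ → Option Bool) (s κ : ℕ) : sl (Yv π s κ) ≤ 2 ^ s :=
  sl_le fun _ hi => (mem_Yv.1 hi).1

/-- Nodes of level `m`. -/
def Lv (m κ : ℕ) : Prop := 2 ^ m ≤ κ ∧ κ < 2 ^ (m + 1)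

theorem Lv.log {m κ : ℕ} (h : Lv m κ) : Nat.log 2 κ = m :=
  (Nat.log_eq_iff (Or.inr ⟨by norm_num, by have := h.1; have : 0 < 2 ^ m := by positivity
                                           omega⟩)).2 ⟨h.1, h.2⟩

theorem Lv.half {m κ : ℕ} (h : Lv (m + 1) κ) : Lv m (κ / 2) := by
  obtain ⟨h1, h2⟩ := h
  constructor
  · rw [pow_succ] at h1; omega
  · rw [pow_succ] at h2; omega

/-- `X` is compatible with `π` at level `m`. -/
def Comp (m s : ℕ) (π : ℕ → ℕ → Option Bool) (X : ℕ → ℕ → Bool) : Prop :=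
  ∀ κ, Lv m κ → ∀ v < 2 ^ (2 * s), ∀ b, π κ v = some b → X κ v = b

/-- The conditions at level `m`. -/
structure LVL (m s : ℕ) (π : ℕ → ℕ → Option Bool) : Prop where
  nest : 1 ≤ m → ∀ κ, Lv m κ → ∀ v < 2 ^ (2 * s), ∀ b, π (κ / 2) v = some b → π κ v = some b
  full : 1 ≤ m → ∀ κ, Lv m κ → ∀ i < 2 ^ s, ∃ b, π κ ((m - 1) * 2 ^ s + i) = some b
  par : 1 ≤ m → ∀ κ, Lv m κ →
    pp s (m - 1) (fun v => (π κ v).getD false) (2 ^ s - 1) = decide (κ % 2 = 1)
  free : ∀ κ, Lv m κ → ∀ n, m ≤ n → n < 2 ^ s → ∃ i < 2 ^ s, π κ (n * 2 ^ s + i) = none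
  lc : ∀ j < m, nv (Ten j) ≤ 2 ^ (m + 1) → ∀ f : ℕ → ℕ, (∀ i < nv (Ten j), Lv m (f i)) →
    ∀ X X' : ℕ → ℕ → Bool, Comp m s π X → Comp m s π X' →
    (ev (Yv π s) (fun i => str s (X (f i))) s (Ten j)).1 =
      (ev (Yv π s) (fun i => str s (X' (f i))) s (Ten j)).1

open scoped Classical in
def FreeLvl (k m s : ℕ) (π : ℕ → ℕ → Option Bool) : Prop :=
  ∀ κ, Lv m κ → ∀ n, m ≤ n → n < 2 ^ s →
    2 ^ s ≤ ((Finset.range (2 ^ s)).filter fun i => π κ (n * 2 ^ s + i) = none).card ^ k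

theorem FreeLvl.exists_free {k m s : ℕ} {π : ℕ → ℕ → Option Bool} (h : FreeLvl k m s π)
    (hs : 1 ≤ s) {κ n : ℕ} (hκ : Lv m κ) (hn : m ≤ n) (hn' : n < 2 ^ s) :
    ∃ i < 2 ^ s, π κ (n * 2 ^ s + i) = none := by
  classical
  have h1 := h κ hκ n hn hn'
  by_contra hcon
  push Not at hcon
  have h2 : ((Finset.range (2 ^ s)).filter fun i => π κ (n * 2 ^ s + i) = none) = ∅ := by
    rw [Finset.filter_eq_empty_iff]
    intro i hi
    exact hcon i (Finset.mem_range.1 hi)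
  have h3 := pow_mono_k (k' := k + 1) (Nat.le_succ k) hs h1
  rw [h2] at h3
  simp at h3

open scoped Classical in
theorem nfree_blk {A s n : ℕ} (ρ : Fin A × Fin (2 ^ (2 * s)) → Option Bool) (a : Fin A)
    (hn : n < 2 ^ s) (σ : ℕ → Option Bool) (hσ : ∀ v (h : v < 2 ^ (2 * s)), σ v = ρ (a, ⟨v, h⟩)) :
    nfree ρ (Finset.univ.filter fun p => p.1 = a ∧ (p.2 : ℕ) / 2 ^ s = n) =
      ((Finset.range (2 ^ s)).filter fun i => σ (n * 2 ^ s + i) = none).card := by
  unfold nfree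
  have hpos : 0 < 2 ^ s := by positivity
  have h2s : 2 ^ (2 * s) = 2 ^ s * 2 ^ s := by rw [two_mul, pow_add]
  have hlt : ∀ i < 2 ^ s, n * 2 ^ s + i < 2 ^ (2 * s) := by
    intro i hi
    rw [h2s]
    calc n * 2 ^ s + i < n * 2 ^ s + 2 ^ s := by omega
      _ = (n + 1) * 2 ^ s := by ring
      _ ≤ 2 ^ s * 2 ^ s := Nat.mul_le_mul_right _ hn
  refine Finset.card_nbij' (fun p => (p.2 : ℕ) % 2 ^ s)
    (fun i => (a, ⟨(n * 2 ^ s + i) % 2 ^ (2 * s), Nat.mod_lt _ (by positivity)⟩)) ?_ ?_ ?_ ?_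
  · rintro ⟨a', v⟩ hp
    simp only [Finset.coe_filter, Finset.mem_filter, Finset.mem_univ, true_and, mem_ofPred_eq] at hp
    obtain ⟨⟨rfl, h1⟩, h2⟩ := hp
    simp only [Finset.coe_filter, Finset.mem_range, mem_ofPred_eq]
    refine ⟨Nat.mod_lt _ hpos, ?_⟩
    have h3 : n * 2 ^ s + (v : ℕ) % 2 ^ s = v := by
      rw [← h1, mul_comm]; exact Nat.div_add_mod _ _
    rw [h3, hσ v v.2]
    exact h2
  · intro i hi
    simp only [Finset.coe_filter, Finset.mem_range, mem_ofPred_eq] at hi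
    simp only [Finset.coe_filter, Finset.mem_filter, Finset.mem_univ, true_and, mem_ofPred_eq]
    have h4 := hlt i hi.1
    have h5 : (n * 2 ^ s + i) % 2 ^ (2 * s) = n * 2 ^ s + i := Nat.mod_eq_of_lt h4
    refine ⟨?_, ?_⟩
    · rw [h5, mul_comm, Nat.mul_add_div hpos, Nat.div_eq_of_lt hi.1, add_zero]
    · have := hi.2
      rw [hσ _ h4] at this
      rw [← this]
      congr 2
      exact Fin.ext h5
  · rintro ⟨a', v⟩ hp
    simp only [Finset.coe_filter, Finset.mem_filter, Finset.mem_univ, true_and, mem_ofPred_eq] at hp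
    obtain ⟨⟨rfl, h1⟩, h2⟩ := hp
    have h3 : n * 2 ^ s + (v : ℕ) % 2 ^ s = v := by
      rw [← h1, mul_comm]; exact Nat.div_add_mod _ _
    simp only [Prod.mk.injEq, true_and]
    apply Fin.ext
    simp only [h3]
    exact Nat.mod_eq_of_lt v.2
  · intro i hi
    simp only [Finset.coe_filter, Finset.mem_range, mem_ofPred_eq] at hi
    have h4 := hlt i hi.1
    simp only
    rw [Nat.mod_eq_of_lt h4, mul_comm, Nat.mul_add_mod, Nat.mod_eq_of_lt hi.1]

/-- Assignments on the positions of one level as functions of codes. -/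
def toX {A B : ℕ} (x : Fin A × Fin B → Bool) : ℕ → ℕ → Bool := fun κ v =>
  if h : κ - A < A ∧ v < B then x (⟨κ - A, h.1⟩, ⟨v, h.2⟩) else false

open scoped Classical in
/-- The context of level `m + 1`. -/
def lvCtx (m s : ℕ) (Y : ℕ → Finset ℕ) : Ctx where
  s := s
  P := Fin (2 ^ (m + 1)) × Fin (2 ^ (2 * s))
  finP := inferInstance
  ι := {q : Fin (2 ^ (m + 1)) × Fin (2 ^ s) // m + 1 ≤ (q.2 : ℕ)}
  finι := inferInstance
  blk := fun q => Finset.univ.filter fun p => p.1 = q.1.1 ∧ (p.2 : ℕ) / 2 ^ s = q.1.2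
  Y := Y
  E := fun κ x => str s (toX x κ)

theorem strLoc_E {A s : ℕ} (hs : 1 ≤ s) (ρ : Fin A × Fin (2 ^ (2 * s)) → Option Bool) (κ : ℕ) :
    StrLoc 3 s ρ fun x => str s (toX x κ) := by
  refine ⟨⟨2 ^ (2 * s) + 1, ?_, fun x => sl_str _ _⟩, fun i => ?_⟩
  · have h1 : 2 ^ (3 * s) = 2 ^ (2 * s) * 2 ^ s := by rw [← pow_add]; congr 1; ring
    have h2 : 2 ≤ 2 ^ s := by
      calc 2 = 2 ^ 1 := rfl
        _ ≤ 2 ^ s := Nat.pow_le_pow_right (by norm_num) hs
    have h3 : 1 ≤ 2 ^ (2 * s) := Nat.one_le_two_pow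
    rw [h1]; nlinarith
  · by_cases h : κ - A < A ∧ i < 2 ^ (2 * s)
    · refine ⟨{(⟨κ - A, h.1⟩, ⟨i, h.2⟩)}, by simp, fun x y hxy => ?_⟩
      beta_reduce
      rw [mem_str, mem_str]
      unfold toX res
      simp only [h, and_self, dite_true]
      rw [hxy _ (Finset.mem_singleton_self _)]
    · refine ⟨∅, by simp, fun x y _ => ?_⟩
      beta_reduce
      rw [mem_str, mem_str]
      unfold toX
      simp only [h, dite_false]

end

end Pool.Agent.H23V
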