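import Pool.Agent.H23V.Tree

/-!
The inductive step of the construction of the tree.
-/

namespace Pool.Agent.H23V

open Set Filter FirstOrder FirstOrder.Language

noncomputable section

/-- Number of variables of the first terms. -/
def nvmax (m : ℕ) : ℕ := (Finset.range (m + 1)).sup fun j => nv (Ten j)

theorem nv_le_nvmax {m j : ℕ} (hj : j < m + 1) : nv (Ten j) ≤ nvmax m :=
  Finset.le_sup (f := fun j => nv (Ten j)) (Finset.mem_range.2 hj)

def fhat (m : ℕ) (f : Fin (nvmax m) → Fin (2 ^ (m + 1))) : ℕ → ℕ := fun i =>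
  if h : i < nvmax m then 2 ^ (m + 1) + f ⟨i, h⟩ else 2 ^ (m + 1)

theorem ach_level (m : ℕ) : Ach fun b C ρ => ∀ q : Fin (m + 1) × (Fin (nvmax m) →
    Fin (2 ^ (m + 1))), QT (rel (fhat m q.2) (Ten q.1)) b C ρ :=
  Ach.forall_finite _ (fun _ => QT.nice _) fun _ => ach_term _

theorem tree_step (m k : ℕ) : ∃ k' s0, ∀ s ≥ s0, ∀ π : ℕ → ℕ → Option Bool, FreeLvl k m s π →
    ∃ π' : ℕ → ℕ → Option Bool, (∀ κ < 2 ^ (m + 1), π' κ = π κ) ∧ LVL (m + 1) s π' ∧
      FreeLvl k' (m + 1) s π' := by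
  classical
  obtain ⟨b', hb'⟩ := ach_level m (m + 4 + k)
  refine ⟨b', max b' (m + 3), fun s hs π hπ => ?_⟩
  have hs1 : 1 ≤ s := by omega
  have hms : m + 1 < 2 ^ s := lt_of_lt_of_le (by omega : m + 1 < s) Nat.lt_two_pow_self.le
  have h2s : 2 ^ (2 * s) = 2 ^ s * 2 ^ s := by rw [two_mul, pow_add]
  have hpos : 0 < 2 ^ s := by positivity
  have hposlt : ∀ n < 2 ^ s, ∀ i < 2 ^ s, n * 2 ^ s + i < 2 ^ (2 * s) := by
    intro n hn i hi
    rw [h2s]
    calc n * 2 ^ s + i < n * 2 ^ s + 2 ^ s := by omega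
      _ = (n + 1) * 2 ^ s := by ring
      _ ≤ 2 ^ s * 2 ^ s := Nat.mul_le_mul_right _ hn
  have hdiv : ∀ n, ∀ i < 2 ^ s, (n * 2 ^ s + i) / 2 ^ s = n := by
    intro n i hi
    rw [mul_comm, Nat.mul_add_div hpos, Nat.div_eq_of_lt hi, add_zero]
  -- completing block `m`
  have hfix : ∀ κ, ∃ b : ℕ → Bool, Lv (m + 1) κ → (∀ v c, π (κ / 2) v = some c → b v = c) ∧
      pp s m b (2 ^ s - 1) = decide (κ % 2 = 1) := by
    intro κ
    by_cases hκ : Lv (m + 1) κ
    · obtain ⟨b, hb⟩ := exists_fix s m (π (κ / 2)) (decide (κ % 2 = 1))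
        (hπ.exists_free hs1 hκ.half le_rfl (by omega))
      exact ⟨b, fun _ => hb⟩
    · exact ⟨fun _ => false, fun h => absurd h hκ⟩
  choose bf hbf using hfix
  let π1 : ℕ → ℕ → Option Bool := fun κ v =>
    if Lv (m + 1) κ then (if v / 2 ^ s = m then some (bf κ v) else π (κ / 2) v) else π κ v
  let Y := Yv π1 s
  let C := lvCtx m s Y
  let cod : Fin (2 ^ (m + 1)) → ℕ := fun a => 2 ^ (m + 1) + a
  have hcod : ∀ a, Lv (m + 1) (cod a) := by
    intro a
    have := a.2
    refine ⟨by simp only [cod]; omega, ?_⟩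
    rw [pow_succ 2 (m + 1)]
    simp only [cod]; omega
  have hcods : ∀ a, cod a - 2 ^ (m + 1) = a := by intro a; simp only [cod]; omega
  have hLv : ∀ κ, Lv (m + 1) κ → κ - 2 ^ (m + 1) < 2 ^ (m + 1) ∧
      2 ^ (m + 1) + (κ - 2 ^ (m + 1)) = κ := by
    rintro κ ⟨h1, h2⟩
    rw [pow_succ 2 (m + 1)] at h2
    omega
  let ρ0 : C.P → Option Bool := fun p => π1 (cod p.1) p.2
  have hinit : Init (m + 4 + k) C ρ0 := by
    refine ⟨?_, ?_, ?_, ?_⟩
    · have h1 : Nat.card C.ι ≤ Nat.card (Fin (2 ^ (m + 1)) × Fin (2 ^ s)) :=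
        Nat.card_le_card_of_injective (fun q : C.ι => q.1) Subtype.val_injective
      rw [Nat.card_prod, Nat.card_fin, Nat.card_fin, ← pow_add] at h1
      refine h1.trans (Nat.pow_le_pow_right (by norm_num) ?_)
      change m + 1 + s ≤ (m + 4 + k) * s
      nlinarith
    · intro κ
      refine (sl_Yv π1 s κ).trans (Nat.pow_le_pow_right (by norm_num) ?_)
      change s ≤ (m + 4 + k) * s
      nlinarith
    · intro κ
      exact (strLoc_E hs1 ρ0 κ).mono (by omega)
    · refine Free.mono (k := k) (by omega) hs1 fun q => ?_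
      obtain ⟨⟨a, n⟩, hq⟩ := q
      have h1 := hπ (cod a / 2) (hcod a).half n (by have : m + 1 ≤ (n : ℕ) := hq
                                                    omega) n.2
      have h2 : nfree ρ0 (C.blk ⟨(a, n), hq⟩) =
          ((Finset.range (2 ^ s)).filter fun i => π1 (cod a) (n * 2 ^ s + i) = none).card :=
        nfree_blk (s := s) ρ0 a n.2 (π1 (cod a)) (fun v hv => rfl)
      rw [h2]
      have h3 : ((Finset.range (2 ^ s)).filter fun i => π1 (cod a) (n * 2 ^ s + i) = none) =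
          ((Finset.range (2 ^ s)).filter fun i => π (cod a / 2) (n * 2 ^ s + i) = none) := by
        apply Finset.filter_congr
        intro i hi
        have h4 := hdiv n i (Finset.mem_range.1 hi)
        have h5 : (n : ℕ) ≠ m := by
          have : m + 1 ≤ (n : ℕ) := hq
          omega
        simp only [π1, hcod a, if_true, h4, h5, if_false]
      rw [h3]
      exact h1
  obtain ⟨ρ', hext, hini', hreq⟩ := hb' C (by change b' ≤ s; omega) ρ0 hinit
  let π' : ℕ → ℕ → Option Bool := fun κ v =>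
    if h : (κ - 2 ^ (m + 1) < 2 ^ (m + 1) ∧ v < 2 ^ (2 * s)) then
      (if Lv (m + 1) κ then ρ' (⟨κ - 2 ^ (m + 1), h.1⟩, ⟨v, h.2⟩) else π κ v) else π κ v
  have hπ'lo : ∀ κ < 2 ^ (m + 1), π' κ = π κ := by
    intro κ hκ
    funext v
    have : ¬ Lv (m + 1) κ := fun h => absurd h.1 (by omega)
    simp only [π', this, if_false]
    split_ifs <;> rfl
  have hπ'hi : ∀ κ (h : Lv (m + 1) κ) v (hv : v < 2 ^ (2 * s)),
      π' κ v = ρ' (⟨κ - 2 ^ (m + 1), (hLv κ h).1⟩, ⟨v, hv⟩) := by
    intro κ h v hv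
    simp only [π', h, if_true, (hLv κ h).1, hv, and_self, dite_true]
  have hπ1' : ∀ κ, Lv (m + 1) κ → ∀ v < 2 ^ (2 * s), ∀ b, π1 κ v = some b → π' κ v = some b := by
    intro κ h v hv b hb
    rw [hπ'hi κ h v hv]
    apply hext
    change π1 (2 ^ (m + 1) + (κ - 2 ^ (m + 1))) v = some b
    rw [(hLv κ h).2]
    exact hb
  have hblk : ∀ κ, Lv (m + 1) κ → ∀ i < 2 ^ s, π' κ (m * 2 ^ s + i) = some (bf κ (m * 2 ^ s + i)) := by
    intro κ h i hi
    apply hπ1' κ h _ (hposlt m (by omega) i hi)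
    simp only [π1, h, if_true, hdiv m i hi]
  have hppeq : ∀ κ, Lv (m + 1) κ → ∀ i < 2 ^ s,
      pp s m (fun v => (π' κ v).getD false) i = pp s m (bf κ) i := by
    intro κ h i hi
    apply pp_congr
    intro j hj
    rw [hblk κ h j (by omega)]
    rfl
  have hY : ∀ κ < 2 ^ (m + 2), Yv π' s κ = Y κ := by
    intro κ hκ
    ext i
    change _ ↔ i ∈ Yv π1 s κ
    rw [mem_Yv, mem_Yv]
    refine and_congr_right fun hi => ?_
    by_cases h : Lv (m + 1) κ
    · rw [h.log, Nat.add_sub_cancel, hppeq κ h i hi]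
      have : pp s m (fun v => (π1 κ v).getD false) i = pp s m (bf κ) i := by
        apply pp_congr
        intro j hj
        simp only [π1, h, if_true, hdiv m j (by omega), Option.getD_some]
      rw [this]
    · have h1 : π' κ = π κ := by
        apply hπ'lo
        by_contra hcon
        exact h ⟨by omega, hκ⟩
      have h2 : π1 κ = π κ := by
        funext v
        simp only [π1, h, if_false]
      rw [h1, h2]
  have hfreeout : ∀ κ, Lv (m + 1) κ → ∀ n, m + 1 ≤ n → n < 2 ^ s →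
      2 ^ s ≤ ((Finset.range (2 ^ s)).filter fun i => π' κ (n * 2 ^ s + i) = none).card ^ b' := by
    intro κ h n hn hn'
    have h1 := hini'.free ⟨(⟨κ - 2 ^ (m + 1), (hLv κ h).1⟩, ⟨n, hn'⟩), hn⟩
    have h2 : nfree ρ' (C.blk ⟨(⟨κ - 2 ^ (m + 1), (hLv κ h).1⟩, ⟨n, hn'⟩), hn⟩) =
        ((Finset.range (2 ^ s)).filter fun i => π' κ (n * 2 ^ s + i) = none).card :=
      nfree_blk (s := s) ρ' ⟨κ - 2 ^ (m + 1), (hLv κ h).1⟩ hn' (π' κ)
      (fun v hv => hπ'hi κ h v hv)
    rw [h2] at h1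
    exact h1
  have hfl : FreeLvl b' (m + 1) s π' := fun κ h n hn hn' => hfreeout κ h n hn hn'
  refine ⟨π', hπ'lo, ⟨fun _ κ h v hv b hb => ?_, fun _ κ h i hi => ?_, fun _ κ h => ?_,
    fun κ h n hn hn' => hfl.exists_free hs1 h hn hn', ?_⟩, hfl⟩
  · rw [hπ'lo _ (by have := h.half.2; exact this)] at hb
    apply hπ1' κ h v hv
    simp only [π1, h, if_true]
    split_ifs
    · rw [(hbf κ h).1 v b hb]
    · exact hb
  · rw [Nat.add_sub_cancel]
    exact ⟨_, hblk κ h i hi⟩
  · rw [Nat.add_sub_cancel, hppeq κ h _ (by omega)]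
    exact (hbf κ h).2
  · intro j hj hnv f hf X X' hX hX'
    let f' : Fin (nvmax m) → Fin (2 ^ (m + 1)) := fun i =>
      if h : f i - 2 ^ (m + 1) < 2 ^ (m + 1) then ⟨f i - 2 ^ (m + 1), h⟩ else ⟨0, by positivity⟩
    have hfh : ∀ i < nv (Ten j), fhat m f' i = f i := by
      intro i hi
      have h1 : i < nvmax m := hi.trans_le (nv_le_nvmax hj)
      have h2 := hLv _ (hf i hi)
      simp only [fhat, h1, dite_true, f', h2.1]
      exact h2.2
    obtain ⟨⟨n, -, hn⟩, -⟩ := hreq (⟨j, hj⟩, f')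
    have key : ∀ X : ℕ → ℕ → Bool, Comp (m + 1) s π' X →
        (ev (Yv π' s) (fun i => str s (X (f i))) s (Ten j)).1 = n := by
      intro X hX
      let x : C.P → Bool := fun p => X (cod p.1) p.2
      have hx : res ρ' x = x := by
        funext p
        unfold res
        cases hp : ρ' p with
        | none => rfl
        | some b =>
          have h3 := hX (cod p.1) (hcod p.1) p.2 p.2.2 b (by
            rw [hπ'hi _ (hcod p.1) _ p.2.2]
            simp only [hcods]
            exact hp)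
          exact h3.symm
      rw [← hn x, hx, ev_rel]
      congr 1
      apply nv_spec
      · intro i hi
        exact hY i (hi.trans_le hnv)
      · intro i hi
        change _ = str s (toX x (fhat m f' i))
        rw [hfh i hi]
        apply str_congr
        intro v hv
        have h4 := hLv _ (hf i hi)
        unfold toX
        rw [dif_pos ⟨h4.1, hv⟩]
        change _ = X (2 ^ (m + 1) + (f i - 2 ^ (m + 1))) v
        rw [h4.2]
    rw [key X hX, key X' hX']

end

end Pool.Agent.H23V
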