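import Pool.Agent.H23V.Tree2
import Pool.Agent.H23.Upper2

/-!
The whole tree and the local constancy of the number parts of all terms.
-/

namespace Pool.Agent.H23V

open Set Filter FirstOrder FirstOrder.Language Pool.Agent.H23

noncomputable section

theorem Yv_congr {π π' : ℕ → ℕ → Option Bool} {s κ : ℕ} (h : π κ = π' κ) :
    Yv π s κ = Yv π' s κ := by
  ext i
  rw [mem_Yv, mem_Yv, h]

theorem LVL.congr {m s : ℕ} {π π' : ℕ → ℕ → Option Bool} (h : ∀ κ < 2 ^ (m + 1), π' κ = π κ)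
    (hL : LVL m s π) : LVL m s π' := by
  have hC : ∀ X, Comp m s π' X → Comp m s π X := by
    intro X hX κ hκ v hv b hb
    exact hX κ hκ v hv b (by rw [h κ hκ.2]; exact hb)
  refine ⟨fun hm κ hκ v hv b hb => ?_, fun hm κ hκ i hi => ?_, fun hm κ hκ => ?_,
    fun κ hκ n hn hn' => ?_, ?_⟩
  · rw [h κ hκ.2]
    rw [h (κ / 2) ((Nat.div_le_self _ _).trans_lt hκ.2)] at hb
    exact hL.nest hm κ hκ v hv b hb
  · rw [h κ hκ.2]; exact hL.full hm κ hκ i hi
  · rw [h κ hκ.2]; exact hL.par hm κ hκ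
  · rw [h κ hκ.2]; exact hL.free κ hκ n hn hn'
  · intro j hj hnv f hf X X' hX hX'
    have h1 := hL.lc j hj hnv f hf X X' (hC X hX) (hC X' hX')
    have h2 : ∀ E : ℕ → Finset ℕ, ev (Yv π' s) E s (Ten j) = ev (Yv π s) E s (Ten j) := by
      intro E
      apply nv_spec
      · intro i hi
        exact Yv_congr (h i (hi.trans_le hnv))
      · intro i _; rfl
    rw [h2, h2]
    exact h1

theorem exists_tree (m : ℕ) : ∃ k s0, ∀ s ≥ s0, ∃ π : ℕ → ℕ → Option Bool,
    (∀ j ≤ m, LVL j s π) ∧ FreeLvl k m s π := by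
  induction m with
  | zero =>
    refine ⟨1, 0, fun s _ => ⟨fun _ _ => none, fun j hj => ?_, ?_⟩⟩
    · have : j = 0 := by omega
      subst this
      refine ⟨fun h => by omega, fun h => by omega, fun h => by omega, fun κ _ n _ _ => ?_,
        fun j hj => by omega⟩
      exact ⟨0, by positivity, rfl⟩
    · intro κ _ n _ _
      simp
  | succ m ih =>
    obtain ⟨k, s0, h⟩ := ih
    obtain ⟨k', s1, h'⟩ := tree_step m k
    refine ⟨k', max s0 s1, fun s hs => ?_⟩
    obtain ⟨π, h1, h2⟩ := h s (by omega)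
    obtain ⟨π', h3, h4, h5⟩ := h' s (by omega) π h2
    refine ⟨π', fun j hj => ?_, h5⟩
    rcases Nat.lt_or_ge m j with h6 | h6
    · have : j = m + 1 := by omega
      subst this
      exact h4
    · refine (h1 j h6).congr fun κ hκ => h3 κ (hκ.trans_le ?_)
      exact Nat.pow_le_pow_right (by norm_num) (by omega)

theorem exists_seq : ∃ (N : ℕ → ℕ) (π : ℕ → ℕ → ℕ → Option Bool),
    (∀ m, ∀ᶠ s in atTop, m ≤ N s) ∧ ∀ s, ∀ j ≤ N s, LVL j s (π s) := by
  classical
  let Q : ℕ → ℕ → Prop := fun s m => ∃ π : ℕ → ℕ → Option Bool, ∀ j ≤ m, LVL j s π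
  have hQ0 : ∀ s, Q s 0 := by
    intro s
    refine ⟨fun _ _ => none, fun j hj => ?_⟩
    have : j = 0 := by omega
    subst this
    exact ⟨fun h => by omega, fun h => by omega, fun h => by omega,
      fun κ _ n _ _ => ⟨0, by positivity, rfl⟩, fun j hj => by omega⟩
  let N : ℕ → ℕ := fun s => Nat.findGreatest (Q s) s
  have hN : ∀ s, Q s (N s) := fun s => Nat.findGreatest_spec (Nat.zero_le s) (hQ0 s)
  choose π hπ using hN
  refine ⟨N, π, fun m => ?_, hπ⟩
  obtain ⟨k, s0, h⟩ := exists_tree m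
  filter_upwards [eventually_ge_atTop (max s0 m)] with s hs
  obtain ⟨π', h1, -⟩ := h s (by omega)
  exact Nat.le_findGreatest (by omega) ⟨π', h1⟩

/-- The data of the construction. -/
structure Data where
  N : ℕ → ℕ
  π : ℕ → ℕ → ℕ → Option Bool
  tend : ∀ m, ∀ᶠ s in atTop, m ≤ N s
  lvl : ∀ s, ∀ j ≤ N s, LVL j s (π s)

theorem exists_data : Nonempty Data := by
  obtain ⟨N, π, h1, h2⟩ := exists_seq
  exact ⟨⟨N, π, h1, h2⟩⟩

variable (D : Data)

/-- The bits attached to a real at stage `s`. -/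
def Data.bits (α : Cantor) (s v : ℕ) : Bool := (D.π s (codeR α (D.N s)) v).getD false

/-- The values of the terms. -/
def Data.ev (t : Tr) (A : ℕ → Cantor) (s : ℕ) : ℕ × Finset ℕ :=
  H23V.ev (Yv (D.π s) s) (fun i => str s (D.bits (A i) s)) s t

theorem lv_codeR (α : Cantor) (m : ℕ) : Lv m (codeR α m) := codeR_range α m

theorem Data.nest (α : Cantor) {s m i : ℕ} (hi : m + i ≤ D.N s) {v : ℕ} (hv : v < 2 ^ (2 * s))
    {b : Bool} (h : D.π s (codeR α m) v = some b) : D.π s (codeR α (m + i)) v = some b := by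
  induction i with
  | zero => exact h
  | succ i ih =>
    have h1 := ih (by omega)
    refine (D.lvl s (m + i + 1) (by omega)).nest (by omega) _ (lv_codeR _ _) v hv b ?_
    rw [codeR_succ_div]
    exact h1

theorem Data.comp_bits (α : Cantor) {s m : ℕ} (hm : m ≤ D.N s) {v : ℕ} (hv : v < 2 ^ (2 * s))
    {b : Bool} (h : D.π s (codeR α m) v = some b) : D.bits α s v = b := by
  have h1 := D.nest α (i := D.N s - m) (by omega) hv h
  have h2 : m + (D.N s - m) = D.N s := by omega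
  rw [h2] at h1
  unfold Data.bits
  rw [h1]
  rfl

theorem Data.lc_gen (t : Tr) : ∃ n, ∀ m, n ≤ 2 ^ m → ∀ A : ℕ → Cantor, CCell n m A A → ∀ s,
    m ≤ D.N s → ∀ X : ℕ → ℕ → Bool, Comp m s (D.π s) X →
    (H23V.ev (Yv (D.π s) s) (fun i => str s (X (codeR (A i) m))) s t).1 = (D.ev t A s).1 := by
  classical
  obtain ⟨j, rfl⟩ := Ten_surj t
  refine ⟨max (nv (Ten j)) (2 ^ (j + 1)), fun m hm A hA s hs X hX => ?_⟩
  have hj : j < m := by
    have : 2 ^ (j + 1) ≤ 2 ^ m := (le_max_right _ _).trans hm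
    have := (Nat.pow_le_pow_iff_right (by norm_num)).1 this
    omega
  have hnv : nv (Ten j) ≤ 2 ^ (m + 1) :=
    ((le_max_left _ _).trans hm).trans (Nat.pow_le_pow_right (by norm_num) (by omega))
  let P : ℕ → ℕ → Prop := fun κ i => i < nv (Ten j) ∧ codeR (A i) m = κ
  let X' : ℕ → ℕ → Bool := fun κ v =>
    if h : ∃ i, P κ i then D.bits (A h.choose) s v else (D.π s κ v).getD false
  have hX' : Comp m s (D.π s) X' := by
    intro κ hκ v hv b hb
    simp only [X']
    split_ifs with h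
    · have h1 := h.choose_spec
      refine D.comp_bits _ hs hv ?_
      rw [h1.2]
      exact hb
    · rw [hb]; rfl
  have hXi : ∀ i < nv (Ten j), X' (codeR (A i) m) = D.bits (A i) s := by
    intro i hi
    have h : ∃ i', P (codeR (A i) m) i' := ⟨i, hi, rfl⟩
    have h1 := h.choose_spec
    have h2 : A h.choose = A i := hA.2.1 _ (h1.1.trans_le (le_max_left _ _)) _
      (hi.trans_le (le_max_left _ _)) h1.2
    funext v
    simp only [X']
    rw [dif_pos h, h2]
  have h3 := (D.lvl s m hs).lc j hj hnv (fun i => codeR (A i) m) (fun i _ => lv_codeR _ _) X X'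
    hX hX'
  rw [h3]
  congr 1
  apply nv_spec
  · intro i _; rfl
  · intro i hi
    rw [hXi i hi]

theorem Data.lc (t : Tr) : ∃ n, ∀ m, n ≤ 2 ^ m → ∀ A A' : ℕ → Cantor, CCell n m A A' → ∀ s,
    m ≤ D.N s → (D.ev t A s).1 = (D.ev t A' s).1 := by
  obtain ⟨n, hn⟩ := D.lc_gen t
  refine ⟨max n (nv t), fun m hm A A' hA s hs => ?_⟩
  have h1 : CCell n m A A := ⟨fun _ _ => rfl,
    fun i hi j hj => hA.2.1 i (lt_max_of_lt_left hi) j (lt_max_of_lt_left hj),
    fun i hi j hj => hA.2.1 i (lt_max_of_lt_left hi) j (lt_max_of_lt_left hj)⟩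
  have h2 : CCell n m A' A' := ⟨fun _ _ => rfl,
    fun i hi j hj => hA.2.2 i (lt_max_of_lt_left hi) j (lt_max_of_lt_left hj),
    fun i hi j hj => hA.2.2 i (lt_max_of_lt_left hi) j (lt_max_of_lt_left hj)⟩
  have hm' : n ≤ 2 ^ m := (le_max_left _ _).trans hm
  let X : ℕ → ℕ → Bool := fun κ v => (D.π s κ v).getD false
  have hX : Comp m s (D.π s) X := by
    intro κ _ v _ b hb
    simp only [X, hb, Option.getD_some]
  rw [← hn m hm' A h1 s hs X hX, ← hn m hm' A' h2 s hs X hX]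
  congr 1
  apply nv_spec
  · intro i _; rfl
  · intro i hi
    rw [hA.1 i (lt_max_of_lt_right hi)]

end

end Pool.Agent.H23V
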